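import Pool.Agent.Lib.MP_485c8a_al.Walk

namespace Pool.Agent.Lib.MP_485c8a_al
open Module Submodule Polynomial

variable {F : Type} [Field F]
variable {V : Type} [AddCommGroup V] [Module F V]
variable {W : Type} [AddCommGroup W] [Module F W]
variable {U : Type} [AddCommGroup U] [Module F U]

theorem rev_basis [FiniteDimensional F V] (A : V →ₗ[F] V) {a : V} (h : Cyc F A a) {n : ℕ}
    (hn : finrank F V = n) : ∃ P : ℕ → V, P 0 = a ∧ P n = 0 ∧
      (∀ i < n, ∃ c : F, A (P i) = P (i + 1) + c • a) ∧ Sp F P n = ⊤ := by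
  have hco : ∀ (k : ℕ) (p : F[X]) (i : ℕ), (divX^[k] p).coeff i = p.coeff (i + k) := by
    intro k
    induction k with
    | zero => simp
    | succ k ih =>
      intro p i
      rw [Function.iterate_succ_apply', coeff_divX, ih]
      congr 1
      omega
  have hdeg : A.charpoly.natDegree = n := by rw [LinearMap.charpoly_natDegree, hn]
  have h0 : divX^[n] A.charpoly = 1 := by
    ext i
    rw [hco]
    rcases Nat.eq_zero_or_pos i with rfl | hi
    · have := A.charpoly_monic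
      rw [Monic, leadingCoeff, hdeg] at this
      simpa using this
    · rw [coeff_eq_zero_of_natDegree_lt (by omega), coeff_one]
      simp
      omega
  let P : ℕ → V := fun i => aeval A (divX^[n - i] A.charpoly) a
  have hP0 : P 0 = a := by simp [P, h0]
  have hPn : P n = 0 := by simp [P, LinearMap.aeval_self_charpoly]
  have hst : ∀ i < n, ∃ c : F, A (P i) = P (i + 1) + c • a := by
    intro i hi
    have e1 : n - i = (n - (i + 1)) + 1 := by omega
    refine ⟨-(divX^[n - (i + 1)] A.charpoly).coeff 0, ?_⟩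
    have := X_mul_divX_add (divX^[n - (i + 1)] A.charpoly)
    simp only [P]
    rw [e1, Function.iterate_succ_apply']
    have h2 := congrArg (fun p => aeval A p a) this
    simp only [map_add, map_mul, aeval_X, aeval_C, LinearMap.add_apply, Module.End.mul_apply,
      Module.algebraMap_end_apply] at h2
    rw [← h2]
    simp
  refine ⟨P, hP0, hPn, hst, ?_⟩
  rcases Nat.eq_zero_or_pos n with rfl | hpos
  · apply Submodule.eq_top_of_finrank_eq
    have := Submodule.finrank_le (Sp F P 0)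
    omega
  have ha : a ∈ Sp F P n := hP0 ▸ mem_Sp P hpos
  refine h _ ha fun x hx => map_mem_Sp A (fun j hj => ?_) hx
  obtain ⟨c, hc⟩ := hst j hj
  rw [hc]
  refine add_mem ?_ (smul_mem _ _ ha)
  rcases Nat.lt_or_ge (j + 1) n with h1 | h1
  · exact mem_Sp P h1
  · have : j + 1 = n := by omega
    rw [this, hPn]
    exact zero_mem _

/-- pole placement -/
theorem pole [FiniteDimensional F V] [FiniteDimensional F W] (S1 : V →ₗ[F] V) {x : V}
    (h1 : Cyc F S1 x) (hx : x ≠ 0) (S0 : W ≃ₗ[F] W) (h0 : ∃ a, Cyc F S0 a)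
    (hn : finrank F W = finrank F V) :
    ∃ S : V ≃ₗ[F] V, Sim S0 S ∧ ∀ y, S y - S1 y ∈ span F {x} := by
  obtain ⟨a, h0⟩ := h0
  have hpos : 0 < finrank F V := finrank_pos_iff_exists_ne_zero.2 ⟨x, hx⟩
  obtain ⟨P, p0, pn, ps, pt⟩ := rev_basis (S0 : W →ₗ[F] W) h0 hn
  obtain ⟨Q, q0, qn, qs, qt⟩ := rev_basis S1 h1 rfl
  obtain ⟨g, hg⟩ := exists_equiv P Q hn rfl pt qt
  refine ⟨cj g S0, sim_cj _ _, fun y => ?_⟩
  have hy : y ∈ Sp F Q (finrank F V) := by rw [qt]; trivial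
  refine map_mem_Sp (((cj g S0 : V ≃ₗ[F] V) : V →ₗ[F] V) - S1) (fun j hj => ?_) hy
  obtain ⟨c, hc⟩ := ps j hj
  obtain ⟨d, hd⟩ := qs j hj
  have e1 : g (P (j + 1)) = Q (j + 1) := by
    rcases Nat.lt_or_ge (j + 1) (finrank F V) with h1 | h1
    · exact hg _ h1
    · have : j + 1 = finrank F V := by omega
      rw [this, pn, qn, map_zero]
  have e2 : g a = x := by rw [← p0, ← q0]; exact hg 0 hpos
  have e3 : cj g S0 (Q j) = Q (j + 1) + c • x := by
    rw [← hg j hj, cj_apply, g.symm_apply_apply]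
    have hc' : S0 (P j) = P (j + 1) + c • a := hc
    rw [hc', map_add, map_smul, e1, e2]
  refine mem_span_singleton.2 ⟨c - d, ?_⟩
  simp only [LinearMap.sub_apply, LinearEquiv.coe_coe]
  rw [e3, hd]
  module

/-- splitting off a vector -/
def split0 (x : V) (φ : V →ₗ[F] F) (h : φ x = 1) : V ≃ₗ[F] (LinearMap.ker φ × F) where
  toFun y := (⟨y - φ y • x, by simp [h]⟩, φ y)
  map_add' y z := by
    ext
    · simp
      module
    · simp
  map_smul' c y := by
    ext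
    · simp
      module
    · simp
  invFun p := p.1 + p.2 • x
  left_inv y := by simp
  right_inv p := by
    have : φ p.1 = 0 := p.1.2
    ext
    · simp [this, h]
    · simp [this, h]

theorem finrank_ker_fun [FiniteDimensional F V] (x : V) (φ : V →ₗ[F] F) (h : φ x = 1) :
    finrank F (LinearMap.ker φ) + 1 = finrank F V := by
  have := (split0 x φ h).finrank_eq
  rw [this, finrank_prod, finrank_self]

theorem exists_split [FiniteDimensional F V] [FiniteDimensional F U] (x : V) (φ : V →ₗ[F] F)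
    (h : φ x = 1) (hU : finrank F U + 1 = finrank F V) :
    ∃ j : V ≃ₗ[F] (U × F), j x = (0, 1) ∧ ∀ y, (j y).2 = φ y := by
  have := finrank_ker_fun x φ h
  let e := LinearEquiv.ofFinrankEq (R := F) (LinearMap.ker φ) U (by omega)
  refine ⟨(split0 x φ h).trans (e.prodCongr (LinearEquiv.refl F F)), ?_, fun y => rfl⟩
  have : split0 x φ h x = (0, 1) := by
    ext
    · simp [split0, h]
    · simp [split0, h]
  simp [this]

theorem Cyc.comm {A : V → V} {a : V} (h : Cyc F A a) (D : V →ₗ[F] V) (hD : Function.Surjective D)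
    (hc : ∀ x, D (A x) = A (D x)) : Cyc F A (D a) := h.map D hD hc

theorem bn [FiniteDimensional F V] [FiniteDimensional F W] [FiniteDimensional F U]
    {M : V ≃ₗ[F] V} (hM : NS M) (S0 : W ≃ₗ[F] W) (hS0 : ∃ a, Cyc F S0 a)
    (hW : finrank F W = finrank F V) (Q0 : U ≃ₗ[F] U) (hQ0 : ∃ a, Cyc F Q0 a)
    (hU : finrank F U + 1 = finrank F V) :
    ∃ (S : V ≃ₗ[F] V) (j : V ≃ₗ[F] (U × F)) (θ : U →ₗ[F] F) (l : Fˣ), Sim S0 S ∧
      (∀ y, j (S (M y)) = ext Q0 θ l (j y)) ∧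
      M (j.symm (0, 1)) ∉ span F {j.symm (0, 1)} := by
  obtain ⟨x, hx⟩ := hM
  have hx0 : x ≠ 0 := by
    rintro rfl
    simp at hx
  have hMx0 : M x ≠ 0 := by simpa using hx0
  obtain ⟨φ, hφ1, hφ2, -⟩ := two_fun (F := F) (S := ⊥) (x := x) (y := M x) (by simpa using hx0)
    (by simpa using hMx0)
  obtain ⟨j0, hj1, hj2⟩ := exists_split (U := U) x φ hφ1 hU
  let π : V →ₗ[F] U := LinearMap.fst F U F ∘ₗ (j0 : V →ₗ[F] U × F)
  let σ : U →ₗ[F] V := (j0.symm : U × F →ₗ[F] V) ∘ₗ LinearMap.inl F U F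
  have hπσ : ∀ u, π (σ u) = u := fun u => by simp [π, σ]
  have hφσ : ∀ u, φ (σ u) = 0 := fun u => by rw [← hj2]; simp [σ]
  have hπx : π x = 0 := by simp [π, hj1]
  have hdec : ∀ y, y = σ (π y) + φ y • x := fun y => by
    apply j0.injective
    ext
    · simp [π, σ, hj1]
    · simp [π, σ, hj1, hj2]
  have hker : ∀ y, π y = 0 → ∃ c : F, y = c • x := fun y hy =>
    ⟨φ y, by rw [hdec y, hy]; simp [hφ1]⟩
  have hBinj : Function.Injective (π ∘ₗ (M.symm : V →ₗ[F] V) ∘ₗ σ) := by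
    rw [← LinearMap.ker_eq_bot, LinearMap.ker_eq_bot']
    intro u hu
    obtain ⟨c, hc⟩ := hker (M.symm (σ u)) hu
    have h1 : σ u = c • M x := by rw [← map_smul, ← hc]; simp
    have h2 := hφσ u
    rw [h1, map_smul, smul_eq_mul, mul_eq_zero] at h2
    have h3 : c = 0 := h2.resolve_right hφ2
    rw [← hπσ u, h1, h3]
    simp
  let B : U ≃ₗ[F] U := LinearEquiv.ofInjectiveEndo _ hBinj
  have hB : ∀ u, B u = π (M.symm (σ u)) := fun u => rfl
  have hc0 : π (M.symm x) ≠ 0 := by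
    intro h
    obtain ⟨c, hc⟩ := hker _ h
    have h1 : x = c • M x := by rw [← map_smul, ← hc]; simp
    have hc0 : c ≠ 0 := by
      rintro rfl
      exact hx0 (by simpa using h1)
    apply hx
    refine mem_span_singleton.2 ⟨c⁻¹, ?_⟩
    conv_lhs => rw [h1]
    rw [smul_smul, inv_mul_cancel₀ hc0, one_smul]
  obtain ⟨Q, ⟨h, hh⟩, hQ⟩ := cyc_mul (A := Q0) B rfl hQ0 (v := B.symm (π (M.symm x)))
    (by simpa using hc0)
  have hQ' := hQ.comm ((Q * B : U ≃ₗ[F] U) : U →ₗ[F] U) (Q * B).surjective (fun _ => rfl)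
  have hQ'' : Cyc F (Q * B : U ≃ₗ[F] U) (Q (π (M.symm x))) := by simpa using hQ'
  let S1 : V →ₗ[F] V := σ ∘ₗ (Q : U →ₗ[F] U) ∘ₗ π ∘ₗ (M.symm : V →ₗ[F] V)
  have hS1 : Cyc F S1 x := by
    intro T hT hi
    have := hQ'' (T.comap σ) (hi x hT) (fun u hu => hi _ hu)
    rw [eq_top_iff]
    intro y _
    rw [hdec y]
    refine add_mem ?_ (smul_mem _ _ hT)
    have h1 : π y ∈ T.comap σ := by rw [this]; trivial
    exact h1
  obtain ⟨S, hS, hSS⟩ := pole S1 hS1 hx0 S0 hS0 hW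
  have hπS : ∀ y, π (S (M y)) = Q (π y) := by
    intro y
    obtain ⟨c, hc⟩ := mem_span_singleton.1 (hSS (M y))
    have : S (M y) = S1 (M y) + c • x := by rw [hc]; abel
    rw [this, map_add, map_smul, hπx]
    simp [S1, hπσ]
  have hl : φ (S (M x)) ≠ 0 := by
    intro h0
    have := hdec (S (M x))
    rw [h0, hπS, hπx] at this
    simp at this
    exact hx0 this
  refine ⟨S, j0.trans (h.symm.prodCongr (LinearEquiv.refl F F)),
    φ ∘ₗ (S : V →ₗ[F] V) ∘ₗ (M : V →ₗ[F] V) ∘ₗ σ ∘ₗ (h : U →ₗ[F] U), Units.mk0 _ hl, hS,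
    fun y => ?_, ?_⟩
  · ext
    · have h1 := hπS y
      apply h.injective
      simp only [ext_apply]
      rw [hh]
      simpa [π] using h1
    · have h1 : φ (S (M y)) = φ (S (M (σ (π y)))) + φ y * φ (S (M x)) := by
        conv_lhs => rw [hdec y]
        simp
      simp only [ext_apply]
      simp [hj2]
      rw [h1]
      simp [π]
      ring
  · have : (j0.trans (h.symm.prodCongr (LinearEquiv.refl F F))).symm (0, 1) = x := by
      rw [LinearEquiv.symm_apply_eq]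
      simp [hj1]
    rw [this]
    exact hx

theorem exists_comp [FiniteDimensional F U] (hU : 2 ≤ finrank F U) {δ : F} (hδ : δ ≠ 0) (ν : F) :
    ∃ Q : U ≃ₗ[F] U, (∃ a, Cyc F Q a) ∧ dt Q = δ ∧ ∀ u, Q u = ν • u → u = 0 := by
  set m := finrank F U with hm
  obtain ⟨c, hc⟩ : ∃ c : F, ν ^ m + (c * ν + (-1) ^ m * δ) ≠ 0 := by
    by_cases h : ν = 0
    · refine ⟨0, ?_⟩
      rw [h, zero_pow (by omega)]
      simpa using hδ
    · refine ⟨(1 - ν ^ m - (-1) ^ m * δ) / ν, ?_⟩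
      rw [div_mul_cancel₀ _ h]
      simp
  let q : F[X] := X ^ m + (C c * X + C ((-1) ^ m * δ))
  have hlt : (C c * X + C ((-1) ^ m * δ) : F[X]).degree < (X ^ m : F[X]).degree := by
    refine lt_of_le_of_lt degree_linear_le ?_
    rw [degree_X_pow]
    exact_mod_cast (by omega : 1 < m)
  have hq : q.Monic := (monic_X_pow m).add_of_left hlt
  have hqd : q.natDegree = m := by
    rw [natDegree_add_eq_left_of_degree_lt hlt, natDegree_X_pow]
  have hq0 : q.coeff 0 = (-1) ^ m * δ := by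
    simp only [q, coeff_add, coeff_X_pow, coeff_C_zero, mul_coeff_zero, coeff_X_zero]
    rw [if_neg (by omega)]
    simp
  let pb := AdjoinRoot.powerBasis hq.ne_zero
  have : Module.Finite F (AdjoinRoot q) := pb.finite
  have hfr : finrank F (AdjoinRoot q) = m := by rw [pb.finrank]; exact hqd
  let L : AdjoinRoot q →ₗ[F] AdjoinRoot q := Algebra.lmul F (AdjoinRoot q) (AdjoinRoot.root q)
  have hL : ∀ z, L z = AdjoinRoot.root q * z := fun z => rfl
  have hdet : LinearMap.det L = δ := by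
    have h1 := Algebra.PowerBasis.norm_gen_eq_coeff_zero_minpoly pb
    rw [AdjoinRoot.minpoly_powerBasis_gen_of_monic hq, Algebra.norm_apply, hq0] at h1
    have h2 : pb.dim = m := hqd
    rw [h2, ← mul_assoc, ← mul_pow] at h1
    simp only [mul_neg, mul_one, neg_neg, one_pow, one_mul] at h1
    exact h1
  let L' : AdjoinRoot q ≃ₗ[F] AdjoinRoot q := LinearMap.equivOfDetNeZero L (by rw [hdet]; exact hδ)
  have hL' : ∀ z, L' z = AdjoinRoot.root q * z := fun z => rfl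
  have hdt : dt L' = δ := by
    rw [← hdet]
    rfl
  let e := LinearEquiv.ofFinrankEq (R := F) (AdjoinRoot q) U hfr
  refine ⟨cj e L', (sim_cj e L').cyc ⟨1, ?_⟩, by rw [← (sim_cj e L').dt_eq, hdt], ?_⟩
  · intro S h1 hS
    have hp : ∀ k : ℕ, AdjoinRoot.root q ^ k ∈ S := by
      intro k
      induction k with
      | zero => simpa using h1
      | succ k ih => rw [pow_succ']; exact hS _ ih
    rw [eq_top_iff, ← pb.basis.span_eq, span_le]
    rintro _ ⟨i, rfl⟩
    rw [pb.basis_eq_pow]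
    exact hp _
  · intro u hu
    have h1 : AdjoinRoot.root q * e.symm u = ν • e.symm u := by
      apply e.injective
      rw [← hL']
      simpa using hu
    have hp : ∀ k : ℕ, AdjoinRoot.root q ^ k * e.symm u = ν ^ k • e.symm u := by
      intro k
      induction k with
      | zero => simp
      | succ k ih => rw [pow_succ', mul_assoc, ih, mul_smul_comm, h1, smul_smul, pow_succ]
    have h2 : aeval (AdjoinRoot.root q) q = 0 := by
      rw [AdjoinRoot.aeval_eq, AdjoinRoot.mk_self]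
    have h3 : aeval (AdjoinRoot.root q) q * e.symm u =
        (ν ^ m + (c * ν + (-1) ^ m * δ)) • e.symm u := by
      have : aeval (AdjoinRoot.root q) q = AdjoinRoot.root q ^ m +
          (c • AdjoinRoot.root q + ((-1) ^ m * δ) • 1) := by
        simp only [q, map_add, map_pow, aeval_X, map_mul, aeval_C, Algebra.smul_def, mul_one]
      rw [this, add_mul, add_mul, hp, smul_mul_assoc, h1, smul_mul_assoc, one_mul]
      module
    rw [h2, zero_mul] at h3
    have h4 := (smul_eq_zero.1 h3.symm).resolve_left hc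
    simpa using h4

theorem ext_cyc [FiniteDimensional F U] {Q : U ≃ₗ[F] U} (hQ : ∃ a, Cyc F Q a) (l : Fˣ)
    (hl : ∀ u, Q u = (l : F) • u → u = 0) : ∃ a, Cyc F (ext Q 0 l) a := by
  obtain ⟨a, ha⟩ := hQ
  refine ⟨(a, 1), fun S h1 hS => ?_⟩
  have hinj : Function.Injective ((Q : U →ₗ[F] U) - (l : F) • LinearMap.id : U →ₗ[F] U) := by
    rw [← LinearMap.ker_eq_bot, LinearMap.ker_eq_bot']
    intro u hu
    exact hl u (by simpa [sub_eq_zero] using hu)
  have h2 := ha.comm ((Q : U →ₗ[F] U) - (l : F) • LinearMap.id)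
    (LinearMap.injective_iff_surjective.1 hinj) (fun x => by simp)
  have h3 := h2 (S.comap (LinearMap.inl F U F)) (by
    have := S.sub_mem (hS _ h1) (S.smul_mem (l : F) h1)
    simpa using this) (fun u hu => by simpa using hS _ hu)
  have h4 : ∀ u : U, ((u, 0) : U × F) ∈ S := fun u => by
    have : u ∈ S.comap (LinearMap.inl F U F) := by rw [h3]; trivial
    exact this
  rw [eq_top_iff]
  rintro ⟨u, t⟩ -
  have : ((u, t) : U × F) = (u - t • a, 0) + t • (a, 1) := by simp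
  rw [this]
  exact S.add_mem (h4 _) (S.smul_mem _ h1)

theorem factor_fun (D : V →ₗ[F] W) (θ : V →ₗ[F] F) (h : ∀ x, D x = 0 → θ x = 0) :
    ∃ ψ : W →ₗ[F] F, ∀ x, θ x = ψ (D x) := by
  have : θ ∈ LinearMap.range D.dualMap := by
    rw [LinearMap.range_dualMap_eq_dualAnnihilator_ker, Submodule.mem_dualAnnihilator]
    exact h
  obtain ⟨ψ, hψ⟩ := this
  exact ⟨ψ, fun x => by rw [← hψ]; rfl⟩

theorem ext_sim_zero {Q : U ≃ₗ[F] U} (l : Fˣ) (hl : ∀ u, Q u = (l : F) • u → u = 0)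
    (θ : U →ₗ[F] F) : Sim (ext Q 0 l) (ext Q θ l) := by
  obtain ⟨ψ, hψ⟩ := factor_fun ((Q : U →ₗ[F] U) - (l : F) • LinearMap.id) θ (fun u hu => by
    rw [hl u (by simpa [sub_eq_zero] using hu), map_zero])
  exact ext_sim_shear Q 0 θ ψ l fun u => by simpa using hψ u

/-- some product of `a` conjugates is cyclic -/
def Cy (α : V ≃ₗ[F] V) (a : ℕ) : Prop := ∃ X : V ≃ₗ[F] V, PP α a X ∧ ∃ v, Cyc F X v

theorem Cy.sim {α : V ≃ₗ[F] V} {α' : W ≃ₗ[F] W} {a : ℕ} (h : Cy α a) (hs : Sim α α') :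
    Cy α' a := by
  obtain ⟨X, h1, h2⟩ := h
  obtain ⟨e, he⟩ := hs
  exact ⟨cj e X, (h1.left (Sim.symm ⟨e, he⟩)).sim (sim_cj _ _), (sim_cj _ _).cyc h2⟩

theorem Cy.succ [FiniteDimensional F V] {α : V ≃ₗ[F] V} {a : ℕ} (h : Cy α a)
    (hn : 0 < finrank F V) : Cy α (a + 1) := by
  obtain ⟨X, h1, h2⟩ := h
  obtain ⟨v, hv⟩ := finrank_pos_iff_exists_ne_zero.1 hn
  obtain ⟨X', h3, h4⟩ := cyc_mul α rfl h2 hv
  exact ⟨_, (h1.sim h3).mul (PP.one (Sim.refl α)), v, h4⟩

theorem Cy.mono [FiniteDimensional F V] {α : V ≃ₗ[F] V} {a b : ℕ} (h : Cy α a)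
    (hn : 0 < finrank F V) (hab : a ≤ b) : Cy α b := by
  induction hab with
  | refl => exact h
  | step _ ih => exact ih.succ hn

theorem fin_gen [FiniteDimensional F V] [FiniteDimensional F U] {α β : V ≃ₗ[F] V} {b c : ℕ}
    (hb : Cy α b) {Q : U ≃ₗ[F] U} (hQ : ∃ a, Cyc F Q a) (hU : finrank F U + 1 = finrank F V)
    (l : Fˣ) (hc : ∀ θ, PP α c (ext Q θ l)) (hβ : NS β) (hd : dt β = dt α ^ (b + c)) :
    PP α (b + c) β := by
  obtain ⟨R, h1, v, h2⟩ := hb
  obtain ⟨S, j, θ, l', h3, h4, -⟩ := bn hβ R⁻¹ ⟨v, h2.inv⟩ rfl Q hQ hU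
  have h5 : Sim (S * β) (ext Q θ l') := ⟨j, h4⟩
  have h6 : PP α b S⁻¹ := h1.sim (by simpa using h3.inv)
  have h7 : l' = l := by
    have e1 := h5.dt_eq
    have e2 := (hc 0).dt_eq
    have e3 := h6.dt_eq
    have e4 := dt_inv_mul S
    rw [dt_mul, dt_ext, hd, pow_add, ← e2, ← e3, dt_ext, ← mul_assoc, mul_comm (dt S), e4,
      one_mul] at e1
    exact Units.ext (mul_left_cancel₀ (dt_ne_zero Q) e1).symm
  subst h7
  have := h6.mul ((hc θ).sim h5.symm)
  simpa using this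

theorem bn0 [FiniteDimensional F V] {α : V ≃ₗ[F] V} {a : ℕ} (ha : Cy α a) (hα : NS α)
    (hn : 3 ≤ finrank F V) (l : Fˣ) :
    ∃ (Q : (Fin (finrank F V - 1) → F) ≃ₗ[F] (Fin (finrank F V - 1) → F)) (S : V ≃ₗ[F] V)
      (j : V ≃ₗ[F] ((Fin (finrank F V - 1) → F) × F)) (θ : (Fin (finrank F V - 1) → F) →ₗ[F] F),
      (∃ a, Cyc F Q a) ∧ (∀ u, Q u = (l : F) • u → u = 0) ∧ PP α a S ∧
      (∀ y, j (S (α y)) = ext Q θ l (j y)) ∧ α (j.symm (0, 1)) ∉ span F {j.symm (0, 1)} := by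
  obtain ⟨X, h1, h2⟩ := ha
  obtain ⟨Q, q1, q2, q3⟩ := exists_comp (F := F) (U := Fin (finrank F V - 1) → F) (by simp; omega)
    (δ := dt X * dt α * (l : F)⁻¹)
    (mul_ne_zero (mul_ne_zero (dt_ne_zero _) (dt_ne_zero _)) (inv_ne_zero l.ne_zero)) (l : F)
  obtain ⟨S, j, θ, l', h3, h4, h5⟩ := bn hα X h2 rfl Q q1 (by simp; omega)
  have h6 : Sim (S * α) (ext Q θ l') := ⟨j, h4⟩
  have h7 : l' = l := by
    have e1 := h6.dt_eq
    rw [dt_mul, dt_ext, q2, ← h3.dt_eq, mul_assoc (dt X * dt α)] at e1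
    have e2 : (l : F)⁻¹ * l' = 1 :=
      (mul_right_eq_self₀.1 e1.symm).resolve_right (mul_ne_zero (dt_ne_zero _) (dt_ne_zero _))
    apply Units.ext
    have := l.ne_zero
    field_simp at e2
    exact e2
  subst h7
  exact ⟨Q, S, j, θ, q1, q3, h1.sim h3, h4, h5⟩

theorem fin1 [FiniteDimensional F V] {α β : V ≃ₗ[F] V} {a n : ℕ} (ha : Cy α a) (hα : NS α)
    (hn : 3 ≤ finrank F V) (han : 2 * a + 1 ≤ n) (hβ : NS β) (hd : dt β = dt α ^ n) :
    PP α n β := by
  obtain ⟨Q, S, j, θ, q1, q2, h1, h2, -⟩ := bn0 ha hα hn 1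
  have h3 : Sim (S * α) (ext Q θ 1) := ⟨j, h2⟩
  have h4 : PP α (a + 1) (ext Q 0 1) :=
    ((h1.mul (PP.one (Sim.refl α))).sim h3).sim (ext_sim_zero 1 q2 θ).symm
  have e : n = (n - (a + 1)) + (a + 1) := by omega
  rw [e] at hd ⊢
  exact fin_gen (ha.mono (by omega) (by omega)) q1 (by simp; omega) 1
    (fun θ' => h4.sim (ext_sim_zero 1 q2 θ')) hβ hd

theorem fin2 [FiniteDimensional F V] [FiniteDimensional F U] {α β : V ≃ₗ[F] V} {γ : U ≃ₗ[F] U}
    {l : Fˣ} (hs : Sim α (ext γ 0 l)) {a b : ℕ} (ha : Cy γ a) (hγ : NS γ) (hb : Cy α b)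
    (hn : 3 ≤ finrank F U) (hβ : NS β) (hd : dt β = dt α ^ (b + (a + 1))) :
    PP α (b + (a + 1)) β := by
  obtain ⟨Q, S, j, θ, q1, q2, h1, h2, h3⟩ := bn0 ha hγ hn (l ^ (a + 1))
  have h4 : Sim (S * γ) (ext Q θ (l ^ (a + 1))) := ⟨j, h2⟩
  have h5 := h4.symm.cyc ((ext_sim_zero _ q2 θ).cyc (ext_cyc q1 _ q2))
  refine fin_gen hb h5 (by rw [hs.finrank_eq]; simp) (l ^ (a + 1)) (fun θ' => ?_) hβ hd
  refine PP.left ?_ hs
  set x := j.symm (0, 1) with hx
  have hx1 : γ x - (l : F) • x ≠ 0 := fun h =>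
    h3 (mem_span_singleton.2 ⟨l, (sub_eq_zero.1 h).symm⟩)
  obtain ⟨φ, hφ, -⟩ := exists_fun (F := F) (S := ⊥) (x := γ x - (l : F) • x) (by simpa using hx1)
  let ψ : U →ₗ[F] F := (θ' x * ((l : F) ^ a)⁻¹) • φ
  let θ1 : U →ₗ[F] F := ψ ∘ₗ ((γ : U →ₗ[F] U) - (l : F) • LinearMap.id)
  have h6 : PP (ext γ 0 l) (a + 1) (ext S 0 (l ^ a) * ext γ θ1 l) :=
    (h1.ext0 l).mul (PP.one (ext_sim_shear γ 0 θ1 ψ l fun u => by simp [θ1]))
  have h7 : ext S 0 (l ^ a) * ext γ θ1 l = ext (S * γ) ((l : F) ^ a • θ1) (l ^ (a + 1)) := by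
    ext w
    · simp
    · simp [pow_succ]
      ring
  rw [h7] at h6
  obtain ⟨ψ', hψ'⟩ := factor_fun (((S * γ : U ≃ₗ[F] U) : U →ₗ[F] U) -
      ((l ^ (a + 1) : Fˣ) : F) • LinearMap.id) (θ' - (l : F) ^ a • θ1) (fun u hu => by
    have e1 : S (γ u) = ((l ^ (a + 1) : Fˣ) : F) • u := by simpa [sub_eq_zero] using hu
    have e2 := h2 u
    rw [e1, map_smul] at e2
    have e3 : (j u).1 = 0 := q2 _ (by simpa using (congrArg Prod.fst e2).symm)
    have e4 : u = (j u).2 • x := by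
      apply j.injective
      ext1
      · simp [hx, e3]
      · simp [hx]
    have e5 : φ (γ x) - (l : F) * φ x = 1 := by simpa using hφ
    have e6 : (θ' - (l : F) ^ a • θ1) x = 0 := by
      have := l.ne_zero
      simp [θ1, ψ, e5]
      field_simp
      ring
    rw [e4, map_smul, e6, smul_zero])
  exact h6.sim (ext_sim_shear _ _ θ' ψ' _ fun u => by
    have := hψ' u
    simp only [LinearMap.sub_apply] at this
    rw [sub_eq_iff_eq_add] at this
    rw [this, add_comm]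
    rfl)

end Pool.Agent.Lib.MP_485c8a_al
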