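import Mathlib

namespace Pool.Agent.Lib.MP_485c8a_al
open Module Submodule

variable {F : Type} [Field F]
variable {V : Type} [AddCommGroup V] [Module F V]
variable {W : Type} [AddCommGroup W] [Module F W]
variable {U : Type} [AddCommGroup U] [Module F U]

/-- similarity across spaces -/
def Sim (A : V ≃ₗ[F] V) (B : W ≃ₗ[F] W) : Prop := ∃ e : V ≃ₗ[F] W, ∀ x, e (A x) = B (e x)

theorem Sim.refl (A : V ≃ₗ[F] V) : Sim A A := ⟨LinearEquiv.refl F V, fun _ => rfl⟩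

theorem Sim.symm {A : V ≃ₗ[F] V} {B : W ≃ₗ[F] W} (h : Sim A B) : Sim B A := by
  obtain ⟨e, he⟩ := h
  refine ⟨e.symm, fun x => ?_⟩
  apply e.injective
  simp [he]

theorem Sim.trans {A : V ≃ₗ[F] V} {B : W ≃ₗ[F] W} {C : U ≃ₗ[F] U} (h : Sim A B) (h' : Sim B C) :
    Sim A C := by
  obtain ⟨e, he⟩ := h
  obtain ⟨e', he'⟩ := h'
  exact ⟨e.trans e', fun x => by simp [he, he']⟩

theorem Sim.inv {A : V ≃ₗ[F] V} {B : W ≃ₗ[F] W} (h : Sim A B) : Sim A⁻¹ B⁻¹ := by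
  obtain ⟨e, he⟩ := h
  refine ⟨e, fun x => ?_⟩
  apply B.injective
  rw [← he]
  simp

/-- transport of an automorphism -/
def cj (e : V ≃ₗ[F] W) (A : V ≃ₗ[F] V) : W ≃ₗ[F] W := (e.symm.trans A).trans e

@[simp] theorem cj_apply (e : V ≃ₗ[F] W) (A : V ≃ₗ[F] V) (x : W) :
    cj e A x = e (A (e.symm x)) := rfl

theorem sim_cj (e : V ≃ₗ[F] W) (A : V ≃ₗ[F] V) : Sim A (cj e A) := ⟨e, fun x => by simp⟩

/-- determinant -/
noncomputable def dt (A : V ≃ₗ[F] V) : F := LinearMap.det (A : V →ₗ[F] V)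

theorem dt_mul (A B : V ≃ₗ[F] V) : dt (A * B) = dt A * dt B := by
  unfold dt
  rw [LinearEquiv.coe_toLinearMap_mul, map_mul]

theorem dt_one : dt (1 : V ≃ₗ[F] V) = 1 := by
  unfold dt
  rw [LinearEquiv.coe_toLinearMap_one]
  exact LinearMap.det_id

theorem dt_inv_mul (A : V ≃ₗ[F] V) : dt A⁻¹ * dt A = 1 := by
  rw [← dt_mul, inv_mul_cancel, dt_one]

theorem dt_ne_zero (A : V ≃ₗ[F] V) : dt A ≠ 0 := by
  intro h
  have := dt_inv_mul A
  rw [h, mul_zero] at this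
  exact zero_ne_one this

theorem Sim.dt_eq {A : V ≃ₗ[F] V} {B : W ≃ₗ[F] W} (h : Sim A B) : dt A = dt B := by
  obtain ⟨e, he⟩ := h
  unfold dt
  rw [← LinearMap.det_conj (A : V →ₗ[F] V) e]
  congr 1
  ext x
  simp [he]

theorem Sim.finrank_eq {A : V ≃ₗ[F] V} {B : W ≃ₗ[F] W} (h : Sim A B) :
    finrank F V = finrank F W := by
  obtain ⟨e, -⟩ := h
  exact e.finrank_eq

/-- product of `k` maps similar to `α` -/
inductive PP (α : V ≃ₗ[F] V) : ℕ → (W ≃ₗ[F] W) → Prop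
  | zero : PP α 0 1
  | succ {k : ℕ} {y x : W ≃ₗ[F] W} : Sim α y → PP α k x → PP α (k + 1) (y * x)

theorem PP.one {α : V ≃ₗ[F] V} {y : W ≃ₗ[F] W} (h : Sim α y) : PP α 1 y := by
  simpa using PP.succ h PP.zero

theorem PP.mul {α : V ≃ₗ[F] V} {a b : ℕ} {x y : W ≃ₗ[F] W} (hx : PP α a x) (hy : PP α b y) :
    PP α (a + b) (x * y) := by
  induction hx with
  | zero => simpa using hy
  | @succ k z x hz _ ih =>
    have : k + 1 + b = (k + b) + 1 := by ring
    rw [this, mul_assoc]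
    exact PP.succ hz ih

theorem PP.sim {α : V ≃ₗ[F] V} {a : ℕ} {x : W ≃ₗ[F] W} {y : U ≃ₗ[F] U} (hx : PP α a x)
    (h : Sim x y) : PP α a y := by
  obtain ⟨e, he⟩ := h
  have hy : y = cj e x := by
    ext z
    simp [he]
  subst hy
  clear he
  induction hx with
  | zero =>
    have : cj e (1 : W ≃ₗ[F] W) = 1 := by ext z; simp
    rw [this]
    exact PP.zero
  | @succ k z x hz _ ih =>
    have : cj e (z * x) = cj e z * cj e x := by ext w; simp
    rw [this]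
    exact PP.succ (hz.trans (sim_cj e z)) ih

theorem PP.left {α : V ≃ₗ[F] V} {α' : U ≃ₗ[F] U} {a : ℕ} {x : W ≃ₗ[F] W} (hx : PP α a x)
    (h : Sim α' α) : PP α' a x := by
  induction hx with
  | zero => exact PP.zero
  | succ hz _ ih => exact PP.succ (h.trans hz) ih

theorem PP.dt_eq {α : V ≃ₗ[F] V} {a : ℕ} {x : W ≃ₗ[F] W} (hx : PP α a x) :
    dt x = dt α ^ a := by
  induction hx with
  | zero => simp [dt_one]
  | succ hz _ ih => rw [dt_mul, ih, ← hz.dt_eq, pow_succ, mul_comm]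

theorem PP.eq_one {α : V ≃ₗ[F] V} {x : W ≃ₗ[F] W} (hx : PP α 0 x) : x = 1 := by
  cases hx
  rfl

theorem PP.cases_succ {α : V ≃ₗ[F] V} {k : ℕ} {x : W ≃ₗ[F] W} (hx : PP α (k + 1) x) :
    ∃ y z, Sim α y ∧ PP α k z ∧ x = y * z := by
  cases hx with
  | succ h1 h2 => exact ⟨_, _, h1, h2, rfl⟩

/-- scalar automorphism -/
def sc (V : Type) [AddCommGroup V] [Module F V] (c : Fˣ) : V ≃ₗ[F] V := LinearEquiv.smulOfUnit c

@[simp] theorem sc_apply (c : Fˣ) (x : V) : sc V c x = (c : F) • x := rfl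

theorem PP.smul {α : V ≃ₗ[F] V} {a : ℕ} {x : W ≃ₗ[F] W} (hx : PP α a x) (c : Fˣ) :
    PP (sc V c * α) a (sc W (c ^ a) * x) := by
  induction hx with
  | zero =>
    have : sc W (c ^ 0) * 1 = 1 := by ext z; simp
    rw [this]
    exact PP.zero
  | @succ k z x hz _ ih =>
    have : sc W (c ^ (k + 1)) * (z * x) = (sc W c * z) * (sc W (c ^ k) * x) := by
      ext w
      simp [smul_smul, pow_succ, mul_comm]
    rw [this]
    refine PP.succ ?_ ih
    obtain ⟨e, he⟩ := hz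
    exact ⟨e, fun w => by simp [he]⟩

theorem dt_sc [FiniteDimensional F V] (c : Fˣ) : dt (sc V c) = (c : F) ^ finrank F V := by
  unfold dt
  have : ((sc V c : V ≃ₗ[F] V) : V →ₗ[F] V) = (c : F) • LinearMap.id := by
    ext x
    simp
  rw [this, LinearMap.det_smul]
  simp

theorem PP.prod {V' W' : Type} [AddCommGroup V'] [Module F V'] [AddCommGroup W'] [Module F W']
    {α : V ≃ₗ[F] V} {β : V' ≃ₗ[F] V'} {a : ℕ} {x : W ≃ₗ[F] W} {y : W' ≃ₗ[F] W'}
    (hx : PP α a x) (hy : PP β a y) : PP (α.prodCongr β) a (x.prodCongr y) := by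
  induction hx generalizing y with
  | zero =>
    rw [hy.eq_one]
    have : (1 : W ≃ₗ[F] W).prodCongr (1 : W' ≃ₗ[F] W') = 1 := by ext z <;> simp
    rw [this]
    exact PP.zero
  | @succ k z x hz _ ih =>
    obtain ⟨y1, y2, h1, h2, rfl⟩ := hy.cases_succ
    have : (z * x).prodCongr (y1 * y2) = z.prodCongr y1 * x.prodCongr y2 := by ext z <;> simp
    rw [this]
    refine PP.succ ?_ (ih h2)
    obtain ⟨e, he⟩ := hz
    obtain ⟨e', he'⟩ := h1
    exact ⟨e.prodCongr e', fun w => by simp [he, he']⟩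

theorem PP.pow (α : V ≃ₗ[F] V) (a : ℕ) : PP α a (α ^ a) := by
  induction a with
  | zero => simpa using PP.zero
  | succ k ih =>
    rw [pow_succ']
    exact PP.succ (Sim.refl α) ih

/-- extension of `Q` by an eigenvector -/
def ext (Q : U ≃ₗ[F] U) (θ : U →ₗ[F] F) (l : Fˣ) : (U × F) ≃ₗ[F] (U × F) :=
  Q.skewProd (sc F l) θ

@[simp] theorem ext_apply (Q : U ≃ₗ[F] U) (θ : U →ₗ[F] F) (l : Fˣ) (x : U × F) :
    ext Q θ l x = (Q x.1, (l : F) * x.2 + θ x.1) := rfl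

theorem dt_ext [FiniteDimensional F U] (Q : U ≃ₗ[F] U) (θ : U →ₗ[F] F) (l : Fˣ) :
    dt (ext Q θ l) = dt Q * l := by
  have h : ((ext Q θ l : (U × F) ≃ₗ[F] (U × F)) : (U × F) →ₗ[F] (U × F)) =
      LinearMap.transvection (θ ∘ₗ (Q.symm : U →ₗ[F] U) ∘ₗ LinearMap.fst F U F) ((0 : U), (1 : F)) ∘ₗ
        LinearMap.prodMap (Q : U →ₗ[F] U) ((sc F l : F ≃ₗ[F] F) : F →ₗ[F] F) := by
    apply LinearMap.ext
    intro x
    simp [LinearMap.transvection.apply]
  unfold dt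
  rw [h, LinearMap.det_comp, LinearMap.transvection.det, LinearMap.det_prodMap]
  have := dt_sc (V := F) l
  unfold dt at this
  rw [this]
  simp

theorem ext_sim_shear (Q : U ≃ₗ[F] U) (θ θ' ψ : U →ₗ[F] F) (l : Fˣ)
    (h : ∀ u, θ' u = θ u + ψ (Q u - (l : F) • u)) : Sim (ext Q θ l) (ext Q θ' l) := by
  refine ⟨ext 1 ψ 1, fun x => ?_⟩
  simp [h]
  ring

theorem ext_sim (Q : U ≃ₗ[F] U) (Q' : W ≃ₗ[F] W) (l : Fˣ) (h : Sim Q Q') :
    Sim (ext Q 0 l) (ext Q' 0 l) := by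
  obtain ⟨e, he⟩ := h
  exact ⟨e.prodCongr (LinearEquiv.refl F F), fun x => by simp [he]⟩

theorem PP.ext0 {α : V ≃ₗ[F] V} {a : ℕ} {x : W ≃ₗ[F] W} (hx : PP α a x) (l : Fˣ) :
    PP (ext α 0 l) a (ext x 0 (l ^ a)) := by
  induction hx with
  | zero =>
    have : ext (1 : W ≃ₗ[F] W) 0 (l ^ 0) = 1 := by ext z <;> simp
    rw [this]
    exact PP.zero
  | @succ k z x hz _ ih =>
    have : ext (z * x) 0 (l ^ (k + 1)) = ext z 0 l * ext x 0 (l ^ k) := by
      ext w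
      · simp
      · simp [pow_succ]
        ring
    rw [this]
    exact PP.succ (ext_sim _ _ l hz) ih

/-- cyclic vector -/
def Cyc (F : Type) [Field F] {V : Type} [AddCommGroup V] [Module F V] (A : V → V) (v : V) : Prop :=
  ∀ S : Submodule F V, v ∈ S → (∀ x ∈ S, A x ∈ S) → S = ⊤

theorem Cyc.map {A : V → V} {B : W → W} {v : V} (h : Cyc F A v) (π : V →ₗ[F] W)
    (hπ : Function.Surjective π) (hc : ∀ x, π (A x) = B (π x)) : Cyc F B (π v) := by
  intro S hv hS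
  have := h (S.comap π) hv (fun x hx => by
    simp only [mem_comap] at hx ⊢
    rw [hc]
    exact hS _ hx)
  rw [eq_top_iff]
  intro y _
  obtain ⟨x, rfl⟩ := hπ y
  have hx : x ∈ S.comap π := by rw [this]; trivial
  exact hx

theorem inv_mem_of_inv [FiniteDimensional F V] (A : V ≃ₗ[F] V) (S : Submodule F V)
    (hS : ∀ x ∈ S, A x ∈ S) : ∀ x ∈ S, A.symm x ∈ S := by
  have h1 : S.map (A : V →ₗ[F] V) ≤ S := by
    rintro _ ⟨x, hx, rfl⟩
    exact hS x hx
  have h2 : S.map (A : V →ₗ[F] V) = S :=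
    Submodule.eq_of_le_of_finrank_eq h1 (LinearEquiv.finrank_map_eq A S)
  intro x hx
  rw [← h2] at hx
  obtain ⟨y, hy, rfl⟩ := hx
  simpa using hy

theorem Cyc.inv [FiniteDimensional F V] {A : V ≃ₗ[F] V} {v : V} (h : Cyc F A v) :
    Cyc F (A⁻¹ : V ≃ₗ[F] V) v := by
  intro S hv hS
  exact h S hv (inv_mem_of_inv A⁻¹ S hS)

theorem Sim.cyc {A : V ≃ₗ[F] V} {B : W ≃ₗ[F] W} (h : Sim A B) (hc : ∃ v, Cyc F A v) :
    ∃ w, Cyc F B w := by
  obtain ⟨e, he⟩ := h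
  obtain ⟨v, hv⟩ := hc
  exact ⟨e v, hv.map (e : V →ₗ[F] W) e.surjective he⟩

/-- span of an initial segment -/
def Sp (F : Type) [Field F] {V : Type} [AddCommGroup V] [Module F V] (e : ℕ → V) (i : ℕ) :
    Submodule F V := span F (e '' Set.Iio i)

theorem Sp_zero (e : ℕ → V) : Sp F e 0 = ⊥ := by
  simp [Sp]

theorem Sp_succ (e : ℕ → V) (i : ℕ) : Sp F e (i + 1) = Sp F e i ⊔ span F {e i} := by
  unfold Sp
  rw [← span_union, ← Set.image_singleton, ← Set.image_union]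
  congr 2
  ext j
  simp only [Set.mem_Iio, Set.mem_union, Set.mem_singleton_iff]
  omega

theorem mem_Sp (e : ℕ → V) {i j : ℕ} (h : j < i) : e j ∈ Sp F e i :=
  subset_span ⟨j, h, rfl⟩

theorem Sp_le {e : ℕ → V} {i : ℕ} {S : Submodule F V} (h : ∀ j < i, e j ∈ S) : Sp F e i ≤ S := by
  unfold Sp
  rw [span_le]
  rintro _ ⟨j, hj, rfl⟩
  exact h j hj

theorem Sp_mono (e : ℕ → V) {i j : ℕ} (h : i ≤ j) : Sp F e i ≤ Sp F e j :=
  Sp_le fun _ hk => mem_Sp e (lt_of_lt_of_le hk h)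

theorem Sp_congr {e e' : ℕ → V} {i : ℕ} (h : ∀ j < i, e j = e' j) : Sp F e i = Sp F e' i := by
  apply le_antisymm
  · exact Sp_le fun j hj => by rw [h j hj]; exact mem_Sp e' hj
  · exact Sp_le fun j hj => by rw [← h j hj]; exact mem_Sp e hj

theorem map_mem_Sp {e : ℕ → V} {i : ℕ} (g : V →ₗ[F] W) {S : Submodule F W}
    (h : ∀ j < i, g (e j) ∈ S) {x : V} (hx : x ∈ Sp F e i) : g x ∈ S :=
  (Sp_le (S := S.comap g) h) hx

theorem mem_sup_span {S : Submodule F V} {x y : V} :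
    x ∈ S ⊔ span F {y} ↔ ∃ c : F, x - c • y ∈ S := by
  constructor
  · intro h
    obtain ⟨s, hs, t, ht, rfl⟩ := mem_sup.1 h
    obtain ⟨c, rfl⟩ := mem_span_singleton.1 ht
    exact ⟨c, by simpa using hs⟩
  · rintro ⟨c, hc⟩
    exact mem_sup.2 ⟨_, hc, c • y, smul_mem _ _ (mem_span_singleton_self y), by simp⟩

theorem finrank_sup_span_le [FiniteDimensional F V] (S : Submodule F V) (y : V) :
    finrank F (S ⊔ span F {y} : Submodule F V) ≤ finrank F S + 1 := by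
  have h1 := Submodule.finrank_sup_add_finrank_inf_eq S (span F {y})
  have h2 : finrank F (span F {y} : Submodule F V) ≤ 1 := by
    simpa using finrank_span_le_card (R := F) ({y} : Set V)
  omega

theorem finrank_Sp_le [FiniteDimensional F V] (e : ℕ → V) (i : ℕ) : finrank F (Sp F e i) ≤ i := by
  induction i with
  | zero => rw [Sp_zero]; simp
  | succ k ih =>
    rw [Sp_succ]
    have := finrank_sup_span_le (Sp F e k) (e k)
    omega

theorem le_finrank_Sp [FiniteDimensional F V] (e : ℕ → V) (i : ℕ)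
    (h : ∀ j < i, e j ∉ Sp F e j) : i ≤ finrank F (Sp F e i) := by
  induction i with
  | zero => simp
  | succ k ih =>
    have h1 := ih fun j hj => h j (by omega)
    have h2 : Sp F e k < Sp F e (k + 1) := by
      refine lt_of_le_of_ne (Sp_mono e (by omega)) fun heq => h k (by omega) ?_
      rw [heq]
      exact mem_Sp e (by omega)
    have := Submodule.finrank_lt_finrank_of_lt h2
    omega

theorem Sp_eq_top [FiniteDimensional F V] (e : ℕ → V) {n : ℕ} (hn : finrank F V = n)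
    (h : ∀ j < n, e j ∉ Sp F e j) : Sp F e n = ⊤ := by
  apply Submodule.eq_top_of_finrank_eq
  have h1 := le_finrank_Sp e n h
  have h2 := Submodule.finrank_le (Sp F e n)
  omega

theorem exists_notMem_of_lt [FiniteDimensional F V] (S : Submodule F V)
    (h : finrank F S < finrank F V) : ∃ x, x ∉ S := by
  by_contra hc
  push Not at hc
  have : S = ⊤ := eq_top_iff.2 fun x _ => hc x
  rw [this, finrank_top] at h
  omega

theorem exists_equiv {n : ℕ} (e : ℕ → V) (e' : ℕ → W) (hV : finrank F V = n) (hW : finrank F W = n)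
    (h : Sp F e n = ⊤) (h' : Sp F e' n = ⊤) : ∃ g : V ≃ₗ[F] W, ∀ i < n, g (e i) = e' i := by
  have r1 : ⊤ ≤ span F (Set.range fun i : Fin n => e i) := by
    rw [← h]
    exact Sp_le fun j hj => subset_span ⟨⟨j, hj⟩, rfl⟩
  have r2 : ⊤ ≤ span F (Set.range fun i : Fin n => e' i) := by
    rw [← h']
    exact Sp_le fun j hj => subset_span ⟨⟨j, hj⟩, rfl⟩
  let b := basisOfTopLeSpanOfCardEqFinrank (fun i : Fin n => e i) r1 (by simp [hV])
  let b' := basisOfTopLeSpanOfCardEqFinrank (fun i : Fin n => e' i) r2 (by simp [hW])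
  refine ⟨b.equiv b' (Equiv.refl _), fun i hi => ?_⟩
  have := Basis.equiv_apply b ⟨i, hi⟩ b' (Equiv.refl _)
  simpa [b, b'] using this

theorem exists_fun {S : Submodule F V} {x : V} (h : x ∉ S) :
    ∃ φ : V →ₗ[F] F, φ x = 1 ∧ ∀ s ∈ S, φ s = 0 := by
  obtain ⟨f, hf, hS⟩ := Submodule.exists_le_ker_of_notMem h
  refine ⟨(f x)⁻¹ • f, by simp [hf], fun s hs => ?_⟩
  have : f s = 0 := hS hs
  simp [this]

theorem two_fun {S : Submodule F V} {x y : V} (hx : x ∉ S) (hy : y ∉ S) :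
    ∃ φ : V →ₗ[F] F, φ x = 1 ∧ φ y ≠ 0 ∧ ∀ s ∈ S, φ s = 0 := by
  obtain ⟨f, hf, hfS⟩ := exists_fun hx
  obtain ⟨g, hg, hgS⟩ := exists_fun hy
  by_cases h1 : f y = 0
  · by_cases h2 : g x = 0
    · exact ⟨f + g, by simp [hf, h2], by simp [h1, hg], fun s hs => by simp [hfS s hs, hgS s hs]⟩
    · exact ⟨(g x)⁻¹ • g, by simp [h2], by simp [h2, hg], fun s hs => by simp [hgS s hs]⟩
  · exact ⟨f, hf, h1, hfS⟩

theorem two_vec {φ ψ : V →ₗ[F] F} (h1 : φ ≠ 0) (h2 : ψ ≠ 0) : ∃ w, φ w = 1 ∧ ψ w ≠ 0 := by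
  obtain ⟨x, hx⟩ : ∃ x, φ x ≠ 0 := by
    by_contra hc
    push Not at hc
    exact h1 (LinearMap.ext hc)
  obtain ⟨y, hy⟩ : ∃ x, ψ x ≠ 0 := by
    by_contra hc
    push Not at hc
    exact h2 (LinearMap.ext hc)
  by_cases h3 : ψ x = 0
  · by_cases h4 : φ y = 0
    · exact ⟨(φ x)⁻¹ • x + y, by simp [hx, h4], by simp [h3, hy]⟩
    · exact ⟨(φ y)⁻¹ • y, by simp [h4], by simp [h4, hy]⟩
  · exact ⟨(φ x)⁻¹ • x, by simp [hx], by simp [hx, h3]⟩

theorem scalar_mod (H S : Submodule F V) (A : V →ₗ[F] V)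
    (h : ∀ x ∈ H, ∃ c : F, A x - c • x ∈ S) : ∃ c : F, ∀ x ∈ H, A x - c • x ∈ S := by
  have hS : ∀ s ∈ H, s ∈ S → ∀ c : F, A s - c • s ∈ S := by
    intro s hs hsS c
    obtain ⟨d, hd⟩ := h s hs
    have : A s - c • s = (A s - d • s) + (d - c) • s := by module
    rw [this]
    exact S.add_mem hd (S.smul_mem _ hsS)
  by_cases h0 : H ≤ S
  · exact ⟨0, fun x hx => hS x hx (h0 hx) 0⟩
  obtain ⟨x0, hx0, hx0S⟩ := SetLike.not_le_iff_exists.1 h0
  obtain ⟨c, hc⟩ := h x0 hx0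
  refine ⟨c, fun y hy => ?_⟩
  obtain ⟨c', hc'⟩ := h y hy
  obtain ⟨d, hd⟩ := h (x0 + y) (H.add_mem hx0 hy)
  have key : (c - d) • x0 + (c' - d) • y ∈ S := by
    have : (c - d) • x0 + (c' - d) • y =
        (A (x0 + y) - d • (x0 + y)) - (A x0 - c • x0) - (A y - c' • y) := by
      rw [map_add]
      module
    rw [this]
    exact S.sub_mem (S.sub_mem hd hc) hc'
  by_cases h1 : c' = d
  · have h2 : c = d := by
      by_contra h2
      rw [h1, sub_self, zero_smul, add_zero] at key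
      exact hx0S ((S.smul_mem_iff (sub_ne_zero.2 h2)).1 key)
    rw [h2, ← h1]
    exact hc'
  · have h1' : c' - d ≠ 0 := sub_ne_zero.2 h1
    set t : F := (c - d) / (c' - d) with ht
    have hs : y + t • x0 ∈ S := by
      have : y + t • x0 = (c' - d)⁻¹ • ((c - d) • x0 + (c' - d) • y) := by
        rw [smul_add, smul_smul, smul_smul, inv_mul_cancel₀ h1', one_smul, ht, div_eq_inv_mul,
          add_comm]
      rw [this]
      exact S.smul_mem _ key
    have h3 := hS _ (H.add_mem hy (H.smul_mem t hx0)) hs c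
    have : A y - c • y = (A (y + t • x0) - c • (y + t • x0)) - t • (A x0 - c • x0) := by
      rw [map_add, map_smul]
      module
    rw [this]
    exact S.sub_mem h3 (S.smul_mem _ hc)

/-- not scalar -/
def NS (A : V ≃ₗ[F] V) : Prop := ∃ x, A x ∉ span F {x}

/-- `A - c` never has rank at most one -/
def R2 (A : V ≃ₗ[F] V) : Prop := ∀ (c : F) (u : V), ∃ x, A x - c • x ∉ span F {u}

theorem NS.of_not_scalar {A : V ≃ₗ[F] V} (h : ∀ c : F, ∃ x, A x ≠ c • x) : NS A := by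
  by_contra hc
  unfold NS at hc
  push Not at hc
  obtain ⟨c, hc⟩ := scalar_mod ⊤ ⊥ (A : V →ₗ[F] V) (fun x _ => by
    obtain ⟨c, hc⟩ := mem_span_singleton.1 (hc x)
    exact ⟨c, by simp [hc]⟩)
  obtain ⟨x, hx⟩ := h c
  exact hx (by simpa [sub_eq_zero] using hc x trivial)

theorem NS.not_scalar {A : V ≃ₗ[F] V} (h : NS A) (c : F) : ∃ x, A x ≠ c • x := by
  obtain ⟨x, hx⟩ := h
  exact ⟨x, fun hc => hx (mem_span_singleton.2 ⟨c, hc.symm⟩)⟩

theorem R2.ns {A : V ≃ₗ[F] V} (h : R2 A) : NS A :=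
  NS.of_not_scalar fun c => by
    obtain ⟨x, hx⟩ := h c 0
    exact ⟨x, fun hc => hx (by simp [hc])⟩

theorem Sim.ns {A : V ≃ₗ[F] V} {B : W ≃ₗ[F] W} (h : Sim A B) (hA : NS A) : NS B := by
  obtain ⟨e, he⟩ := h
  refine NS.of_not_scalar fun c => ?_
  obtain ⟨x, hx⟩ := hA.not_scalar c
  refine ⟨e x, fun hc => hx (e.injective ?_)⟩
  rw [he, hc, map_smul]

theorem Sim.r2 {A : V ≃ₗ[F] V} {B : W ≃ₗ[F] W} (h : Sim A B) (hA : R2 A) : R2 B := by
  obtain ⟨e, he⟩ := h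
  intro c u
  obtain ⟨x, hx⟩ := hA c (e.symm u)
  refine ⟨e x, fun hc => hx ?_⟩
  obtain ⟨d, hd⟩ := mem_span_singleton.1 hc
  refine mem_span_singleton.2 ⟨d, e.injective ?_⟩
  simp [hd, he]

theorem NS.inv {A : V ≃ₗ[F] V} (h : NS A) : NS A⁻¹ := by
  refine NS.of_not_scalar fun c => ?_
  by_contra hc
  push Not at hc
  by_cases h0 : c = 0
  · obtain ⟨x, hx⟩ := h.not_scalar 0
    have := hc x
    rw [h0, zero_smul] at this
    have hx0 : x = 0 := by simpa using this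
    exact hx (by simp [hx0])
  · obtain ⟨x, hx⟩ := h.not_scalar c⁻¹
    apply hx
    have := hc (A x)
    have h1 : A⁻¹ (A x) = x := by simp
    rw [h1] at this
    rw [this, smul_smul, inv_mul_cancel₀ h0, one_smul, ← this]

end Pool.Agent.Lib.MP_485c8a_al
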