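import Pool.Agent.Lib.MP_485c8a_al.BN

namespace Pool.Agent.Lib.MP_485c8a_al
open Module Submodule Polynomial

variable {F : Type} [Field F]
variable {V : Type} [AddCommGroup V] [Module F V]
variable {W : Type} [AddCommGroup W] [Module F W]
variable {U : Type} [AddCommGroup U] [Module F U]

/-- `A - c` -/
def ec (A : V ≃ₗ[F] V) (c : F) : V →ₗ[F] V := (A : V →ₗ[F] V) - c • LinearMap.id

@[simp] theorem ec_apply (A : V ≃ₗ[F] V) (c : F) (x : V) : ec A c x = A x - c • x := rfl

/-- consequences of being a maximal vector -/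
def Good (A : V ≃ₗ[F] V) (v : V) : Prop :=
  (∀ c : F, (∃ x, x ≠ 0 ∧ A x = c • x) → ∀ w, A w - c • w ≠ v) ∧
  (∀ c : F, A v = c • v → ∀ x, A x = c • x) ∧
  (∀ s d : F, A (A v) = s • A v + d • v → ∀ x, A (A x) = s • A x + d • x)

theorem exists_max [FiniteDimensional F V] (A : V →ₗ[F] V) :
    ∃ v : V, ∀ p : F[X], aeval A p v = 0 → aeval A p = 0 := by
  obtain ⟨x, hx⟩ := Module.exists_ker_toSpanSingleton_eq_annihilator (R := F[X])
    (M := Module.AEval' A)
  refine ⟨(Module.AEval'.of A).symm x, fun p hp => ?_⟩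
  have h1 : p ∈ LinearMap.ker (LinearMap.toSpanSingleton F[X] _ x) := by
    rw [LinearMap.mem_ker, LinearMap.toSpanSingleton_apply]
    apply (Module.AEval'.of A).symm.injective
    rw [map_zero]
    exact hp
  rw [hx, Module.AEval.annihilator_eq_ker_aeval] at h1
  exact h1

theorem exists_good [FiniteDimensional F V] (A : V ≃ₗ[F] V) : ∃ v, Good A v := by
  obtain ⟨v, hv⟩ := exists_max (A : V →ₗ[F] V)
  refine ⟨v, ?_, ?_, ?_⟩
  · rintro c ⟨x, hx, hAx⟩ w hw
    have h1 : Module.End.HasEigenvalue (A : V →ₗ[F] V) c :=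
      Module.End.hasEigenvalue_of_hasEigenvector
        ⟨Module.End.mem_eigenspace_iff.2 hAx, hx⟩
    have h2 := Module.End.isRoot_of_hasEigenvalue h1
    obtain ⟨q, hq⟩ := dvd_iff_isRoot.2 h2
    have h3 : minpoly F (A : V →ₗ[F] V) ≠ 0 := minpoly.ne_zero (LinearMap.isIntegral _)
    have hq0 : q ≠ 0 := by
      rintro rfl
      exact h3 (by simpa using hq)
    have h4 : aeval (A : V →ₗ[F] V) q v = 0 := by
      have h5 := minpoly.aeval F (A : V →ₗ[F] V)
      rw [hq, mul_comm] at h5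
      have h6 := congrArg (fun f : V →ₗ[F] V => f w) h5
      simp only [map_mul, map_sub, aeval_X, aeval_C, Module.End.mul_apply, LinearMap.sub_apply,
        Module.algebraMap_end_apply, LinearEquiv.coe_coe, LinearMap.zero_apply] at h6
      rwa [← map_sub, hw] at h6
    have h7 := minpoly.degree_le_of_ne_zero F (A : V →ₗ[F] V) hq0 (hv q h4)
    rw [hq, degree_mul, degree_X_sub_C, degree_eq_natDegree hq0] at h7
    have : (1 + q.natDegree : ℕ) ≤ q.natDegree := by exact_mod_cast h7
    omega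
  · intro c hc x
    have h1 := hv (X - C c) (by simp [hc, Module.algebraMap_end_apply])
    have h2 := congrArg (fun f : V →ₗ[F] V => f x) h1
    simpa [sub_eq_zero, Module.algebraMap_end_apply] using h2
  · intro s d hc x
    have h1 := hv (X * X - (C s * X + C d)) (by simp [hc, Module.algebraMap_end_apply])
    have h2 := congrArg (fun f : V →ₗ[F] V => f x) h1
    simpa [sub_eq_zero, Module.algebraMap_end_apply] using h2

theorem Good.ns {A : V ≃ₗ[F] V} {v : V} (h : Good A v) (hA : NS A) : A v ∉ span F {v} := by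
  intro hv
  obtain ⟨c, hc⟩ := mem_span_singleton.1 hv
  obtain ⟨x, hx⟩ := hA.not_scalar c
  exact hx (h.2.1 c hc.symm x)

theorem eig_of_range [FiniteDimensional F V] (A : V ≃ₗ[F] V) (c : F) {S : Submodule F V}
    (hS : finrank F S < finrank F V) (h : ∀ x, A x - c • x ∈ S) : ∃ x, x ≠ 0 ∧ A x = c • x := by
  by_contra hc
  push Not at hc
  have h1 : Function.Injective (ec A c) := by
    rw [← LinearMap.ker_eq_bot, LinearMap.ker_eq_bot']
    intro x hx
    by_contra hx0
    exact hc x hx0 (by simpa [sub_eq_zero] using hx)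
  obtain ⟨y, hy⟩ := exists_notMem_of_lt S hS
  obtain ⟨x, rfl⟩ := LinearMap.injective_iff_surjective.1 h1 y
  exact hy (h x)

theorem Good.range_lt [FiniteDimensional F V] {A : V ≃ₗ[F] V} {v : V} (hg : Good A v) (c : F)
    {S : Submodule F V} (hv : v ∈ S)
    (hS : finrank F S < finrank F V) (h : ∀ x, A x - c • x ∈ S) :
    finrank F (LinearMap.range (ec A c)) < finrank F S := by
  apply Submodule.finrank_lt_finrank_of_lt
  refine lt_of_le_of_ne (by rintro _ ⟨x, rfl⟩; exact h x) fun heq => ?_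
  rw [← heq] at hv
  obtain ⟨w, hw⟩ := hv
  exact hg.1 c (eig_of_range A c hS h) w hw

theorem R2.rank [FiniteDimensional F V] {A : V ≃ₗ[F] V} (h : R2 A) (c : F) :
    2 ≤ finrank F (LinearMap.range (ec A c)) := by
  by_contra hc
  obtain ⟨u, hu⟩ := (finrank_le_one_iff (K := F) (V := LinearMap.range (ec A c))).1 (by omega)
  obtain ⟨x, hx⟩ := h c u
  obtain ⟨d, hd⟩ := hu ⟨_, x, rfl⟩
  exact hx (mem_span_singleton.2 ⟨d, by simpa using congrArg Subtype.val hd⟩)

theorem R2.of_rank [FiniteDimensional F V] {A : V ≃ₗ[F] V}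
    (h : ∀ c, 2 ≤ finrank F (LinearMap.range (ec A c))) : R2 A := by
  intro c u
  by_contra hc
  push Not at hc
  have h1 : LinearMap.range (ec A c) ≤ span F {u} := by
    rintro _ ⟨x, rfl⟩
    exact hc x
  have h2 := Submodule.finrank_mono h1
  have h3 : finrank F (span F {u} : Submodule F V) ≤ 1 := by
    simpa using finrank_span_le_card (R := F) ({u} : Set V)
  have := h c
  omega

theorem Pat.len [FiniteDimensional F V] {B : V ≃ₗ[F] V} {k : ℕ} {b : ℕ → V} {c : ℕ → ℕ}
    (h : Pat B k b c) : k + 1 ≤ finrank F V :=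
  (le_finrank_Sp b (k + 1) fun j hj => h.1 j (by omega)).trans (Submodule.finrank_le _)

theorem Pat.allT {B : V ≃ₗ[F] V} {k : ℕ} {b : ℕ → V} {c : ℕ → ℕ}
    (h : Pat B k b c) (hc : k ≤ c k) : ∀ j < k, b (j + 1) = B (b j) := by
  intro j hj
  rcases h.2.2 j hj with h1 | h1
  · exact h1.2
  · have h2 := h.count 0 j (by omega)
    have h3 := h.count (j + 1) (k - (j + 1)) (by omega)
    have h4 : j + 1 + (k - (j + 1)) = k := by omega
    have h5 := h.2.1
    rw [h4] at h3
    rw [zero_add] at h2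
    omega

theorem Pat.cyc [FiniteDimensional F V] {B : V ≃ₗ[F] V} {k : ℕ} {b : ℕ → V} {c : ℕ → ℕ}
    (h : Pat B k b c) (hc : k ≤ c k) (hn : finrank F V = k + 1) : Cyc F B (b 0) := by
  intro S h0 hS
  rw [eq_top_iff, ← Sp_eq_top b hn fun j hj => h.1 j (by omega)]
  refine Sp_le fun j hj => ?_
  induction j with
  | zero => exact h0
  | succ j ih =>
    rw [h.allT hc j (by omega)]
    exact hS _ (ih (by omega))

theorem pat_one {B : V ≃ₗ[F] V} {v : V} (hv : B v ∉ span F {v}) :
    ∃ b c, Pat B 1 b c ∧ b 0 = v ∧ b 1 = B v ∧ c 1 = 1 := by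
  have hv0 : v ≠ 0 := by
    rintro rfl
    simp at hv
  obtain ⟨b, c, h1, h2, h3, h4⟩ := (Pat.start B hv0).step (B v)
    (by simpa [Sp_succ, Sp_zero] using hv) 1 (Or.inl ⟨rfl, rfl⟩)
  exact ⟨b, c, h1, h2 0 le_rfl, h3, h4⟩

theorem pat_two [FiniteDimensional F V] {B : V ≃ₗ[F] V} (hB : R2 B) (hn : 3 ≤ finrank F V) :
    ∃ k b c, Pat B k b c ∧ 2 ≤ c k := by
  obtain ⟨v, hv⟩ := exists_good B
  obtain ⟨b, c, h1, h2, h3, h4⟩ := pat_one (hv.ns hB.ns)
  by_cases hT : B (b 1) ∈ Sp F b 2
  · by_cases hu : ∀ x, ∃ c : F, B x - c • x ∈ Sp F b 2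
    · obtain ⟨d, hd⟩ := scalar_mod ⊤ (Sp F b 2) (B : V →ₗ[F] V) fun x _ => hu x
      have h5 := finrank_Sp_le (F := F) b 2
      have h6 := hv.range_lt d (h2 ▸ mem_Sp b (by omega)) (by omega) fun x => hd x trivial
      have h7 := hB.rank d
      omega
    · push Not at hu
      obtain ⟨u, hu⟩ := hu
      have hu0 : u ∉ Sp F b 2 := fun h => hu 0 (by simpa using h1.inv' hT u h)
      obtain ⟨b2, c2, p1, p2, p3, p4⟩ := h1.step u hu0 _ (Or.inr ⟨rfl, hT⟩)
      have e : Sp F b2 3 = Sp F b 2 ⊔ span F {u} := by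
        rw [Sp_succ, p3, Sp_congr (e := b2) (e' := b) fun j hj => p2 j (by omega)]
      obtain ⟨b3, c3, q1, -, -, q4⟩ := p1.step (B (b2 2)) (by
        rw [e, p3, mem_sup_span]
        rintro ⟨d, hd⟩
        exact hu d hd) _ (Or.inl ⟨rfl, rfl⟩)
      exact ⟨_, b3, c3, q1, by omega⟩
  · obtain ⟨b2, c2, p1, -, -, p4⟩ := h1.step _ hT _ (Or.inl ⟨rfl, rfl⟩)
    exact ⟨_, b2, c2, p1, by omega⟩

theorem cyc_three [FiniteDimensional F V] {B : V ≃ₗ[F] V} (hB : R2 B) (hn : finrank F V = 3) :
    ∃ v, Cyc F B v := by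
  obtain ⟨k, b, c, h1, h2⟩ := pat_two hB (by omega)
  have h3 := h1.len
  have h4 := h1.count 0 k (by omega)
  have h5 := h1.2.1
  rw [zero_add] at h4
  exact ⟨_, h1.cyc (by omega) (by omega)⟩

theorem exists_phi [FiniteDimensional F V] {A : V ≃ₗ[F] V} {v : V} (hv : A v ∉ span F {v}) :
    ∃ φ : V →ₗ[F] F, φ v = 0 ∧ φ (A v) ≠ 0 ∧ φ (A.symm v) ≠ 0 ∧
      (3 ≤ finrank F V → ∀ c, finrank F V ≤ 2 * finrank F (LinearMap.ker (ec A c)) →
        ∃ x, A x = c • x ∧ φ x ≠ 0) := by
  have hv' : A.symm v ∉ span F {v} := by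
    intro h
    obtain ⟨c, hc⟩ := mem_span_singleton.1 h
    have h1 : c • A v = v := by rw [← map_smul, hc]; simp
    have hc0 : c ≠ 0 := by
      rintro rfl
      rw [zero_smul] at h1
      exact hv (by simp [← h1])
    refine hv (mem_span_singleton.2 ⟨c⁻¹, ?_⟩)
    conv_lhs => rw [← h1]
    rw [smul_smul, inv_mul_cancel₀ hc0, one_smul]
  obtain ⟨φ, h1, h2, h3⟩ := two_fun hv hv'
  have h0 : φ v = 0 := h3 v (mem_span_singleton_self v)
  by_cases hc : 3 ≤ finrank F V → ∀ c, finrank F V ≤ 2 * finrank F (LinearMap.ker (ec A c)) →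
        ∃ x, A x = c • x ∧ φ x ≠ 0
  · exact ⟨φ, h0, by simp [h1], h2, hc⟩
  push Not at hc
  obtain ⟨hn, c1, hc1, hc2⟩ := hc
  let D : Submodule F V := (span F {v} ⊔ span F {A v}) ⊔ span F {A.symm v}
  have d1 : v ∈ D := mem_sup_left (mem_sup_left (mem_span_singleton_self _))
  have d2 : A v ∈ D := mem_sup_left (mem_sup_right (mem_span_singleton_self _))
  have d3 : A.symm v ∈ D := mem_sup_right (mem_span_singleton_self _)
  have hD : finrank F D ≤ 3 := by
    have e1 := finrank_sup_span_le (span F {v} ⊔ span F {A v}) (A.symm v)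
    have e2 := finrank_sup_span_le (span F {v}) (A v)
    have e3 : finrank F (span F {v} : Submodule F V) ≤ 1 := by
      simpa using finrank_span_le_card (R := F) ({v} : Set V)
    simp only [D]
    omega
  have hK : ¬ LinearMap.ker (ec A c1) ≤ D := by
    intro hle
    have e1 : LinearMap.ker (ec A c1) ≤ D ⊓ LinearMap.ker φ := fun x hx =>
      ⟨hle hx, hc2 x (by simpa [sub_eq_zero] using hx)⟩
    have e2 : D ⊓ LinearMap.ker φ < D := by
      refine lt_of_le_of_ne inf_le_left fun heq => ?_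
      rw [← heq] at d2
      have : φ (A v) = 0 := d2.2
      rw [h1] at this
      exact one_ne_zero this
    have e3 := Submodule.finrank_lt_finrank_of_lt e2
    have e4 := Submodule.eq_of_le_of_finrank_le e1 (by omega)
    have e5 : v ∈ LinearMap.ker (ec A c1) := by rw [e4]; exact ⟨d1, h0⟩
    refine hv (mem_span_singleton.2 ⟨c1, ?_⟩)
    have : A v - c1 • v = 0 := e5
    exact (sub_eq_zero.1 this).symm
  obtain ⟨x, hx1, hx2⟩ := SetLike.not_le_iff_exists.1 hK
  have hx3 : A x = c1 • x := by simpa [sub_eq_zero] using hx1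
  obtain ⟨ψ, g1, g2⟩ := exists_fun hx2
  refine ⟨φ + ψ, by simp [h0, g2 _ d1], by simp [h1, g2 _ d2], by simp [h2, g2 _ d3],
    fun _ c hc => ?_⟩
  by_cases hcc : c = c1
  · exact ⟨x, hcc ▸ hx3, by simp [hc2 x hx3, g1]⟩
  exfalso
  have e1 : LinearMap.ker (ec A c) ⊓ LinearMap.ker (ec A c1) = ⊥ := by
    rw [eq_bot_iff]
    rintro y ⟨hy1, hy2⟩
    have f1 : A y - c • y = 0 := hy1
    have f2 : A y - c1 • y = 0 := hy2
    have f3 : (c - c1) • y = 0 := by
      rw [sub_smul, ← sub_eq_zero.1 f1, ← sub_eq_zero.1 f2, sub_self]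
    exact (smul_eq_zero.1 f3).resolve_left (sub_ne_zero.2 hcc)
  have e2 := Submodule.finrank_sup_add_finrank_inf_eq (LinearMap.ker (ec A c))
    (LinearMap.ker (ec A c1))
  rw [e1, finrank_bot] at e2
  have e3 : LinearMap.ker (ec A c) ⊔ LinearMap.ker (ec A c1) = ⊤ := by
    apply Submodule.eq_top_of_finrank_eq
    have := Submodule.finrank_le (LinearMap.ker (ec A c) ⊔ LinearMap.ker (ec A c1))
    omega
  have e4 : v ∈ LinearMap.ker (ec A c) ⊔ LinearMap.ker (ec A c1) := by rw [e3]; trivial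
  obtain ⟨y, hy, z, hz, hyz⟩ := mem_sup.1 e4
  have f1 : A y = c • y := by simpa [sub_eq_zero] using hy
  have f2 : A z = c1 • z := by simpa [sub_eq_zero] using hz
  have f3 := hc2 z f2
  have f4 : φ y = 0 := by
    rw [← hyz, map_add, f3, add_zero] at h0
    exact h0
  rw [← hyz, map_add, map_add, f1, f2, map_smul, map_smul, f3, f4] at h1
  simp at h1

/-- the big cell condition -/
def Cell (A : V ≃ₗ[F] V) (n : ℕ) (e : ℕ → V) : Prop :=
  Sp F e n = ⊤ ∧ ∀ i j, i + j + 1 = n → ∃ c : F, c ≠ 0 ∧ A (e i) - c • e j ∈ Sp F e j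

theorem big_cell (n : ℕ) : ∀ (V : Type) [AddCommGroup V] [Module F V] [FiniteDimensional F V]
    (A : V ≃ₗ[F] V), finrank F V = n →
    (∀ c, 2 * finrank F (LinearMap.ker (ec A c)) ≤ n + 1) → ∃ e, Cell A n e := by
  induction n using Nat.strong_induction_on with
  | _ n ih =>
  intro V _ _ _ A hn hk
  rcases Nat.lt_or_ge n 2 with h2 | h2
  · rcases Nat.eq_zero_or_pos n with rfl | hpos
    · exact ⟨fun _ => 0, Sp_eq_top _ hn fun j hj => absurd hj (by omega),
        fun i j h => absurd h (by omega)⟩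
    · have h1 : n = 1 := by omega
      subst h1
      obtain ⟨v, hv⟩ := finrank_pos_iff_exists_ne_zero.1 (show 0 < finrank F V by omega)
      have ht := Sp_eq_top (F := F) (fun _ => v) hn fun j hj => by
        have : j = 0 := by omega
        subst this
        simpa [Sp_zero] using hv
      refine ⟨fun _ => v, ht, fun i j h => ?_⟩
      have h3 : A v ∈ Sp F (fun _ => v) 1 := by rw [ht]; trivial
      rw [Sp_succ, Sp_zero, bot_sup_eq] at h3
      obtain ⟨c, hc⟩ := mem_span_singleton.1 h3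
      refine ⟨c, ?_, by simp [hc]⟩
      rintro rfl
      rw [zero_smul] at hc
      exact hv (by simpa using hc.symm)
  obtain ⟨m, rfl⟩ : ∃ m, n = m + 2 := ⟨n - 2, by omega⟩
  have hA : NS A := NS.of_not_scalar fun c => by
    by_contra hc
    push Not at hc
    have h1 : LinearMap.ker (ec A c) = ⊤ := eq_top_iff.2 fun x _ => by simp [hc]
    have h3 := hk c
    rw [h1, finrank_top] at h3
    omega
  obtain ⟨v, hv⟩ := exists_good A
  obtain ⟨φ, p0, p1, p2, p3⟩ := exists_phi (hv.ns hA)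
  let Φ : V →ₗ[F] F × F := φ.prod (φ ∘ₗ (A : V →ₗ[F] V))
  have hmem : ∀ x, x ∈ LinearMap.ker Φ ↔ φ x = 0 ∧ φ (A x) = 0 := fun x => by
    simp [Φ]
  have hU : finrank F (LinearMap.ker Φ) = m := by
    have h1 : LinearMap.range Φ = ⊤ := by
      rw [eq_top_iff]
      rintro ⟨s, t⟩ -
      exact ⟨(s / φ (A.symm v)) • A.symm v + (t / φ (A v)) • v, by simp [Φ, p0, p1, p2]⟩
    have h3 := LinearMap.finrank_range_add_finrank_ker Φ
    rw [h1, finrank_top, finrank_prod, finrank_self] at h3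
    omega
  let L : V →ₗ[F] V := (A : V →ₗ[F] V) -
    (LinearMap.toSpanSingleton F V v) ∘ₗ ((φ (A v))⁻¹ • (φ ∘ₗ (A : V →ₗ[F] V) ∘ₗ (A : V →ₗ[F] V)))
  have hL : ∀ x, L x = A x - ((φ (A v))⁻¹ * φ (A (A x))) • v := fun x => rfl
  have hLm : ∀ x ∈ LinearMap.ker Φ, L x ∈ LinearMap.ker Φ := by
    intro x hx
    rw [hmem] at hx ⊢
    rw [hL]
    refine ⟨by simp [hx.2, p0], ?_⟩
    simp only [map_sub, map_smul, smul_eq_mul]
    field_simp
    ring
  have hLi : Function.Injective (L.restrict hLm) := by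
    rw [← LinearMap.ker_eq_bot, LinearMap.ker_eq_bot']
    intro x hx
    have h1 : L x = 0 := congrArg Subtype.val hx
    rw [hL, sub_eq_zero] at h1
    have h3 : (x : V) = ((φ (A v))⁻¹ * φ (A (A x))) • A.symm v := by
      rw [← map_smul, ← h1]
      simp
    have h4 := ((hmem x).1 x.2).1
    rw [h3, map_smul, smul_eq_mul, mul_eq_zero] at h4
    apply Subtype.ext
    rw [h3, h4.resolve_right p2]
    simp
  let A' : LinearMap.ker Φ ≃ₗ[F] LinearMap.ker Φ := LinearEquiv.ofInjectiveEndo _ hLi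
  have hA' : ∀ x : LinearMap.ker Φ, (A' x : V) = A x - ((φ (A v))⁻¹ * φ (A (A x))) • v :=
    fun x => rfl
  have hk' : ∀ c, 2 * finrank F (LinearMap.ker (ec A' c)) ≤ m + 1 := by
    intro c
    have b0 := Submodule.finrank_le (LinearMap.ker (ec A' c))
    rcases Nat.eq_zero_or_pos m with hm | hm
    · omega
    have hx : ∀ x : LinearMap.ker Φ, x ∈ LinearMap.ker (ec A' c) →
        A x - c • (x : V) = ((φ (A v))⁻¹ * φ (A (A x))) • v := by
      intro x hx
      have h1 : (A' x : V) - c • (x : V) = 0 := congrArg Subtype.val hx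
      rw [hA'] at h1
      rw [← sub_eq_zero, ← h1]
      abel
    by_cases he : ∃ x, x ≠ 0 ∧ A x = c • x
    · have h1 : (LinearMap.ker (ec A' c)).map (LinearMap.ker Φ).subtype ≤
          LinearMap.ker (ec A c) ⊓ LinearMap.ker φ := by
        rintro _ ⟨x, hx1, rfl⟩
        refine ⟨?_, ((hmem x).1 x.2).1⟩
        have h3 := hx x hx1
        by_contra h4
        have h5 : (φ (A v))⁻¹ * φ (A (A x)) ≠ 0 := by
          intro h5
          rw [h5, zero_smul] at h3
          exact h4 h3
        apply hv.1 c he (((φ (A v))⁻¹ * φ (A (A x)))⁻¹ • (x : V))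
        rw [map_smul, smul_comm c, ← smul_sub, h3, smul_smul, inv_mul_cancel₀ h5, one_smul]
      have h3 := Submodule.finrank_mono h1
      rw [Submodule.finrank_map_subtype_eq] at h3
      have h4 := hk c
      by_cases h5 : finrank F V ≤ 2 * finrank F (LinearMap.ker (ec A c))
      · obtain ⟨y, hy1, hy2⟩ := p3 (by omega) c h5
        have h6 : LinearMap.ker (ec A c) ⊓ LinearMap.ker φ < LinearMap.ker (ec A c) := by
          refine lt_of_le_of_ne inf_le_left fun heq => hy2 ?_
          have : y ∈ LinearMap.ker (ec A c) := by simp [hy1]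
          rw [← heq] at this
          exact this.2
        have := Submodule.finrank_lt_finrank_of_lt h6
        omega
      · have := Submodule.finrank_mono
          (inf_le_left : LinearMap.ker (ec A c) ⊓ LinearMap.ker φ ≤ _)
        omega
    · push Not at he
      have h1 : Function.Injective (ec A c ∘ₗ (LinearMap.ker Φ).subtype) := by
        rw [← LinearMap.ker_eq_bot, LinearMap.ker_eq_bot']
        intro x hx
        by_contra hx0
        exact he x (fun h => hx0 (Subtype.ext h)) (by simpa [sub_eq_zero] using hx)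
      have h3 : (LinearMap.ker (ec A' c)).map (ec A c ∘ₗ (LinearMap.ker Φ).subtype) ≤
          span F {v} := by
        rintro _ ⟨x, hx1, rfl⟩
        exact mem_span_singleton.2 ⟨_, (hx x hx1).symm⟩
      have h4 := Submodule.finrank_mono h3
      rw [← (Submodule.equivMapOfInjective _ h1 _).finrank_eq] at h4
      have e3 : finrank F (span F {v} : Submodule F V) ≤ 1 := by
        simpa using finrank_span_le_card (R := F) ({v} : Set V)
      omega
  obtain ⟨e', q1, q2⟩ := ih m (by omega) (LinearMap.ker Φ) A' hU hk'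
  let e : ℕ → V := fun i => if i = 0 then v else if i ≤ m then (e' (i - 1) : V) else A.symm v
  have e0 : e 0 = v := by simp [e]
  have e1 : ∀ i < m, e (i + 1) = e' i := fun i hi => by
    simp only [e]
    rw [if_neg (by omega), if_pos (by omega)]
    rfl
  have e2 : e (m + 1) = A.symm v := by simp [e]
  have s1 : ∀ j ≤ m, ∀ x ∈ Sp F e' j, (x : V) ∈ Sp F e (j + 1) := fun j hj x hx =>
    map_mem_Sp (LinearMap.ker Φ).subtype (fun i hi => by
      change (e' i : V) ∈ _
      rw [← e1 i (by omega)]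
      exact mem_Sp e (by omega)) hx
  have s2 : ∀ j, v ∈ Sp F e (j + 1) := fun j => e0 ▸ mem_Sp e (by omega)
  have s3 : ∀ x, φ x = 0 → x ∈ Sp F e (m + 1) := by
    intro x hx
    have h1 : x - (φ (A x) / φ (A v)) • v ∈ LinearMap.ker Φ := by
      rw [hmem]
      simp [hx, p0, p1]
    have h3 := s1 m le_rfl ⟨_, h1⟩ (by rw [q1]; trivial)
    have : x = (x - (φ (A x) / φ (A v)) • v) + (φ (A x) / φ (A v)) • v := by abel
    rw [this]
    exact add_mem h3 (smul_mem _ _ (s2 m))
  refine ⟨e, ?_, fun i j hij => ?_⟩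
  · rw [eq_top_iff]
    intro x _
    rw [Sp_succ, e2, mem_sup_span]
    exact ⟨φ x / φ (A.symm v), s3 _ (by simp [p2])⟩
  · rcases Nat.eq_zero_or_pos i with rfl | hi
    · have : j = m + 1 := by omega
      subst this
      rw [e0, e2]
      exact ⟨φ (A v) / φ (A.symm v), div_ne_zero p1 p2, s3 _ (by simp [p2])⟩
    rcases Nat.eq_zero_or_pos j with rfl | hj
    · have : i = m + 1 := by omega
      subst this
      rw [e0, e2]
      exact ⟨1, one_ne_zero, by simp⟩
    obtain ⟨i, rfl⟩ : ∃ k, i = k + 1 := ⟨i - 1, by omega⟩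
    obtain ⟨j, rfl⟩ : ∃ k, j = k + 1 := ⟨j - 1, by omega⟩
    obtain ⟨c, hc, h1⟩ := q2 i j (by omega)
    refine ⟨c, hc, ?_⟩
    rw [e1 i (by omega), e1 j (by omega)]
    have h3 := s1 j (by omega) _ h1
    have : A (e' i : V) - c • (e' j : V) =
        ((A' (e' i) - c • e' j : LinearMap.ker Φ) : V) +
          ((φ (A v))⁻¹ * φ (A (A (e' i)))) • v := by
      simp only [Submodule.coe_sub, Submodule.coe_smul, hA']
      abel
    rw [this]
    exact add_mem h3 (smul_mem _ _ (s2 j))

theorem cell_cy [FiniteDimensional F V] {A : V ≃ₗ[F] V} {n : ℕ} (hn : finrank F V = n + 1)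
    {e : ℕ → V} (h : Cell A (n + 1) e) : Cy A 2 := by
  let f : ℕ → V := fun i => if i ≤ n then e (n - i) else 0
  let u : ℕ → V := fun i => f i + f (i + 1)
  have f1 : ∀ i j, i + j = n → f i = e j := fun i j hij => by
    simp only [f]
    rw [if_pos (by omega)]
    congr 1
    omega
  have f2 : f (n + 1) = 0 := by simp [f]
  have hu : Sp F u (n + 1) = ⊤ := by
    rw [eq_top_iff, ← h.1]
    refine Sp_le fun j hj => ?_
    induction j with
    | zero =>
      have : e 0 = u n := by simp [u, f2, f1 n 0]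
      rw [this]
      exact mem_Sp u (by omega)
    | succ j ih =>
      have : e (j + 1) = u (n - (j + 1)) - e j := by
        simp only [u]
        rw [f1 _ (j + 1) (by omega), f1 _ j (by omega)]
        abel
      rw [this]
      exact sub_mem (mem_Sp u (by omega)) (ih (by omega))
  obtain ⟨g, hg⟩ := exists_equiv e u hn hn h.1 hu
  have hf : ∀ i ≤ n + 1, ∀ x ∈ Sp F f i, A x ∈ Sp F e i := fun i hi x hx =>
    map_mem_Sp (A : V →ₗ[F] V) (fun k hk => by
      obtain ⟨c, -, hc⟩ := h.2 (n - k) k (by omega)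
      change A (f k) ∈ _
      rw [f1 k (n - k) (by omega)]
      have : A (e (n - k)) = (A (e (n - k)) - c • e k) + c • e k := by abel
      rw [this]
      exact add_mem (Sp_mono e (by omega) hc) (smul_mem _ _ (mem_Sp e hk))) hx
  have hgs : ∀ i ≤ n + 1, ∀ x ∈ Sp F e i, g x ∈ Sp F f (i + 1) := fun i hi x hx =>
    map_mem_Sp (g : V →ₗ[F] V) (fun k hk => by
      change g (e k) ∈ _
      rw [hg k (by omega)]
      exact add_mem (mem_Sp f (by omega)) (mem_Sp f (by omega))) hx
  refine ⟨A * cj g A, (PP.one (Sim.refl A)).mul (PP.one (sim_cj g A)), e 0, fun S h0 hS => ?_⟩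
  have key : ∀ j ≤ n, Sp F e (j + 1) ≤ S := by
    intro j hj
    induction j with
    | zero =>
      refine Sp_le fun i hi => ?_
      have : i = 0 := by omega
      rw [this]
      exact h0
    | succ j ih =>
      have ih' := ih (by omega)
      rw [Sp_succ, sup_le_iff, span_singleton_le_iff_mem]
      refine ⟨ih', ?_⟩
      have w1 : u (n - j) ∈ Sp F e (j + 1) := by
        simp only [u]
        rw [f1 _ j (by omega)]
        refine add_mem (mem_Sp e (by omega)) ?_
        rcases Nat.eq_zero_or_pos j with rfl | hj0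
        · rw [Nat.sub_zero, f2]
          exact zero_mem _
        · rw [f1 _ (j - 1) (by omega)]
          exact mem_Sp e (by omega)
      have w2 := hS _ (ih' w1)
      rw [← hg (n - j) (by omega)] at w2
      have w3 : A (g (A (e (n - j)))) ∈ S := by simpa using w2
      obtain ⟨c, hc, h1⟩ := h.2 (n - j) j (by omega)
      obtain ⟨d, hd, h2⟩ := h.2 (n - (j + 1)) (j + 1) (by omega)
      have h3 := hf (j + 1) (by omega) _ (hgs j (by omega) _ h1)
      have h4 := hf (j + 1) (by omega) _ (mem_Sp f (show j < j + 1 by omega))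
      have h5 : g (e j) = f j + e (n - (j + 1)) := by
        rw [hg j (by omega), ← f1 (j + 1) _ (by omega)]
      have : (c * d) • e (j + 1) = A (g (A (e (n - j)))) - A (g (A (e (n - j)) - c • e j)) -
          c • A (f j) - c • (A (e (n - (j + 1))) - d • e (j + 1)) := by
        simp only [map_sub, map_smul, h5, map_add]
        module
      rw [← S.smul_mem_iff (mul_ne_zero hc hd), this]
      exact sub_mem (sub_mem (sub_mem w3 (ih' h3)) (smul_mem _ _ (ih' h4)))
        (smul_mem _ _ (ih' h2))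
  rw [eq_top_iff, ← h.1]
  exact key n le_rfl

theorem cy_two [FiniteDimensional F V] {A : V ≃ₗ[F] V} (hn : 0 < finrank F V)
    (hk : ∀ c, 2 * finrank F (LinearMap.ker (ec A c)) ≤ finrank F V + 1) : Cy A 2 := by
  obtain ⟨e, he⟩ := big_cell _ V A rfl hk
  obtain ⟨n, hn⟩ : ∃ n, finrank F V = n + 1 := ⟨finrank F V - 1, by omega⟩
  rw [hn] at he
  exact cell_cy hn he

end Pool.Agent.Lib.MP_485c8a_al
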