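import Pool.Agent.Lib.MP_485c8a_al.Split

namespace Pool.Agent.Lib.MP_485c8a_al
open Module Submodule

variable {F : Type} [Field F]
variable {V : Type} [AddCommGroup V] [Module F V]
variable {W : Type} [AddCommGroup W] [Module F W]

theorem sim_of_basis {A : V ≃ₗ[F] V} {B : W ≃ₗ[F] W} {b : ℕ → V} {n : ℕ} (hb : Sp F b n = ⊤)
    (g : V ≃ₗ[F] W) (h : ∀ j < n, g (A (b j)) = B (g (b j))) : Sim A B := by
  refine ⟨g, fun x => ?_⟩
  have hx : x ∈ Sp F b n := by rw [hb]; trivial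
  have := map_mem_Sp (S := ⊥) ((g : V →ₗ[F] W) ∘ₗ (A : V →ₗ[F] V) - (B : W →ₗ[F] W) ∘ₗ g)
    (fun j hj => by simp [h j hj]) hx
  simpa [sub_eq_zero] using this

theorem exists_m2 (a b c e : F) (h : a * e - b * c ≠ 0) :
    ∃ A : (F × F) ≃ₗ[F] (F × F), ∀ p, A p = (a * p.1 + b * p.2, c * p.1 + e * p.2) := by
  let L : (F × F) →ₗ[F] (F × F) :=
    (a • LinearMap.fst F F F + b • LinearMap.snd F F F).prod
      (c • LinearMap.fst F F F + e • LinearMap.snd F F F)
  have hL : ∀ p, L p = (a * p.1 + b * p.2, c * p.1 + e * p.2) := fun p => rfl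
  have hi : Function.Injective L := by
    rw [← LinearMap.ker_eq_bot, LinearMap.ker_eq_bot']
    rintro ⟨x, y⟩ hp
    rw [hL, Prod.mk_eq_zero] at hp
    obtain ⟨h1, h2⟩ := hp
    simp only at h1 h2
    have h3 : (a * e - b * c) * x = 0 := by linear_combination e * h1 - b * h2
    have h4 : (a * e - b * c) * y = 0 := by linear_combination a * h2 - c * h1
    rw [(mul_eq_zero.1 h3).resolve_left h, (mul_eq_zero.1 h4).resolve_left h]
    rfl
  exact ⟨LinearEquiv.ofInjectiveEndo L hi, hL⟩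

theorem sim_m2 {s d a b c e : F} {X Y : (F × F) ≃ₗ[F] (F × F)}
    (hX : ∀ p, X p = (0 * p.1 + d * p.2, 1 * p.1 + s * p.2))
    (hY : ∀ p, Y p = (a * p.1 + b * p.2, c * p.1 + e * p.2)) (hc : c ≠ 0) (h1 : a + e = s)
    (h2 : a * e - b * c = -d) : Sim X Y := by
  obtain ⟨g, hg⟩ := exists_m2 1 a 0 c (by simpa using hc)
  refine ⟨g, fun p => ?_⟩
  rw [hX, hg, hg, hY]
  ext
  · simp only
    linear_combination (-a * p.2) * h1 + p.2 * h2
  · simp only
    linear_combination (-c * p.2) * h1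

theorem Cy.of_pp [FiniteDimensional F V] [FiniteDimensional F W] {α : V ≃ₗ[F] V} {a : ℕ}
    {X : W ≃ₗ[F] W} (h : PP α a X) (hn : finrank F W = finrank F V) (hX : ∃ v, Cyc F X v) :
    Cy α a :=
  ⟨_, h.sim (sim_cj (LinearEquiv.ofFinrankEq W V hn) X), (sim_cj _ _).cyc hX⟩

theorem tt_big [FiniteDimensional F V] (hF : ∀ x y z : F, ∃ w, w ≠ x ∧ w ≠ y ∧ w ≠ z)
    {α β : V ≃ₗ[F] V} (hn : finrank F V = 4) {b : ℕ → V} (hb : ∀ j < 4, b j ∉ Sp F b j)
    {s d : F} (h0 : α (b 0) = b 1) (h1 : α (b 1) = s • b 1 + d • b 0) (h2 : α (b 2) = b 3)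
    (h3 : α (b 3) = s • b 3 + d • b 2) (hβ : NS β) (hd : dt β = dt α ^ 4) : PP α 4 β := by
  have hd0 : d ≠ 0 := by
    rintro rfl
    apply hb 1 (by omega)
    have : b 1 = s • b 0 := by
      apply α.injective
      rw [h1, map_smul, h0]
      simp
    rw [this]
    exact smul_mem _ _ (mem_Sp b (by omega))
  obtain ⟨X, hX⟩ := exists_m2 0 d 1 s (by simpa using hd0)
  let e : ℕ → (F × F) × (F × F) := fun j =>
    if j = 0 then ((1, 0), 0) else if j = 1 then ((0, 1), 0) else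
      if j = 2 then (0, (1, 0)) else (0, (0, 1))
  have he : Sp F e 4 = ⊤ := by
    rw [eq_top_iff]
    rintro ⟨⟨x, y⟩, ⟨z, w⟩⟩ -
    have : (((x, y), (z, w)) : (F × F) × (F × F)) = x • e 0 + y • e 1 + z • e 2 + w • e 3 := by
      simp [e]
    rw [this]
    refine add_mem (add_mem (add_mem ?_ ?_) ?_) ?_ <;>
      exact smul_mem _ _ (mem_Sp e (by omega))
  have hb' := Sp_eq_top b hn hb
  obtain ⟨g, hg⟩ := exists_equiv b e hn (by simp) hb' he
  have hs : Sim α (X.prodCongr X) := sim_of_basis hb' g fun j hj => by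
    have g0 := hg 0 (by omega)
    have g1 := hg 1 (by omega)
    have g2 := hg 2 (by omega)
    have g3 := hg 3 (by omega)
    interval_cases j
    · rw [h0, g0, g1]
      simp [e, hX, Prod.ext_iff]
    · rw [h1, map_add, map_smul, map_smul, g0, g1]
      simp [e, hX, Prod.ext_iff]
    · rw [h2, g2, g3]
      simp [e, hX, Prod.ext_iff]
    · rw [h3, map_add, map_smul, map_smul, g2, g3]
      simp [e, hX, Prod.ext_iff]
  obtain ⟨μ, m1, m2, m3⟩ := hF 0 d (-d)
  obtain ⟨ν, hν⟩ : ∃ ν, μ * ν = d ^ 2 := ⟨d ^ 2 / μ, by field_simp⟩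
  have n1 : ν ≠ 0 := by
    rintro rfl
    rw [mul_zero] at hν
    exact pow_ne_zero 2 hd0 hν.symm
  have n2 : ν - μ ≠ 0 := by
    intro h
    have h4 : ν = μ := sub_eq_zero.1 h
    subst h4
    have : (ν - d) * (ν + d) = 0 := by linear_combination hν
    rcases mul_eq_zero.1 this with h5 | h5
    · exact m2 (sub_eq_zero.1 h5)
    · exact m3 (eq_neg_of_add_eq_zero_left h5)
  obtain ⟨a, a1, a2⟩ : ∃ a : F, a + s ≠ 0 ∧ 2 * d + s ^ 2 - a ^ 2 ≠ μ + ν := by
    by_cases h : ∃ r : F, r ^ 2 = 2 * d + s ^ 2 - (μ + ν)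
    · obtain ⟨r, hr⟩ := h
      obtain ⟨a, a1, a2, a3⟩ := hF (-s) r (-r)
      refine ⟨a, fun h => a1 (eq_neg_of_add_eq_zero_left h), fun h => ?_⟩
      have : (a - r) * (a + r) = 0 := by linear_combination -h - hr
      rcases mul_eq_zero.1 this with h5 | h5
      · exact a2 (sub_eq_zero.1 h5)
      · exact a3 (eq_neg_of_add_eq_zero_left h5)
    · refine ⟨1 - s, by simp, fun h' => h ⟨1 - s, by linear_combination -h'⟩⟩
  obtain ⟨Y, hY⟩ := exists_m2 a (a * (s - a) + d) 1 (s - a) (by simpa using hd0)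
  have sY : Sim X Y := sim_m2 hX hY one_ne_zero (by ring) (by ring)
  obtain ⟨p, hp⟩ : ∃ p, p * (ν - μ) = s * (d + ν) := ⟨s * (d + ν) / (ν - μ), by field_simp⟩
  obtain ⟨Y1, hY1⟩ := exists_m2 p (p * (s - p) + d) 1 (s - p) (by simpa using hd0)
  have sY1 : Sim X Y1 := sim_m2 hX hY1 one_ne_zero (by ring) (by ring)
  have dY2 : (-(s - p) * ν / d) * (-p * μ / d) - ((p * (s - p) + d) * μ / d) * (ν / d) = -d := by
    field_simp
    linear_combination (-d) * hν
  obtain ⟨Y2, hY2⟩ := exists_m2 (-(s - p) * ν / d) ((p * (s - p) + d) * μ / d) (ν / d) (-p * μ / d)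
    (by rw [dY2]; simpa using hd0)
  have sY2 : Sim X Y2 := sim_m2 hX hY2 (div_ne_zero n1 hd0) (by
    field_simp
    linear_combination hp) dY2
  have k1 : PP X 2 (X * Y) := (PP.one (Sim.refl X)).mul (PP.one sY)
  have k2 : PP X 2 (Y1 * Y2) := (PP.one sY1).mul (PP.one sY2)
  have hD : ∀ q : F × F, Y1 (Y2 q) = (ν * q.1, μ * q.2) := by
    intro q
    rw [hY2, hY1]
    ext
    · simp only
      field_simp
      ring
    · simp only
      field_simp
      ring
  have k3 : PP α 2 (ext (ext (X * Y) 0 (Units.mk0 ν n1)) 0 (Units.mk0 μ m1)) :=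
    ((k1.prod k2).left hs).sim ⟨(LinearEquiv.prodAssoc F (F × F) F F).symm, fun q => by
      simp [hD, LinearEquiv.prodAssoc, Equiv.prodAssoc]⟩
  have k4 : ∀ ρ : F, ρ = μ ∨ ρ = ν → ∀ u, (X * Y : (F × F) ≃ₗ[F] (F × F)) u = ρ • u → u = 0 := by
    rintro ρ hρ ⟨x, y⟩ hu
    rw [LinearEquiv.mul_apply, hY, hX, Prod.ext_iff] at hu
    obtain ⟨u1, u2⟩ := hu
    simp only [Prod.smul_mk, smul_eq_mul] at u1 u2
    have e0 : ρ ^ 2 - (2 * d + s ^ 2 - a ^ 2) * ρ + d ^ 2 ≠ 0 := by
      intro h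
      apply a2
      rcases hρ with rfl | rfl
      · apply mul_left_cancel₀ m1
        linear_combination -h - hν
      · apply mul_left_cancel₀ n1
        linear_combination -h - hν
    have e1 : (ρ ^ 2 - (2 * d + s ^ 2 - a ^ 2) * ρ + d ^ 2) * x = 0 := by
      linear_combination (a * (s - a) + d + s * (s - a) - ρ) * u1 - (d * (s - a)) * u2
    have e2 : (ρ ^ 2 - (2 * d + s ^ 2 - a ^ 2) * ρ + d ^ 2) * y = 0 := by
      linear_combination (d - ρ) * u2 - (a + s) * u1
    rw [(mul_eq_zero.1 e1).resolve_left e0, (mul_eq_zero.1 e2).resolve_left e0]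
    rfl
  have k5 : ∃ v, Cyc F (X * Y : (F × F) ≃ₗ[F] (F × F)) v := by
    refine ⟨(1, 0), fun S s1 s2 => ?_⟩
    have s3 := s2 _ s1
    rw [LinearEquiv.mul_apply, hY, hX] at s3
    rw [eq_top_iff]
    rintro ⟨x, y⟩ -
    have s4 := add_mem (S.smul_mem (x - y / (a + s) * d) s1) (S.smul_mem (y / (a + s)) s3)
    convert s4 using 1
    ext
    · simp
    · simp
      field_simp
  have k6 := ext_cyc k5 (Units.mk0 ν n1) (k4 ν (Or.inr rfl))
  have k7 : ∀ u, ext (X * Y) 0 (Units.mk0 ν n1) u = ((Units.mk0 μ m1 : Fˣ) : F) • u → u = 0 := by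
    rintro ⟨u, t⟩ hu
    rw [ext_apply, Prod.ext_iff] at hu
    obtain ⟨u1, u2⟩ := hu
    have u3 : u = 0 := k4 μ (Or.inl rfl) u u1
    have u4 : (ν - μ) * t = 0 := by
      simp at u2
      rcases u2 with h | h
      · simp [h]
      · simp [h]
    rw [u3, (mul_eq_zero.1 u4).resolve_left n2]
    rfl
  exact fin_gen (b := 2) (c := 2) (Cy.of_pp k3 (by simp [hn]) (ext_cyc k6 _ k7)) k6
    (by simp [hn]) _ (fun θ => k3.sim (ext_sim_zero _ k7 θ)) hβ hd

theorem small_field (hF : ¬ ∀ x y z : F, ∃ w, w ≠ x ∧ w ≠ y ∧ w ≠ z) :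
    ∃ p : ℕ, (p = 2 ∨ p = 3) ∧ (p : F) = 0 ∧ ∀ x : F, ∃ k < p, x = (k : F) := by
  push Not at hF
  obtain ⟨x, y, z, h⟩ := hF
  have h' : ∀ w, w = x ∨ w = y ∨ w = z := fun w => by
    by_cases h1 : w = x
    · exact Or.inl h1
    by_cases h2 : w = y
    · exact Or.inr (Or.inl h2)
    exact Or.inr (Or.inr (h w h1 h2))
  have pig : ∀ a b c e : F, a = b ∨ a = c ∨ a = e ∨ b = c ∨ b = e ∨ c = e := by
    intro a b c e
    rcases h' a with rfl | rfl | rfl <;> rcases h' b with h1 | h1 | h1 <;>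
      rcases h' c with h2 | h2 | h2 <;> rcases h' e with h3 | h3 | h3 <;> simp [h1, h2, h3]
  by_cases h2 : ∀ w : F, w = 0 ∨ w = 1
  · refine ⟨2, Or.inl rfl, ?_, fun w => ?_⟩
    · rcases h2 2 with h | h
      · simpa using h
      · exfalso
        have : (1 : F) = 0 := by linear_combination h
        exact one_ne_zero this
    · rcases h2 w with h | h
      · exact ⟨0, by omega, by simp [h]⟩
      · exact ⟨1, by omega, by simp [h]⟩
  · push Not at h2
    obtain ⟨w, w0, w1⟩ := h2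
    have all : ∀ t : F, t = 0 ∨ t = 1 ∨ t = w := fun t => by
      rcases pig 0 1 w t with h | h | h | h | h | h
      · exact absurd h zero_ne_one
      · exact absurd h.symm w0
      · exact Or.inl h.symm
      · exact absurd h.symm w1
      · exact Or.inr (Or.inl h.symm)
      · exact Or.inr (Or.inr h.symm)
    have hw : w = -1 := by
      rcases all (w + 1) with h | h | h
      · linear_combination h
      · exact absurd (by linear_combination h) w0
      · exact absurd (by linear_combination h) (one_ne_zero (α := F))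
    have h3 : (3 : F) = 0 := by
      rcases all 2 with h | h | h
      · exact absurd (by linear_combination hw - h) w1
      · exact absurd (by linear_combination h) (one_ne_zero (α := F))
      · linear_combination h + hw
    refine ⟨3, Or.inr rfl, by simpa using h3, fun t => ?_⟩
    rcases all t with h | h | h
    · exact ⟨0, by omega, by simp [h]⟩
    · exact ⟨1, by omega, by simp [h]⟩
    · refine ⟨2, by omega, ?_⟩
      push_cast
      linear_combination h + hw - h3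

end Pool.Agent.Lib.MP_485c8a_al
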