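import Pool.Agent.Lib.MP_485c8a_al.Basic

namespace Pool.Agent.Lib.MP_485c8a_al
open Module Submodule

variable {F : Type} [Field F]
variable {V : Type} [AddCommGroup V] [Module F V]

/-- identity plus rank one, of determinant `d` -/
def Rk (d : F) (ρ : V ≃ₗ[F] V) : Prop :=
  ∃ (u : V) (φ : V →ₗ[F] F), u ≠ 0 ∧ φ ≠ 0 ∧ 1 + φ u = d ∧ ∀ x, ρ x = x + φ x • u

theorem exists_tv (φ : V →ₗ[F] F) (u : V) (h : 1 + φ u ≠ 0) :
    ∃ e : V ≃ₗ[F] V, ∀ x, e x = x + φ x • u :=
  ⟨LinearEquiv.dilatransvection (f := φ) (v := u) (Ne.isUnit h),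
    fun _ => LinearEquiv.dilatransvection.apply⟩

theorem dt_tv [FiniteDimensional F V] {φ : V →ₗ[F] F} {u : V} {e : V ≃ₗ[F] V}
    (h : ∀ x, e x = x + φ x • u) : dt e = 1 + φ u := by
  have : (e : V →ₗ[F] V) = LinearMap.transvection φ u := by
    ext x
    simp [h, LinearMap.transvection.apply]
  unfold dt
  rw [this, LinearMap.transvection.det]

theorem Rk.sim {d : F} {ρ ρ' : V ≃ₗ[F] V} (h : Rk d ρ) (h' : Rk d ρ') : Sim ρ ρ' := by
  obtain ⟨u, φ, hu, hφ, hd, hρ⟩ := h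
  obtain ⟨u', φ', hu', hφ', hd', hρ'⟩ := h'
  obtain ⟨χ, c1, c2, -⟩ := two_fun (F := F) (S := ⊥) (x := u) (y := u') (by simpa using hu)
    (by simpa using hu')
  obtain ⟨e, he⟩ := exists_tv χ (u' - u) (by simpa [c1] using c2)
  have heu : e u = u' := by simp [he, c1]
  let φ1 : V →ₗ[F] F := φ ∘ₗ (e.symm : V →ₗ[F] V)
  have h1 : φ1 ≠ 0 := by
    intro h
    apply hφ
    ext x
    have := congrArg (fun f : V →ₗ[F] F => f (e x)) h
    simpa [φ1] using this
  obtain ⟨w, w1, w2⟩ := two_vec hφ' h1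
  obtain ⟨e2, he2⟩ := exists_tv (φ1 - φ') w (by simpa [w1] using w2)
  have h2 : φ1 u' = φ' u' := by
    rw [← heu]
    simp only [φ1, LinearMap.comp_apply, LinearEquiv.coe_coe, LinearEquiv.symm_apply_apply]
    rw [heu]
    exact add_left_cancel (hd.trans hd'.symm)
  have h3 : e2 u' = u' := by simp [he2, h2]
  refine ⟨e.trans e2, fun x => ?_⟩
  have h4 : φ' (e2 (e x)) = φ x := by simp [he2, w1, φ1]
  simp only [LinearEquiv.trans_apply]
  rw [hρ, hρ', h4, map_add, map_add, map_smul, map_smul, heu, h3]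

theorem weak_pp {d : F} {ρ0 ρ : V ≃ₗ[F] V} (h0 : Rk d ρ0) {u : V} {φ : V →ₗ[F] F}
    (hd : 1 + φ u = d) (h : ∀ x, ρ x = x + φ x • u) :
    ∃ k ≤ 1, PP ρ0 k ρ ∧ (d ≠ 1 → k = 1) := by
  by_cases h1 : u = 0 ∨ φ = 0
  · have h2 : ρ = 1 := by
      ext x
      rcases h1 with h1 | h1 <;> simp [h, h1]
    have h3 : d = 1 := by
      rcases h1 with h1 | h1 <;> simp [← hd, h1]
    exact ⟨0, by omega, h2 ▸ PP.zero, fun h => absurd h3 h⟩
  · push Not at h1
    exact ⟨1, le_rfl, PP.one (h0.sim ⟨u, φ, h1.1, h1.2, hd, h⟩), fun _ => rfl⟩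

theorem span_fun {u : V} (L : V →ₗ[F] V) (h : ∀ x, L x ∈ span F {u}) :
    ∃ φ : V →ₗ[F] F, ∀ x, L x = φ x • u := by
  by_cases hu : u = 0
  · exact ⟨0, fun x => by simpa [hu] using h x⟩
  obtain ⟨χ, h1, -⟩ := exists_fun (F := F) (S := ⊥) (x := u) (by simpa using hu)
  refine ⟨χ ∘ₗ L, fun x => ?_⟩
  obtain ⟨c, hc⟩ := mem_span_singleton.1 (h x)
  simp [← hc, h1]

theorem notMem_span_symm {x y : V} (hx : x ≠ 0) (h : y ∉ span F {x}) : x ∉ span F {y} := by
  intro h1
  obtain ⟨c, hc⟩ := mem_span_singleton.1 h1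
  have hc0 : c ≠ 0 := by
    rintro rfl
    exact hx (by simpa using hc.symm)
  exact h (mem_span_singleton.2 ⟨c⁻¹, by rw [← hc, smul_smul, inv_mul_cancel₀ hc0, one_smul]⟩)

theorem finrank_span_two [FiniteDimensional F V] (x y : V) :
    finrank F (span F {x} ⊔ span F {y} : Submodule F V) ≤ 2 := by
  have e2 := finrank_sup_span_le (span F {x}) y
  have e3 : finrank F (span F {x} : Submodule F V) ≤ 1 := by
    simpa using finrank_span_le_card (R := F) ({x} : Set V)
  omega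

theorem rank_ind [FiniteDimensional F V] {d : F} (hd0 : d ≠ 0) {ρ0 : V ≃ₗ[F] V} (h0 : Rk d ρ0)
    (m : ℕ) : ∀ (H : Submodule F V) (β : V ≃ₗ[F] V), finrank F H = m + 1 →
    (∀ x, β x - x ∈ H) → dt β = d ^ (m + 1) → (m = 0 ∨ ∃ x ∈ H, β x ∉ span F {x}) →
    ∃ k ≤ m + 1, PP ρ0 k β ∧ (d ≠ 1 → k = m + 1) := by
  induction m with
  | zero =>
    intro H β hH hβ hd _
    obtain ⟨u, hu⟩ := (finrank_le_one_iff (K := F) (V := H)).1 (by omega)
    obtain ⟨φ, hφ⟩ := span_fun (u := (u : V)) ((β : V →ₗ[F] V) - LinearMap.id) (fun x => by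
      obtain ⟨c, hc⟩ := hu ⟨_, hβ x⟩
      exact mem_span_singleton.2 ⟨c, congrArg Subtype.val hc⟩)
    have h1 : ∀ x, β x = x + φ x • (u : V) := fun x => by
      rw [← hφ]
      simp
    exact weak_pp h0 (by rw [← dt_tv h1, hd]; simp) h1
  | succ m ih =>
    intro H β hH hβ hd hns
    obtain ⟨x, hx, hxs⟩ := hns.resolve_left (by omega)
    have hx0 : x ≠ 0 := by
      rintro rfl
      simp at hxs
    have hβH : ∀ y ∈ H, β y ∈ H := fun y hy => by
      have : β y = (β y - y) + y := by abel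
      rw [this]
      exact add_mem (hβ y) hy
    set u := β x with hu
    have huH : u ∈ H := hβH x hx
    have hus : x ∉ span F {u} := notMem_span_symm hx0 hxs
    have step : ∀ θ : V →ₗ[F] F, θ u = 1 → θ x = d⁻¹ →
        (m = 0 ∨ ∃ y ∈ H ⊓ LinearMap.ker θ, ∀ c : F, β y - c • y ∉ span F {u}) →
        ∃ k ≤ m + 1 + 1, PP ρ0 k β ∧ (d ≠ 1 → k = m + 1 + 1) := by
      intro θ t1 t2 t3
      let φ1 : V →ₗ[F] F := d • (θ - θ ∘ₗ (β.symm : V →ₗ[F] V))
      have p1 : 1 + φ1 u = d := by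
        have : β.symm u = x := by simp [hu]
        simp [φ1, t1, this, t2, mul_sub, hd0]
      obtain ⟨ρ, hρ⟩ := exists_tv φ1 u (by rw [p1]; exact hd0)
      have p2 : ∀ y, (ρ⁻¹ * β : V ≃ₗ[F] V) y = β y - (θ (β y) - θ y) • u := by
        intro y
        apply ρ.injective
        have e1 : φ1 u = d - 1 := by rw [← p1]; ring
        have e2 : φ1 (β y) = d * (θ (β y) - θ y) := by simp [φ1]
        have e3 : ρ ((ρ⁻¹ * β : V ≃ₗ[F] V) y) = β y := by simp
        rw [e3, hρ, map_sub φ1, map_smul, e1, e2, smul_eq_mul]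
        module
      have p3 : finrank F (H ⊓ LinearMap.ker θ : Submodule F V) = m + 1 := by
        have a1 : H ⊓ LinearMap.ker θ < H := by
          refine lt_of_le_of_ne inf_le_left fun heq => ?_
          rw [← heq] at huH
          have : θ u = 0 := huH.2
          rw [t1] at this
          exact one_ne_zero this
        have a2 : H ≤ (H ⊓ LinearMap.ker θ) ⊔ span F {u} := fun y hy =>
          mem_sup_span.2 ⟨θ y, sub_mem hy (smul_mem _ _ huH), by simp [t1]⟩
        have a3 := Submodule.finrank_lt_finrank_of_lt a1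
        have a4 := Submodule.finrank_mono a2
        have a5 := finrank_sup_span_le (H ⊓ LinearMap.ker θ) u
        omega
      obtain ⟨k, k1, k2, k3⟩ := ih (H ⊓ LinearMap.ker θ) (ρ⁻¹ * β) p3 (fun y => by
          rw [p2]
          refine ⟨?_, by simp [t1]⟩
          have : β y - (θ (β y) - θ y) • u - y = (β y - y) - (θ (β y) - θ y) • u := by abel
          rw [this]
          exact sub_mem (hβ y) (smul_mem _ _ huH))
        (by
          have a1 := dt_inv_mul ρ
          rw [dt_tv hρ, p1] at a1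
          rw [dt_mul, hd, pow_succ' d (m + 1), ← mul_assoc, a1, one_mul])
        (t3.imp id fun ⟨y, hy, hy'⟩ => ⟨y, hy, fun hc => by
          obtain ⟨c, hc⟩ := mem_span_singleton.1 hc
          rw [p2] at hc
          refine hy' c (mem_span_singleton.2 ⟨θ (β y) - θ y, ?_⟩)
          rw [hc]
          abel⟩)
      obtain ⟨l, l1, l2, l3⟩ := weak_pp h0 p1 hρ
      refine ⟨l + k, by omega, by simpa using l2.mul k2, fun h => ?_⟩
      rw [k3 h, l3 h]
      ring
    obtain ⟨θa, a1, a2⟩ := exists_fun hxs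
    obtain ⟨θb, b1, b2⟩ := exists_fun hus
    have a3 : θa x = 0 := a2 x (mem_span_singleton_self x)
    have b3 : θb u = 0 := b2 u (mem_span_singleton_self u)
    set θ := θa + d⁻¹ • θb with hθ
    have t1 : θ u = 1 := by simp [hθ, a1, b3]
    have t2 : θ x = d⁻¹ := by simp [hθ, a3, b1]
    rcases Nat.eq_zero_or_pos m with hm | hm
    · exact step θ t1 t2 (Or.inl hm)
    obtain ⟨w, hw1, hw2⟩ : ∃ w ∈ H, w ∉ span F {u} ⊔ span F {x} := by
      by_contra hc
      push Not at hc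
      have := Submodule.finrank_mono (show H ≤ span F {u} ⊔ span F {x} from hc)
      have := finrank_span_two (F := F) u x
      omega
    obtain ⟨ψ, s1, s2⟩ := exists_fun hw2
    have s3 : ψ u = 0 := s2 u (mem_sup_left (mem_span_singleton_self u))
    have s4 : ψ x = 0 := s2 x (mem_sup_right (mem_span_singleton_self x))
    by_cases c1 : ∃ y ∈ H ⊓ LinearMap.ker θ, ∀ c : F, β y - c • y ∉ span F {u}
    · exact step θ t1 t2 (Or.inr c1)
    by_cases c2 : ∃ y ∈ H ⊓ LinearMap.ker (θ + ψ), ∀ c : F, β y - c • y ∉ span F {u}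
    · exact step (θ + ψ) (by simp [t1, s3]) (by simp [t2, s4]) (Or.inr c2)
    exfalso
    push Not at c1 c2
    obtain ⟨c, hc⟩ := scalar_mod _ _ (β : V →ₗ[F] V) c1
    obtain ⟨c', hc'⟩ := scalar_mod _ _ (β : V →ₗ[F] V) c2
    have y1 : x - d⁻¹ • u ∈ H := sub_mem hx (smul_mem _ _ huH)
    have y2 := hc _ ⟨y1, by simp [t1, t2]⟩
    have y3 := hc' _ ⟨y1, by simp [t1, t2, s3, s4]⟩
    have hcc : c = c' := by
      by_contra hne
      have y4 := sub_mem y3 y2
      rw [sub_sub_sub_cancel_left, ← sub_smul,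
        (span F {u}).smul_mem_iff (sub_ne_zero.2 hne)] at y4
      apply hus
      have : x = (x - d⁻¹ • u) + d⁻¹ • u := by abel
      rw [this]
      exact add_mem y4 (smul_mem _ _ (mem_span_singleton_self u))
    subst hcc
    have z1 : w - θ w • u ∈ H := sub_mem hw1 (smul_mem _ _ huH)
    have z2 := hc _ ⟨z1, by simp [t1]⟩
    have z3 := hc' (u - (w - θ w • u)) ⟨sub_mem huH z1, by simp [t1, s1, s3]⟩
    have z4 : β u ∈ span F {u} := by
      have : β u = ((β : V →ₗ[F] V) (w - θ w • u) - c • (w - θ w • u)) +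
          ((β : V →ₗ[F] V) (u - (w - θ w • u)) - c • (u - (w - θ w • u))) + c • u := by
        simp only [map_sub, map_smul, LinearEquiv.coe_coe]
        module
      rw [this]
      exact add_mem (add_mem z2 z3) (smul_mem _ _ (mem_span_singleton_self u))
    obtain ⟨a, ha⟩ := mem_span_singleton.1 z4
    have z5 : a • x = u := by
      apply β.injective
      rw [map_smul, ← ha]
    exact hxs (mem_span_singleton.2 ⟨a, z5⟩)

theorem pad [FiniteDimensional F V] {ρ0 : V ≃ₗ[F] V} (h0 : Rk 1 ρ0) (hn : 3 ≤ finrank F V) :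
    PP ρ0 2 ρ0 := by
  obtain ⟨u, φ, hu, hφ, hd, hρ⟩ := id h0
  have h1 : φ u = 0 := by simpa using hd
  obtain ⟨w, hw, -⟩ := two_vec hφ hφ
  obtain ⟨z, hz⟩ := exists_notMem_of_lt (span F {u} ⊔ span F {w})
    (lt_of_le_of_lt (finrank_span_two u w) (by omega))
  obtain ⟨ψ, s1, s2⟩ := exists_fun hz
  have s3 : ψ u = 0 := s2 u (mem_sup_left (mem_span_singleton_self u))
  have s4 : ψ w = 0 := s2 w (mem_sup_right (mem_span_singleton_self w))
  obtain ⟨e1, he1⟩ := exists_tv ψ u (by simp [s3])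
  obtain ⟨e2, he2⟩ := exists_tv (φ - ψ) u (by simp [s3, h1])
  have r1 : Rk 1 e1 := ⟨u, ψ, hu, fun h => by simp [h] at s1, by simp [s3], he1⟩
  have r2 : Rk 1 e2 := ⟨u, φ - ψ, hu, fun h => by
    have := congrArg (fun f : V →ₗ[F] F => f w) h
    simp [hw, s4] at this, by simp [s3, h1], he2⟩
  have : ρ0 = e1 * e2 := by
    ext x
    simp only [LinearEquiv.mul_apply, he1, he2, hρ, map_add, map_smul, s3, LinearMap.sub_apply]
    module
  have h2 := (PP.one (h0.sim r1)).mul (PP.one (h0.sim r2))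
  rwa [← this] at h2

theorem rank_main [FiniteDimensional F V] {d : F} (hd0 : d ≠ 0) {ρ0 β : V ≃ₗ[F] V} (h0 : Rk d ρ0)
    (hn : 3 ≤ finrank F V) (hβ : NS β) (hd : dt β = d ^ finrank F V) :
    PP ρ0 (finrank F V) β := by
  obtain ⟨m, hm⟩ : ∃ m, finrank F V = m + 1 := ⟨finrank F V - 1, by omega⟩
  obtain ⟨x, hx⟩ := hβ
  obtain ⟨k, k1, k2, k3⟩ := rank_ind hd0 h0 m ⊤ β (by simp [hm]) (fun _ => trivial) (hm ▸ hd)
    (Or.inr ⟨x, trivial, hx⟩)
  rw [hm]
  by_cases h1 : d = 1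
  · subst h1
    have h2 := pad h0 hn
    rcases Nat.eq_zero_or_pos k with rfl | hk
    · rw [k2.eq_one] at hx
      exact absurd (mem_span_singleton_self x) hx
    · obtain ⟨j, hj⟩ : ∃ j, m + 1 = k + j := ⟨m + 1 - k, by omega⟩
      rw [hj]
      clear hj k1 k3
      induction j with
      | zero => exact k2
      | succ j ih =>
        obtain ⟨i, hi⟩ : ∃ i, k + j = i + 1 := ⟨k + j - 1, by omega⟩
        rw [hi] at ih
        obtain ⟨y, z, y1, y2, rfl⟩ := ih.cases_succ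
        have := (h2.sim y1).mul y2
        rwa [show 2 + i = k + (j + 1) by omega] at this
  · rw [← k3 h1]
    exact k2

theorem rank_one [FiniteDimensional F V] {α β : V ≃ₗ[F] V} (h : ¬ R2 α) (hα : NS α)
    (hn : 3 ≤ finrank F V) (hβ : NS β) (hd : dt β = dt α ^ finrank F V) :
    PP α (finrank F V) β := by
  unfold R2 at h
  push Not at h
  obtain ⟨c, u, h⟩ := h
  have hc : c ≠ 0 := by
    rintro rfl
    obtain ⟨z, hz⟩ := exists_notMem_of_lt (span F {u} ⊔ span F {u})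
      (lt_of_le_of_lt (finrank_span_two u u) (by omega))
    exact hz (mem_sup_left (by simpa using h (α.symm z)))
  obtain ⟨φ, hφ⟩ := span_fun (u := u) ((α : V →ₗ[F] V) - c • LinearMap.id) h
  have h1 : ∀ x, α x = c • x + φ x • u := fun x => by
    rw [← hφ]
    simp
  let c' : Fˣ := Units.mk0 c hc
  have h2 : ∀ x, (sc V c'⁻¹ * α : V ≃ₗ[F] V) x = x + (c⁻¹ • φ) x • u := fun x => by
    simp [c', h1, smul_smul, hc]
  have r : Rk (dt (sc V c'⁻¹ * α)) (sc V c'⁻¹ * α) := by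
    refine ⟨u, c⁻¹ • φ, ?_, ?_, (dt_tv h2).symm, h2⟩
    · rintro rfl
      obtain ⟨x, hx⟩ := hα.not_scalar c
      exact hx (by simp [h1])
    · intro h3
      have h4 : φ = 0 := (smul_eq_zero.1 h3).resolve_left (inv_ne_zero hc)
      obtain ⟨x, hx⟩ := hα.not_scalar c
      exact hx (by simp [h1, h4])
  have h3 := rank_main (β := sc V (c'⁻¹ ^ finrank F V) * β) (dt_ne_zero _) r hn (by
      obtain ⟨x, hx⟩ := hβ
      refine ⟨x, fun h => hx ?_⟩
      simp only [LinearEquiv.mul_apply, sc_apply] at h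
      exact ((span F {x}).smul_mem_iff (Units.ne_zero _)).1 h)
    (by rw [dt_mul, dt_mul, dt_sc, dt_sc, hd, mul_pow]; simp)
  have h4 := h3.smul c'
  have e1 : sc V c' * (sc V c'⁻¹ * α) = α := by
    ext x
    simp [smul_smul, c', hc]
  have e2 : sc V (c' ^ finrank F V) * (sc V (c'⁻¹ ^ finrank F V) * β) = β := by
    ext x
    simp [smul_smul, c', hc]
  rwa [e1, e2] at h4

end Pool.Agent.Lib.MP_485c8a_al
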