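import Pool.Agent.Lib.MP_485c8a_al.Small
import Pool.Agent.Lib.MP_485c8a_al.Rank1

namespace Pool.Agent.Lib.MP_485c8a_al
open Module Submodule

variable {F : Type} [Field F]
variable {V : Type} [AddCommGroup V] [Module F V]

theorem main_four [FiniteDimensional F V] {α β : V ≃ₗ[F] V} (hn : finrank F V = 4) (hα : R2 α)
    (hβ : NS β) (hd : dt α = 1) (hd' : dt β = 1) : PP α 4 β := by
  have hdd : dt β = dt α ^ 4 := by rw [hd, hd']; simp
  obtain ⟨b, hb, h0, h⟩ := nf4 hα.ns hn
  have ht := Sp_eq_top b hn hb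
  have gen : ∀ T : Submodule F V, b 0 ∈ T → b 1 ∈ T → b 2 ∈ T → b 3 ∈ T → T = ⊤ := by
    intro T t0 t1 t2 t3
    rw [eq_top_iff, ← ht]
    refine Sp_le fun j hj => ?_
    interval_cases j <;> assumption
  rcases h with ⟨h1, h2⟩ | ⟨h1, h2, l, h3⟩ | ⟨s, d, h1, h2, h3⟩ | ⟨h, -⟩
  · refine fin1 (a := 1) ⟨α, PP.one (Sim.refl α), b 0, fun T t0 hT => ?_⟩ hα.ns (by omega)
      (by omega) hβ hdd
    have t1 := h0 ▸ hT _ t0
    have t2 := h1 ▸ hT _ t1
    exact gen T t0 t1 t2 (h2 ▸ hT _ t2)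
  · have hl : l ≠ 0 := by
      rintro rfl
      apply hb 3 (by omega)
      have : b 3 = 0 := by simpa using h3
      rw [this]
      exact zero_mem _
    obtain ⟨φ, p1, p2⟩ := exists_fun (hb 3 (by omega))
    obtain ⟨γ, hγ⟩ := split_eig α (b 3) (Units.mk0 l hl) φ p1 h3 fun x => by
      have hx : x ∈ Sp F b 4 := by rw [ht]; trivial
      have := map_mem_Sp (S := ⊥) (φ ∘ₗ ec α l) (fun j hj => by
        interval_cases j
        · simp [h0, p2 _ (mem_Sp b (show 0 < 3 by omega)), p2 _ (mem_Sp b (show 1 < 3 by omega))]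
        · simp [h1, p2 _ (mem_Sp b (show 2 < 3 by omega)), p2 _ (mem_Sp b (show 1 < 3 by omega))]
        · simp [p2 _ h2, p2 _ (mem_Sp b (show 2 < 3 by omega))]
        · simp [h3]) hx
      simpa [sub_eq_zero] using this
    have hs : Sim α (ext γ 0 (Units.mk0 l hl)) := ⟨_, hγ⟩
    have hf := finrank_ker_fun (b 3) φ p1
    let π : V →ₗ[F] LinearMap.ker φ :=
      LinearMap.fst F _ F ∘ₗ (split0 (b 3) φ p1 : V →ₗ[F] LinearMap.ker φ × F)
    have hπ : ∀ y, π (α y) = γ (π y) := fun y => congrArg Prod.fst (hγ y)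
    have hc : Cyc F γ (π (b 0)) := by
      intro T t0 hT
      have t1 : π (b 1) ∈ T := by rw [← h0, hπ]; exact hT _ t0
      have t2 : π (b 2) ∈ T := by rw [← h1, hπ]; exact hT _ t1
      have t3 : π (b 3) ∈ T := by
        have : π (b 3) = 0 := by
          ext
          simp [π, split0, p1]
        rw [this]
        exact zero_mem _
      have := gen (T.comap π) t0 t1 t2 t3
      rw [eq_top_iff]
      intro u _
      have h4 : (split0 (b 3) φ p1).symm (u, 0) ∈ T.comap π := by rw [this]; trivial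
      simpa [π] using h4
    have hy : Cy γ 1 := ⟨γ, PP.one (Sim.refl γ), _, hc⟩
    have hns : NS γ := by
      refine ⟨π (b 0), fun h => ?_⟩
      have h4 := hc (span F {π (b 0)}) (mem_span_singleton_self _) fun x hx => by
        obtain ⟨c, rfl⟩ := mem_span_singleton.1 hx
        rw [map_smul]
        exact smul_mem _ _ h
      have e3 : finrank F (span F {π (b 0)} : Submodule F (LinearMap.ker φ)) ≤ 1 := by
        simpa using finrank_span_le_card (R := F) ({π (b 0)} : Set (LinearMap.ker φ))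
      rw [h4, finrank_top] at e3
      omega
    exact fin2 (a := 1) (b := 2) hs hy hns (cy_ext1 hα (by omega) hs hy) (by omega) hβ hdd
  · by_cases hF : ∀ x y z : F, ∃ w, w ≠ x ∧ w ≠ y ∧ w ≠ z
    · exact tt_big hF hn hb h0 h1 h2 h3 hβ hdd
    · obtain ⟨p, p1, p2, p3⟩ := small_field hF
      exact tt_small p1 p2 p3 hn hb h0 h1 h2 h3 hβ hd'
  · exact absurd hα h

theorem main_lin [FiniteDimensional F V] {α β : V ≃ₗ[F] V} (hn : 3 ≤ finrank F V) (hα : NS α)
    (hβ : NS β) (hd : dt α = 1) (hd' : dt β = 1) : PP α (finrank F V) β := by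
  have hdd : dt β = dt α ^ finrank F V := by rw [hd, hd']; simp
  by_cases h : R2 α
  · rcases Nat.even_or_odd' (finrank F V) with ⟨k, hk | hk⟩
    · by_cases h4 : finrank F V = 4
      · rw [h4]
        exact main_four h4 h hβ hd hd'
      · exact main_even (k - 3) (by omega) h hβ hdd
    · exact main_odd (k - 1) (by omega) h hβ hdd
  · exact rank_one h hα hn hβ hdd

theorem pp_matrix {n : ℕ} (α : Matrix (Fin n) (Fin n) F) {A : (Fin n → F) ≃ₗ[F] (Fin n → F)}
    (hA : LinearMap.toMatrix' (A : (Fin n → F) →ₗ[F] (Fin n → F)) = α) {k : ℕ}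
    {x : (Fin n → F) ≃ₗ[F] (Fin n → F)} (h : PP A k x) :
    ∃ g : Fin k → Matrix.GeneralLinearGroup (Fin n) F,
      LinearMap.toMatrix' (x : (Fin n → F) →ₗ[F] (Fin n → F)) =
        (List.ofFn (fun i =>
          ((g i : Matrix.GeneralLinearGroup (Fin n) F) : Matrix (Fin n) (Fin n) F) * α *
            (((g i)⁻¹ : Matrix.GeneralLinearGroup (Fin n) F) : Matrix (Fin n) (Fin n) F))).prod := by
  induction h with
  | zero => exact ⟨Fin.elim0, by simp⟩
  | @succ k y x hy _ ih =>
    obtain ⟨g, hg⟩ := ih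
    obtain ⟨e, he⟩ := hy
    let u : Matrix.GeneralLinearGroup (Fin n) F :=
      ⟨LinearMap.toMatrix' (e : (Fin n → F) →ₗ[F] (Fin n → F)),
        LinearMap.toMatrix' (e.symm : (Fin n → F) →ₗ[F] (Fin n → F)),
        by rw [← LinearMap.toMatrix'_comp]; simp, by rw [← LinearMap.toMatrix'_comp]; simp⟩
    refine ⟨Fin.cons u g, ?_⟩
    rw [List.ofFn_succ, List.prod_cons]
    simp only [Fin.cons_zero, Fin.cons_succ]
    rw [← hg, LinearEquiv.coe_toLinearMap_mul, LinearMap.toMatrix'_mul]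
    congr 1
    change _ = LinearMap.toMatrix' (e : (Fin n → F) →ₗ[F] (Fin n → F)) * α *
      LinearMap.toMatrix' (e.symm : (Fin n → F) →ₗ[F] (Fin n → F))
    rw [← hA, ← LinearMap.toMatrix'_comp, ← LinearMap.toMatrix'_comp]
    congr 1
    apply LinearMap.ext
    intro v
    simp [he]

theorem sl_facts {n : ℕ} (α : Matrix.SpecialLinearGroup (Fin n) F)
    (h : α ∉ Subgroup.center (Matrix.SpecialLinearGroup (Fin n) F)) :
    ∃ A : (Fin n → F) ≃ₗ[F] (Fin n → F),
      LinearMap.toMatrix' (A : (Fin n → F) →ₗ[F] (Fin n → F)) = α ∧ NS A ∧ dt A = 1 := by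
  have h1 : LinearMap.toMatrix'
      (Matrix.SpecialLinearGroup.toLin' α : (Fin n → F) →ₗ[F] (Fin n → F)) = α := by
    rw [Matrix.SpecialLinearGroup.toLin'_to_linearMap, LinearMap.toMatrix'_toLin']
  refine ⟨Matrix.SpecialLinearGroup.toLin' α, h1, NS.of_not_scalar fun c => ?_, ?_⟩
  · by_contra hc
    push Not at hc
    apply h
    have h2 : (Matrix.SpecialLinearGroup.toLin' α : (Fin n → F) →ₗ[F] (Fin n → F)) =
        c • LinearMap.id := LinearMap.ext hc
    rw [h2] at h1
    rw [Subgroup.mem_center_iff]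
    intro g
    apply Subtype.ext
    simp [← h1]
  · unfold dt
    rw [← LinearMap.det_toMatrix', h1]
    exact α.2

end Pool.Agent.Lib.MP_485c8a_al
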