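import Pool.Agent.Lib.MP_485c8a_al.Four
import Pool.Agent.Lib.MP_485c8a_al.Cert

namespace Pool.Agent.Lib.MP_485c8a_al
open Module Submodule

variable {F : Type} [Field F]
variable {V : Type} [AddCommGroup V] [Module F V]

/-- cast of a vector -/
def cv (F : Type) [Field F] (v : V4) : Fin 4 → F := ![v.1, v.2.1, v.2.2.1, v.2.2.2]

/-- encoded linear map -/
noncomputable def lin (F : Type) [Field F] (p N t : ℕ) : (Fin 4 → F) →ₗ[F] (Fin 4 → F) :=
  Matrix.toLin' (Matrix.of fun i j : Fin 4 => (dg p N (16 * t + 4 * i + j) : F))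

theorem cast_mod {p : ℕ} (hp : (p : F) = 0) (n : ℕ) : ((n % p : ℕ) : F) = (n : F) := by
  conv_rhs => rw [← Nat.mod_add_div n p]
  simp [hp]

theorem lin_cv {p : ℕ} (hp : (p : F) = 0) (N t : ℕ) (v : V4) :
    lin F p N t (cv F v) = cv F (app p N t v) := by
  ext i
  fin_cases i <;>
    simp [lin, cv, app, row, Matrix.mulVec, dotProduct, Fin.sum_univ_four, cast_mod hp]

theorem dec4 (x : Fin 4 → F) : x = x 0 • cv F (1, 0, 0, 0) + x 1 • cv F (0, 1, 0, 0) +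
    x 2 • cv F (0, 0, 1, 0) + x 3 • cv F (0, 0, 0, 1) := by
  ext i
  fin_cases i <;> simp [cv]

theorem ext4 {f g : (Fin 4 → F) →ₗ[F] (Fin 4 → F)}
    (h0 : f (cv F (1, 0, 0, 0)) = g (cv F (1, 0, 0, 0)))
    (h1 : f (cv F (0, 1, 0, 0)) = g (cv F (0, 1, 0, 0)))
    (h2 : f (cv F (0, 0, 1, 0)) = g (cv F (0, 0, 1, 0)))
    (h3 : f (cv F (0, 0, 0, 1)) = g (cv F (0, 0, 0, 1))) : f = g := by
  apply LinearMap.ext
  intro x
  rw [dec4 x]
  simp only [map_add, map_smul, h0, h1, h2, h3]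

theorem conj_ok {p s d N t : ℕ} (hp : (p : F) = 0) {α : (Fin 4 → F) ≃ₗ[F] (Fin 4 → F)}
    (hα : ∀ v, α (cv F v) = cv F (apx p s d v)) (h : okI p N t) :
    ∃ A : (Fin 4 → F) ≃ₗ[F] (Fin 4 → F), Sim α A ∧ ∀ v, A (cv F v) = cv F (cjx p s d N t v) := by
  have h1 : lin F p N t ∘ₗ lin F p N (t + 1) = LinearMap.id := by
    obtain ⟨a, b, c, e⟩ := h
    apply ext4 <;> simp only [LinearMap.comp_apply, lin_cv hp, LinearMap.id_apply, a, b, c, e]
  have h2 : lin F p N (t + 1) ∘ₗ lin F p N t = LinearMap.id := (LinearMap.comp_eq_id_comm _ _).1 h1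
  refine ⟨cj (LinearEquiv.ofLinearMap _ _ h1 h2) α, sim_cj _ _, fun v => ?_⟩
  change lin F p N t (α (lin F p N (t + 1) (cv F v))) = _
  rw [lin_cv hp, hα, lin_cv hp]
  rfl

theorem sound {p s d N : ℕ} {c1 c2 c3 : V4} (hp : (p : F) = 0)
    {α β : (Fin 4 → F) ≃ₗ[F] (Fin 4 → F)} (hα : ∀ v, α (cv F v) = cv F (apx p s d v))
    (b0 : β (cv F (1, 0, 0, 0)) = cv F (0, 1, 0, 0)) (b1 : β (cv F (0, 1, 0, 0)) = cv F c1)
    (b2 : β (cv F (0, 0, 1, 0)) = cv F c2) (b3 : β (cv F (0, 0, 0, 1)) = cv F c3)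
    (h : okN p s d c1 c2 c3 N) : PP α 4 β := by
  obtain ⟨⟨i0, i1, i2, i3⟩, q0, q1, q2, q3⟩ := h
  obtain ⟨A0, s0, t0⟩ := conj_ok hp hα i0
  obtain ⟨A1, s1, t1⟩ := conj_ok hp hα i1
  obtain ⟨A2, s2, t2⟩ := conj_ok hp hα i2
  obtain ⟨A3, s3, t3⟩ := conj_ok hp hα i3
  have hp : ∀ v, (A0 * (A1 * (A2 * A3))) (cv F v) = cv F (prd p s d N v) := fun v => by
    simp only [LinearEquiv.mul_apply, t0, t1, t2, t3]
    rfl
  have : β = A0 * (A1 * (A2 * A3)) := by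
    apply LinearEquiv.toLinearMap_injective
    apply ext4 <;> simp only [LinearEquiv.coe_coe, hp, q0, q1, q2, q3, b0, b1, b2, b3]
  rw [this]
  exact PP.succ s0 (PP.succ s1 (PP.succ s2 (PP.one s3)))

theorem to_std [FiniteDimensional F V] (hn : finrank F V = 4) {b : ℕ → V}
    (hb : ∀ j < 4, b j ∉ Sp F b j) : ∃ g : V ≃ₗ[F] (Fin 4 → F), g (b 0) = cv F (1, 0, 0, 0) ∧
      g (b 1) = cv F (0, 1, 0, 0) ∧ g (b 2) = cv F (0, 0, 1, 0) ∧ g (b 3) = cv F (0, 0, 0, 1) := by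
  let e : ℕ → (Fin 4 → F) := fun j =>
    if j = 0 then cv F (1, 0, 0, 0) else if j = 1 then cv F (0, 1, 0, 0) else
      if j = 2 then cv F (0, 0, 1, 0) else cv F (0, 0, 0, 1)
  have he : Sp F e 4 = ⊤ := by
    rw [eq_top_iff]
    rintro x -
    have : x = x 0 • e 0 + x 1 • e 1 + x 2 • e 2 + x 3 • e 3 := dec4 x
    rw [this]
    refine add_mem (add_mem (add_mem ?_ ?_) ?_) ?_ <;>
      exact smul_mem _ _ (mem_Sp e (by omega))
  obtain ⟨g, hg⟩ := exists_equiv b e hn (by simp) (Sp_eq_top b hn hb) he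
  exact ⟨g, hg 0 (by omega), hg 1 (by omega), hg 2 (by omega), hg 3 (by omega)⟩

theorem dt4 {β : (Fin 4 → F) ≃ₗ[F] (Fin 4 → F)} {c0 c1 c2 c3 : V4}
    (b0 : β (cv F (1, 0, 0, 0)) = cv F c0) (b1 : β (cv F (0, 1, 0, 0)) = cv F c1)
    (b2 : β (cv F (0, 0, 1, 0)) = cv F c2) (b3 : β (cv F (0, 0, 0, 1)) = cv F c3) :
    dt β = Matrix.det (Matrix.of ![cv F c0, cv F c1, cv F c2, cv F c3]) := by
  unfold dt
  rw [← Matrix.det_transpose, ← LinearMap.det_toLin']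
  congr 1
  apply ext4
  · rw [LinearEquiv.coe_coe, b0]
    ext i
    simp [cv, Matrix.mulVec, dotProduct, Fin.sum_univ_four]
  · rw [LinearEquiv.coe_coe, b1]
    ext i
    simp [cv, Matrix.mulVec, dotProduct, Fin.sum_univ_four]
  · rw [LinearEquiv.coe_coe, b2]
    ext i
    simp [cv, Matrix.mulVec, dotProduct, Fin.sum_univ_four]
  · rw [LinearEquiv.coe_coe, b3]
    ext i
    simp [cv, Matrix.mulVec, dotProduct, Fin.sum_univ_four]

theorem mod_eq {p : ℕ} (hp2 : p = 2 ∨ p = 3) (hp : (p : F) = 0) {a r : ℕ} (hr : r < p)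
    (h : (a : F) = (r : F)) : a % p = r := by
  have hpr : p.Prime := by rcases hp2 with rfl | rfl <;> norm_num
  have : CharP F p := (CharP.charP_iff_prime_eq_zero hpr).2 hp
  have h1 := (CharP.natCast_eq_natCast F p).1 h
  rw [Nat.ModEq, Nat.mod_eq_of_lt hr] at h1
  exact h1

theorem tt_small [FiniteDimensional F V] {p : ℕ} (hp2 : p = 2 ∨ p = 3) (hp : (p : F) = 0)
    (hF : ∀ x : F, ∃ k < p, x = (k : F))
    {α β : V ≃ₗ[F] V} (hn : finrank F V = 4) {b : ℕ → V} (hb : ∀ j < 4, b j ∉ Sp F b j)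
    {s d : F} (h0 : α (b 0) = b 1) (h1 : α (b 1) = s • b 1 + d • b 0) (h2 : α (b 2) = b 3)
    (h3 : α (b 3) = s • b 3 + d • b 2) (hβ : NS β) (hd : dt β = 1) : PP α 4 β := by
  have hd0 : d ≠ 0 := by
    rintro rfl
    apply hb 1 (by omega)
    have : b 1 = s • b 0 := by
      apply α.injective
      rw [h1, map_smul, h0]
      simp
    rw [this]
    exact smul_mem _ _ (mem_Sp b (by omega))
  obtain ⟨s, hs, rfl⟩ := hF s
  obtain ⟨d, hd', rfl⟩ := hF d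
  obtain ⟨k1, k2, k3, k4⟩ := allOk_of hp2 hs hd' (by rintro rfl; simp at hd0)
  obtain ⟨g, g0, g1, g2, g3⟩ := to_std hn hb
  have hα : ∀ v, cj g α (cv F v) = cv F (apx p s d v) := by
    intro v
    have e : ∀ x, cj g α (g x) = g (α x) := fun x => by simp
    rw [dec4 (cv F v)]
    simp only [map_add, map_smul]
    rw [← g0, ← g1, ← g2, ← g3, e, e, e, e, h0, h1, h2, h3]
    simp only [map_add, map_smul, g0, g1, g2, g3]
    ext i
    fin_cases i <;> simp [cv, apx, cast_mod hp] <;> ring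
  refine PP.left ?_ (sim_cj g α)
  obtain ⟨c, hc, c0, hcs⟩ := nf4 hβ hn
  obtain ⟨f, f0, f1, f2, f3⟩ := to_std hn hc
  refine PP.sim ?_ (sim_cj f β).symm
  rw [(sim_cj f β).dt_eq] at hd
  have e : ∀ x, cj f β (f x) = f (β x) := fun x => by simp
  have b0 : cj f β (cv F (1, 0, 0, 0)) = cv F (0, 1, 0, 0) := by rw [← f0, e, c0, f1]
  have hp1 : 1 < p := by omega
  rcases hcs with ⟨c1, c2⟩ | ⟨c1, c2, l, c3⟩ | ⟨a, r, c1, c2, c3⟩ | ⟨-, a, r, l, c1, c2, c3⟩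
  · obtain ⟨w3, w2, w1, w0, c3⟩ := mem_Sp_four (F := F) (b := c) (x := β (c 3))
      (by rw [Sp_eq_top c hn hc]; trivial)
    obtain ⟨w0, q0, rfl⟩ := hF w0
    obtain ⟨w1, q1, rfl⟩ := hF w1
    obtain ⟨w2, q2, rfl⟩ := hF w2
    obtain ⟨w3, q3, rfl⟩ := hF w3
    have b1 : cj f β (cv F (0, 1, 0, 0)) = cv F (0, 0, 1, 0) := by rw [← f1, e, c1, f2]
    have b2 : cj f β (cv F (0, 0, 1, 0)) = cv F (0, 0, 0, 1) := by rw [← f2, e, c2, f3]
    have b3 : cj f β (cv F (0, 0, 0, 1)) = cv F (w0, w1, w2, w3) := by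
      rw [← f3, e, c3]
      simp only [map_add, map_smul, f0, f1, f2, f3]
      ext i
      fin_cases i <;> simp [cv]
    rw [dt4 b0 b1 b2 b3] at hd
    simp [cv, Matrix.det_succ_row_zero, Fin.sum_univ_succ, Fin.succAbove] at hd
    exact sound hp hα b0 b1 b2 b3 (k1 w0 q0 w1 q1 w2 q2 w3 q3
      (mod_eq hp2 hp (by omega) (by push_cast; linear_combination -hd)))
  · obtain ⟨w2, w1, w0, c2⟩ := mem_Sp_three c2
    obtain ⟨w0, q0, rfl⟩ := hF w0
    obtain ⟨w1, q1, rfl⟩ := hF w1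
    obtain ⟨w2, q2, rfl⟩ := hF w2
    obtain ⟨l, q3, rfl⟩ := hF l
    have b1 : cj f β (cv F (0, 1, 0, 0)) = cv F (0, 0, 1, 0) := by rw [← f1, e, c1, f2]
    have b2 : cj f β (cv F (0, 0, 1, 0)) = cv F (w0, w1, w2, 0) := by
      rw [← f2, e, c2]
      simp only [map_add, map_smul, f0, f1, f2]
      ext i
      fin_cases i <;> simp [cv]
    have b3 : cj f β (cv F (0, 0, 0, 1)) = cv F (0, 0, 0, l) := by
      rw [← f3, e, c3]
      simp only [map_smul, f3]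
      ext i
      fin_cases i <;> simp [cv]
    rw [dt4 b0 b1 b2 b3] at hd
    simp [cv, Matrix.det_succ_row_zero, Fin.sum_univ_succ, Fin.succAbove] at hd
    exact sound hp hα b0 b1 b2 b3 (k2 w0 q0 w1 q1 w2 q2 l q3
      (mod_eq hp2 hp hp1 (by push_cast; linear_combination hd)))
  · obtain ⟨a, q0, rfl⟩ := hF a
    obtain ⟨r, q1, rfl⟩ := hF r
    have b1 : cj f β (cv F (0, 1, 0, 0)) = cv F (r, a, 0, 0) := by
      rw [← f1, e, c1]
      simp only [map_add, map_smul, f0, f1]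
      ext i
      fin_cases i <;> simp [cv]
    have b2 : cj f β (cv F (0, 0, 1, 0)) = cv F (0, 0, 0, 1) := by rw [← f2, e, c2, f3]
    have b3 : cj f β (cv F (0, 0, 0, 1)) = cv F (0, 0, r, a) := by
      rw [← f3, e, c3]
      simp only [map_add, map_smul, f2, f3]
      ext i
      fin_cases i <;> simp [cv]
    rw [dt4 b0 b1 b2 b3] at hd
    simp [cv, Matrix.det_succ_row_zero, Fin.sum_univ_succ, Fin.succAbove] at hd
    exact sound hp hα b0 b1 b2 b3 (k3 a q0 r q1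
      (mod_eq hp2 hp hp1 (by push_cast; linear_combination hd)))
  · obtain ⟨a, q0, rfl⟩ := hF a
    obtain ⟨r, q1, rfl⟩ := hF r
    obtain ⟨l, q3, rfl⟩ := hF l
    have b1 : cj f β (cv F (0, 1, 0, 0)) = cv F (r, a, 0, 0) := by
      rw [← f1, e, c1]
      simp only [map_add, map_smul, f0, f1]
      ext i
      fin_cases i <;> simp [cv]
    have b2 : cj f β (cv F (0, 0, 1, 0)) = cv F (0, 0, l, 0) := by
      rw [← f2, e, c2]
      simp only [map_smul, f2]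
      ext i
      fin_cases i <;> simp [cv]
    have b3 : cj f β (cv F (0, 0, 0, 1)) = cv F (0, 0, 0, l) := by
      rw [← f3, e, c3]
      simp only [map_smul, f3]
      ext i
      fin_cases i <;> simp [cv]
    rw [dt4 b0 b1 b2 b3] at hd
    simp [cv, Matrix.det_succ_row_zero, Fin.sum_univ_succ, Fin.succAbove] at hd
    exact sound hp hα b0 b1 b2 b3 (k4 a q0 r q1 l q3
      (mod_eq hp2 hp (by omega) (by push_cast; linear_combination -hd)))

end Pool.Agent.Lib.MP_485c8a_al
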