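import Pool.Agent.Lib.MP_485c8a_al.Big

namespace Pool.Agent.Lib.MP_485c8a_al
open Module Submodule

variable {F : Type} [Field F]
variable {V : Type} [AddCommGroup V] [Module F V]
variable {W : Type} [AddCommGroup W] [Module F W]
variable {U : Type} [AddCommGroup U] [Module F U]

theorem split_eig [FiniteDimensional F V] (A : V ≃ₗ[F] V) (e : V) (l : Fˣ) (φ : V →ₗ[F] F)
    (h1 : φ e = 1) (h2 : A e = (l : F) • e) (h3 : ∀ x, φ (A x) = l * φ x) :
    ∃ γ : LinearMap.ker φ ≃ₗ[F] LinearMap.ker φ,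
      ∀ y, split0 e φ h1 (A y) = ext γ 0 l (split0 e φ h1 y) := by
  have hm : ∀ x ∈ LinearMap.ker φ, (A : V →ₗ[F] V) x ∈ LinearMap.ker φ := by
    intro x hx
    have : φ x = 0 := hx
    simp [h3, this]
  have hi : Function.Injective ((A : V →ₗ[F] V).restrict hm) := by
    intro x y h
    exact Subtype.ext (A.injective (congrArg Subtype.val h))
  refine ⟨LinearEquiv.ofInjectiveEndo _ hi, fun y => ?_⟩
  ext
  · change A y - φ (A y) • e = A (y - φ y • e)
    rw [map_sub, map_smul, h2, h3, smul_smul, mul_comm]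
  · change φ (A y) = l * φ y + 0
    rw [h3, add_zero]

theorem Sim.rank [FiniteDimensional F V] {A : V ≃ₗ[F] V} {B : W ≃ₗ[F] W} (h : Sim A B) (c : F) :
    finrank F (LinearMap.range (ec A c)) = finrank F (LinearMap.range (ec B c)) := by
  obtain ⟨e, he⟩ := h
  rw [← LinearEquiv.finrank_map_eq e]
  suffices h : map (e : V →ₗ[F] W) (LinearMap.range (ec A c)) = LinearMap.range (ec B c) by rw [h]
  ext y
  constructor
  · rintro ⟨_, ⟨x, rfl⟩, rfl⟩
    exact ⟨e x, by simp [he]⟩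
  · rintro ⟨x, rfl⟩
    refine ⟨_, ⟨e.symm x, rfl⟩, ?_⟩
    simp [he]

theorem rank_ext [FiniteDimensional F U] (γ : U ≃ₗ[F] U) (l : Fˣ) :
    finrank F (LinearMap.range (ec (ext γ 0 l) l)) = finrank F (LinearMap.range (ec γ l)) := by
  rw [(Submodule.equivMapOfInjective (LinearMap.inl F U F) LinearMap.inl_injective _).finrank_eq]
  suffices h : LinearMap.range (ec (ext γ 0 l) l) =
      map (LinearMap.inl F U F) (LinearMap.range (ec γ l)) by rw [h]
  ext y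
  constructor
  · rintro ⟨x, rfl⟩
    refine ⟨_, ⟨x.1, rfl⟩, ?_⟩
    ext <;> simp
  · rintro ⟨_, ⟨x, rfl⟩, rfl⟩
    refine ⟨(x, 0), ?_⟩
    ext <;> simp

theorem split_big [FiniteDimensional F V] (A : V ≃ₗ[F] V) (c : F)
    (h : 2 * finrank F (LinearMap.range (ec A c)) + 1 ≤ finrank F V) :
    ∃ (U : Type) (_ : AddCommGroup U) (_ : Module F U) (_ : FiniteDimensional F U)
      (γ : U ≃ₗ[F] U) (l : Fˣ), (l : F) = c ∧ Sim A (ext γ 0 l) ∧ finrank F U + 1 = finrank F V ∧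
      finrank F (LinearMap.range (ec γ c)) = finrank F (LinearMap.range (ec A c)) := by
  have h1 := LinearMap.finrank_range_add_finrank_ker (ec A c)
  have h2 : ¬ LinearMap.ker (ec A c) ≤ LinearMap.range (ec A c) := fun hle => by
    have := Submodule.finrank_mono hle
    omega
  obtain ⟨e, he1, he2⟩ := SetLike.not_le_iff_exists.1 h2
  have he3 : A e = c • e := by simpa [sub_eq_zero] using he1
  have hc : c ≠ 0 := by
    rintro rfl
    have : e = 0 := by simpa using he3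
    exact he2 (this ▸ zero_mem _)
  obtain ⟨φ, p1, p2⟩ := exists_fun he2
  obtain ⟨γ, hγ⟩ := split_eig A e (Units.mk0 c hc) φ p1 he3 fun x => by
    have := p2 _ ⟨x, rfl⟩
    simpa [sub_eq_zero] using this
  have hs : Sim A (ext γ 0 (Units.mk0 c hc)) := ⟨_, hγ⟩
  exact ⟨LinearMap.ker φ, inferInstance, inferInstance, inferInstance, γ, Units.mk0 c hc, rfl, hs,
    finrank_ker_fun e φ p1, by rw [hs.rank c]; exact (rank_ext γ (Units.mk0 c hc)).symm⟩

theorem r2_of_big [FiniteDimensional F U] {γ : U ≃ₗ[F] U} {c : F}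
    (h1 : 2 ≤ finrank F (LinearMap.range (ec γ c)))
    (h2 : finrank F (LinearMap.range (ec γ c)) + 2 ≤ finrank F U) : R2 γ := by
  refine R2.of_rank fun d => ?_
  by_cases hd : d = c
  · rwa [hd]
  have h3 := LinearMap.finrank_range_add_finrank_ker (ec γ c)
  have h4 : LinearMap.ker (ec γ c) ≤ LinearMap.range (ec γ d) := by
    intro x hx
    have h5 : γ x = c • x := by simpa [sub_eq_zero] using hx
    have h6 : c - d ≠ 0 := sub_ne_zero.2 (Ne.symm hd)
    refine ⟨(c - d)⁻¹ • x, ?_⟩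
    rw [map_smul, ec_apply, h5, ← sub_smul, smul_smul, inv_mul_cancel₀ h6, one_smul]
  have := Submodule.finrank_mono h4
  omega

theorem cy_ext2 [FiniteDimensional F V] [FiniteDimensional F W] {A : V ≃ₗ[F] V} (hA : R2 A)
    (hn : 3 ≤ finrank F V) {Y : W ≃ₗ[F] W} {a : ℕ} (hY : PP A a Y) (hW : finrank F V = finrank F W)
    {x e1 e2 : W} {μ : F} (hμ : μ ≠ 0) (h1 : Y e1 = μ • e1) (h2 : Y e2 = μ • e2)
    (hg : ∀ T : Submodule F W, x ∈ T → e1 ∈ T → e2 ∈ T → (∀ x ∈ T, Y x ∈ T) → T = ⊤) :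
    Cy A (a + 1) := by
  obtain ⟨k, b, c, p1, p2⟩ := pat_two hA hn
  obtain ⟨A', q1, q2⟩ := cyc_mul2 hW p1 p2 hμ h1 h2 hg
  exact ⟨_, (hY.sim q1).mul (PP.one (Sim.refl A)), q2⟩

theorem gen_ext {X : U ≃ₗ[F] U} (l : Fˣ) (T : Submodule F (U × F))
    (h1 : ((0, 1) : U × F) ∈ T) (hT : ∀ x ∈ T, ext X 0 l x ∈ T)
    (h : (∀ x ∈ T.comap (LinearMap.inl F U F), X x ∈ T.comap (LinearMap.inl F U F)) →
      T.comap (LinearMap.inl F U F) = ⊤) : T = ⊤ := by
  have h3 := h fun u hu => by simpa using hT _ hu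
  rw [eq_top_iff]
  rintro ⟨u, t⟩ -
  have h4 : u ∈ T.comap (LinearMap.inl F U F) := by rw [h3]; trivial
  have : ((u, t) : U × F) = (u, 0) + t • (0, 1) := by simp
  rw [this]
  exact T.add_mem h4 (T.smul_mem _ h1)

theorem cy_ext1 [FiniteDimensional F V] [FiniteDimensional F U] {A : V ≃ₗ[F] V} (hA : R2 A)
    (hn : 3 ≤ finrank F V) {γ : U ≃ₗ[F] U} {l : Fˣ} (hs : Sim A (ext γ 0 l)) {a : ℕ}
    (ha : Cy γ a) : Cy A (a + 1) := by
  obtain ⟨X, h1, x, h2⟩ := ha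
  refine cy_ext2 hA hn ((h1.ext0 l).left hs) hs.finrank_eq (x := (x, 0)) (e1 := (0, 1))
    (e2 := (0, 1)) (Units.ne_zero (l ^ a)) (by simp) (by simp) fun T t1 t2 _ t3 => ?_
  exact gen_ext _ T t2 t3 (h2 _ t1)

theorem cy_odd (a : ℕ) : ∀ (V : Type) [AddCommGroup V] [Module F V] [FiniteDimensional F V]
    (A : V ≃ₗ[F] V), finrank F V = 2 * (a + 1) + 1 → R2 A → Cy A (a + 1) := by
  induction a with
  | zero =>
    intro V _ _ _ A hn hA
    exact ⟨A, PP.one (Sim.refl A), cyc_three hA hn⟩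
  | succ a ih =>
    intro V _ _ _ A hn hA
    by_cases hk : ∀ c, 2 * finrank F (LinearMap.ker (ec A c)) ≤ finrank F V + 1
    · exact (cy_two (by omega) hk).mono (by omega) (by omega)
    push Not at hk
    obtain ⟨c, hc⟩ := hk
    have h1 := LinearMap.finrank_range_add_finrank_ker (ec A c)
    have h2 := hA.rank c
    obtain ⟨U, _, _, _, γ, l, rfl, s1, s2, s3⟩ := split_big A c (by omega)
    obtain ⟨U', _, _, _, γ', l', hl, t1, t2, t3⟩ := split_big γ l (by omega)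
    have hl' : l' = l := Units.ext hl
    subst hl'
    obtain ⟨X, p1, x, p2⟩ := ih U' γ' (by omega) (r2_of_big (c := l') (by omega) (by omega))
    have hs : Sim A (ext (ext γ' 0 l') 0 l') := s1.trans (ext_sim _ _ _ t1)
    refine cy_ext2 hA (by omega) (((p1.ext0 l').ext0 l').left hs) hs.finrank_eq
      (x := ((x, 0), 0)) (e1 := ((0, 1), 0))
      (e2 := (0, 1)) (Units.ne_zero (l' ^ (a + 1))) (by simp) (by simp) fun T u1 u2 u3 u4 => ?_
    exact gen_ext _ T u3 u4 fun u5 => gen_ext _ _ u2 u5 (p2 _ u1)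

theorem main_odd [FiniteDimensional F V] {α β : V ≃ₗ[F] V} (a : ℕ)
    (hn : finrank F V = 2 * (a + 1) + 1) (hα : R2 α) (hβ : NS β)
    (hd : dt β = dt α ^ finrank F V) : PP α (finrank F V) β :=
  fin1 (cy_odd a V α hn hα) hα.ns (by omega) (by omega) hβ hd

theorem main_even [FiniteDimensional F V] {α β : V ≃ₗ[F] V} (a : ℕ)
    (hn : finrank F V = 2 * (a + 3)) (hα : R2 α) (hβ : NS β)
    (hd : dt β = dt α ^ finrank F V) : PP α (finrank F V) β := by
  by_cases hk : ∀ c, 2 * finrank F (LinearMap.ker (ec α c)) ≤ finrank F V + 1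
  · exact fin1 (cy_two (by omega) hk) hα.ns (by omega) (by omega) hβ hd
  push Not at hk
  obtain ⟨c, hc⟩ := hk
  have h1 := LinearMap.finrank_range_add_finrank_ker (ec α c)
  have h2 := hα.rank c
  obtain ⟨U, _, _, _, γ, l, rfl, s1, s2, s3⟩ := split_big α c (by omega)
  have hγ : R2 γ := r2_of_big (c := l) (by omega) (by omega)
  have h3 := cy_odd (a + 1) U γ (by omega) hγ
  have e : finrank F V = (a + 1 + 1 + 1) + (a + 1 + 1 + 1) := by omega
  rw [e] at hd ⊢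
  exact fin2 s1 h3 hγ.ns (cy_ext1 hα (by omega) s1 h3) (by omega) hβ hd

theorem lift_eig [FiniteDimensional F V] {A : V ≃ₗ[F] V} {k : ℕ} {b : ℕ → V} {c : ℕ → ℕ}
    (h : Pat A k b c) (hc : k ≤ c k) (hg : Good A (b 0)) (hn : k + 1 < finrank F V) (l : F)
    (hl : ∀ x, A x - l • x ∈ Sp F b (k + 1)) :
    finrank F (LinearMap.range (ec A l)) ≤ k ∧
      ∀ x, ∃ s ∈ Sp F b (k + 1), A (x - s) = l • (x - s) := by
  have h1 := finrank_Sp_le (F := F) b (k + 1)
  have h2 := hg.range_lt l (mem_Sp b (show 0 < k + 1 by omega)) (by omega) hl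
  refine ⟨by omega, fun x => ?_⟩
  let y : ℕ → V := fun i => ec A l (b i)
  have h3 : ∀ i ≤ k, Sp F y i ≤ Sp F b (i + 1) := fun i hi => Sp_le fun j hj => by
    simp only [y, ec_apply]
    rw [← h.allT hc j (by omega)]
    exact sub_mem (mem_Sp b (by omega)) (smul_mem _ _ (mem_Sp b (by omega)))
  have h4 := le_finrank_Sp (F := F) y k fun j hj hy => by
    have h5 := h3 j (by omega) hy
    simp only [y, ec_apply] at h5
    rw [← h.allT hc j hj] at h5
    apply h.1 (j + 1) (by omega)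
    have : b (j + 1) = (b (j + 1) - l • b j) + l • b j := by abel
    rw [this]
    exact add_mem h5 (smul_mem _ _ (mem_Sp b (by omega)))
  have h5 : Sp F y k ≤ (Sp F b (k + 1)).map (ec A l) := Sp_le fun j hj =>
    ⟨b j, mem_Sp b (by omega), rfl⟩
  have h6 := Submodule.finrank_mono h5
  have h7 := Submodule.eq_of_le_of_finrank_le
    (LinearMap.map_le_range (f := ec A l) (p := Sp F b (k + 1))) (by omega)
  have h8 : ec A l x ∈ (Sp F b (k + 1)).map (ec A l) := by rw [h7]; exact ⟨x, rfl⟩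
  obtain ⟨s, hs, h9⟩ := h8
  refine ⟨s, hs, ?_⟩
  have : ec A l (x - s) = 0 := by rw [map_sub, h9, sub_self]
  simpa [sub_eq_zero] using this

theorem sub_notMem {S : Submodule F V} {x s : V} (hx : x ∉ S) (hs : s ∈ S) : x - s ∉ S :=
  fun h => hx (by simpa using S.add_mem h hs)

theorem mem_Sp_two {b : ℕ → V} {x : V} (h : x ∈ Sp F b 2) : ∃ s d : F, x = s • b 1 + d • b 0 := by
  rw [Sp_succ, mem_sup_span] at h
  obtain ⟨s, h⟩ := h
  rw [Sp_succ, mem_sup_span] at h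
  obtain ⟨d, h⟩ := h
  rw [Sp_zero, mem_bot] at h
  refine ⟨s, d, ?_⟩
  rw [← sub_eq_zero, ← h]
  abel

theorem mem_Sp_three {b : ℕ → V} {x : V} (h : x ∈ Sp F b 3) :
    ∃ r s d : F, x = r • b 2 + s • b 1 + d • b 0 := by
  rw [Sp_succ, mem_sup_span] at h
  obtain ⟨r, h⟩ := h
  obtain ⟨s, d, h⟩ := mem_Sp_two h
  refine ⟨r, s, d, ?_⟩
  rw [add_assoc, ← h]
  abel

theorem mem_Sp_four {b : ℕ → V} {x : V} (h : x ∈ Sp F b 4) :
    ∃ q r s d : F, x = q • b 3 + r • b 2 + s • b 1 + d • b 0 := by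
  rw [Sp_succ, mem_sup_span] at h
  obtain ⟨q, h⟩ := h
  obtain ⟨r, s, d, h⟩ := mem_Sp_three h
  refine ⟨q, r, s, d, ?_⟩
  rw [add_assoc, add_assoc, ← add_assoc (r • b 2), ← h]
  abel

theorem nf4 [FiniteDimensional F V] {A : V ≃ₗ[F] V} (hA : NS A) (hn : finrank F V = 4) :
    ∃ b : ℕ → V, (∀ j < 4, b j ∉ Sp F b j) ∧ A (b 0) = b 1 ∧
      ((A (b 1) = b 2 ∧ A (b 2) = b 3) ∨
      (A (b 1) = b 2 ∧ A (b 2) ∈ Sp F b 3 ∧ ∃ l : F, A (b 3) = l • b 3) ∨
      (∃ s d : F, A (b 1) = s • b 1 + d • b 0 ∧ A (b 2) = b 3 ∧ A (b 3) = s • b 3 + d • b 2) ∨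
      (¬ R2 A ∧ ∃ s d l : F, A (b 1) = s • b 1 + d • b 0 ∧ A (b 2) = l • b 2 ∧
        A (b 3) = l • b 3)) := by
  obtain ⟨v, hv⟩ := exists_good A
  obtain ⟨b, c, h1, h2, h3, h4⟩ := pat_one (hv.ns hA)
  by_cases hT : A (b 1) ∈ Sp F b 2
  · obtain ⟨s, d, hsd⟩ := mem_Sp_two hT
    by_cases hu : ∀ x, ∃ c : F, A x - c • x ∈ Sp F b 2
    · obtain ⟨l, hl⟩ := scalar_mod ⊤ (Sp F b 2) (A : V →ₗ[F] V) fun x _ => hu x
      obtain ⟨r1, r2⟩ := lift_eig h1 (by omega) (h2 ▸ hv) (by omega) l fun x => hl x trivial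
      obtain ⟨x, hx⟩ := exists_notMem_of_lt (Sp F b 2)
        (lt_of_le_of_lt (finrank_Sp_le _ _) (by omega))
      obtain ⟨s1, hs1, e1⟩ := r2 x
      obtain ⟨b2, c2, p1, p2, p3, -⟩ := h1.step (x - s1) (sub_notMem hx hs1) _ (Or.inr ⟨rfl, hT⟩)
      obtain ⟨y, hy⟩ := exists_notMem_of_lt (Sp F b2 3)
        (lt_of_le_of_lt (finrank_Sp_le _ _) (by omega))
      obtain ⟨s2, hs2, e2⟩ := r2 y
      have hs2' : s2 ∈ Sp F b2 3 := by
        rw [← Sp_congr (e := b2) (e' := b) fun j hj => p2 j (by omega)] at hs2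
        exact Sp_mono b2 (by omega) hs2
      obtain ⟨b3, c3, q1, q2, q3, -⟩ := p1.step (y - s2) (sub_notMem hy hs2') _ (Or.inr ⟨rfl, by
        rw [p3, e1, ← p3]
        exact smul_mem _ _ (mem_Sp b2 (by omega))⟩)
      refine ⟨b3, fun j hj => q1.1 j (by omega), ?_, Or.inr (Or.inr (Or.inr ⟨fun h => ?_,
        s, d, l, ?_, ?_, ?_⟩))⟩
      · rw [q2 0 (by omega), q2 1 (by omega), p2 0 (by omega), p2 1 (by omega), h2, h3]
      · have := h.rank l
        omega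
      · rw [q2 0 (by omega), q2 1 (by omega), p2 0 (by omega), p2 1 (by omega), hsd]
      · rw [q2 2 (by omega), p3, e1]
      · rw [q3, e2]
    · push Not at hu
      obtain ⟨u, hu⟩ := hu
      have hu0 : u ∉ Sp F b 2 := fun h => hu 0 (by simpa using h1.inv' hT u h)
      obtain ⟨b2, c2, p1, p2, p3, p4⟩ := h1.step u hu0 _ (Or.inr ⟨rfl, hT⟩)
      have e : Sp F b2 3 = Sp F b 2 ⊔ span F {u} := by
        rw [Sp_succ, p3, Sp_congr (e := b2) (e' := b) fun j hj => p2 j (by omega)]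
      obtain ⟨b3, c3, q1, q2, q3, -⟩ := p1.step (A (b2 2)) (by
        rw [e, p3, mem_sup_span]
        rintro ⟨d, hd⟩
        exact hu d hd) _ (Or.inl ⟨rfl, rfl⟩)
      refine ⟨b3, fun j hj => q1.1 j (by omega), ?_, Or.inr (Or.inr (Or.inl ⟨s, d, ?_, ?_, ?_⟩))⟩
      · rw [q2 0 (by omega), q2 1 (by omega), p2 0 (by omega), p2 1 (by omega), h2, h3]
      · rw [q2 0 (by omega), q2 1 (by omega), p2 0 (by omega), p2 1 (by omega), hsd]
      · rw [q3, q2 2 (by omega)]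
      · rw [q3, q2 2 (by omega)]
        rw [h2, h3] at hsd
        exact hv.2.2 s d hsd _
  · obtain ⟨b2, c2, p1, p2, p3, p4⟩ := h1.step _ hT _ (Or.inl ⟨rfl, rfl⟩)
    by_cases hT2 : A (b2 2) ∈ Sp F b2 3
    · obtain ⟨l, hl⟩ := scalar_mod ⊤ (Sp F b2 3) (A : V →ₗ[F] V) fun x _ => by
        by_cases hx : x ∈ Sp F b2 3
        · exact ⟨0, by simpa using p1.inv' hT2 x hx⟩
        · obtain ⟨b3, c3, q1, q2, q3, -⟩ := p1.step x hx _ (Or.inr ⟨rfl, hT2⟩)
          have h5 : A x ∈ Sp F b3 4 := by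
            rw [Sp_eq_top b3 hn fun j hj => q1.1 j (by omega)]
            trivial
          rw [Sp_succ, q3, Sp_congr (e := b3) (e' := b2) fun j hj => q2 j (by omega),
            mem_sup_span] at h5
          exact h5
      obtain ⟨-, r2⟩ := lift_eig p1 (by omega) (by rw [p2 0 (by omega), h2]; exact hv) (by omega) l
        fun x => hl x trivial
      obtain ⟨x, hx⟩ := exists_notMem_of_lt (Sp F b2 3)
        (lt_of_le_of_lt (finrank_Sp_le _ _) (by omega))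
      obtain ⟨s1, hs1, e1⟩ := r2 x
      obtain ⟨b3, c3, q1, q2, q3, -⟩ := p1.step (x - s1) (sub_notMem hx hs1) _ (Or.inr ⟨rfl, hT2⟩)
      refine ⟨b3, fun j hj => q1.1 j (by omega), ?_, Or.inr (Or.inl ⟨?_, ?_, l, ?_⟩)⟩
      · rw [q2 0 (by omega), q2 1 (by omega), p2 0 (by omega), p2 1 (by omega), h2, h3]
      · rw [q2 2 (by omega), q2 1 (by omega), p2 1 (by omega), p3]
      · rw [q2 2 (by omega), Sp_congr (e := b3) (e' := b2) fun j hj => q2 j (by omega)]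
        exact hT2
      · rw [q3, e1]
    · obtain ⟨b3, c3, q1, q2, q3, -⟩ := p1.step _ hT2 _ (Or.inl ⟨rfl, rfl⟩)
      refine ⟨b3, fun j hj => q1.1 j (by omega), ?_, Or.inl ⟨?_, ?_⟩⟩
      · rw [q2 0 (by omega), q2 1 (by omega), p2 0 (by omega), p2 1 (by omega), h2, h3]
      · rw [q2 2 (by omega), q2 1 (by omega), p2 1 (by omega), p3]
      · rw [q3, q2 2 (by omega)]

end Pool.Agent.Lib.MP_485c8a_al
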