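import Pool.Agent.Lib.MP_485c8a_al.Basic

namespace Pool.Agent.Lib.MP_485c8a_al
open Module Submodule

variable {F : Type} [Field F]
variable {V : Type} [AddCommGroup V] [Module F V]
variable {W : Type} [AddCommGroup W] [Module F W]

/-- Hessenberg pattern of length `m + 1` -/
def Pat (B : V ≃ₗ[F] V) (m : ℕ) (b : ℕ → V) (c : ℕ → ℕ) : Prop :=
  (∀ j ≤ m, b j ∉ Sp F b j) ∧ c 0 = 0 ∧
    ∀ j < m, (c (j + 1) = c j + 1 ∧ b (j + 1) = B (b j)) ∨
      (c (j + 1) = c j ∧ B (b j) ∈ Sp F b (j + 1))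

theorem Pat.step {B : V ≃ₗ[F] V} {m : ℕ} {b : ℕ → V} {c : ℕ → ℕ} (h : Pat B m b c) (x : V)
    (hx : x ∉ Sp F b (m + 1)) (k : ℕ)
    (hk : (k = c m + 1 ∧ x = B (b m)) ∨ (k = c m ∧ B (b m) ∈ Sp F b (m + 1))) :
    ∃ b' c', Pat B (m + 1) b' c' ∧ (∀ j ≤ m, b' j = b j) ∧ b' (m + 1) = x ∧ c' (m + 1) = k := by
  have e1 : ∀ j ≤ m, Function.update b (m + 1) x j = b j := fun j hj =>
    Function.update_of_ne (by omega) _ _
  have e2 : ∀ j ≤ m, Function.update c (m + 1) k j = c j := fun j hj =>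
    Function.update_of_ne (by omega) _ _
  have e3 : ∀ j ≤ m + 1, Sp F (Function.update b (m + 1) x) j = Sp F b j := fun j hj =>
    Sp_congr fun i hi => e1 i (by omega)
  refine ⟨Function.update b (m + 1) x, Function.update c (m + 1) k, ⟨?_, ?_, ?_⟩, e1,
    by simp, by simp⟩
  · intro j hj
    rw [e3 j hj]
    rcases Nat.lt_or_ge j (m + 1) with h1 | h1
    · rw [e1 j (by omega)]
      exact h.1 j (by omega)
    · have : j = m + 1 := by omega
      subst this
      simpa using hx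
  · rw [e2 0 (by omega)]
    exact h.2.1
  · intro j hj
    rw [e3 (j + 1) (by omega), e1 j (by omega), e2 j (by omega)]
    rcases Nat.lt_or_ge j m with h1 | h1
    · rw [e1 (j + 1) (by omega), e2 (j + 1) (by omega)]
      exact h.2.2 j h1
    · have : j = m := by omega
      subst this
      simpa using hk

theorem Pat.start (B : V ≃ₗ[F] V) {v : V} (hv : v ≠ 0) : Pat B 0 (fun _ => v) (fun _ => 0) := by
  refine ⟨fun j hj => ?_, rfl, fun j hj => absurd hj (by omega)⟩
  have : j = 0 := by omega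
  subst this
  simpa [Sp_zero] using hv

theorem Pat.extend [FiniteDimensional F V] {B : V ≃ₗ[F] V} {m : ℕ} {b : ℕ → V} {c : ℕ → ℕ}
    (h : Pat B m b c) (k : ℕ) (hk : m + k + 1 ≤ finrank F V) :
    ∃ b' c', Pat B (m + k) b' c' ∧ b' 0 = b 0 ∧ c m ≤ c' (m + k) := by
  induction k with
  | zero => exact ⟨b, c, h, rfl, le_rfl⟩
  | succ k ih =>
    obtain ⟨b', c', h', h0, hc⟩ := ih (by omega)
    by_cases hT : B (b' (m + k)) ∈ Sp F b' (m + k + 1)
    · obtain ⟨x, hx⟩ := exists_notMem_of_lt (Sp F b' (m + k + 1))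
        (lt_of_le_of_lt (finrank_Sp_le _ _) (by omega))
      obtain ⟨b2, c2, h2, e1, -, e3⟩ := h'.step x hx _ (Or.inr ⟨rfl, hT⟩)
      exact ⟨b2, c2, h2, by rw [e1 0 (by omega), h0], by rw [← add_assoc, e3]; exact hc⟩
    · obtain ⟨b2, c2, h2, e1, -, e3⟩ := h'.step _ hT _ (Or.inl ⟨rfl, rfl⟩)
      exact ⟨b2, c2, h2, by rw [e1 0 (by omega), h0], by rw [← add_assoc, e3]; omega⟩

theorem Pat.count {B : V ≃ₗ[F] V} {m : ℕ} {b : ℕ → V} {c : ℕ → ℕ} (h : Pat B m b c) (j k : ℕ)
    (hk : j + k ≤ m) : c j ≤ c (j + k) ∧ c (j + k) ≤ c j + k := by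
  induction k with
  | zero => simp
  | succ k ih =>
    have h1 := ih (by omega)
    have h2 := h.2.2 (j + k) (by omega)
    rw [← add_assoc]
    omega

theorem Pat.inv {B : V ≃ₗ[F] V} {m : ℕ} {b : ℕ → V} {c : ℕ → ℕ} (h : Pat B m b c) {j : ℕ}
    (hj : j < m) (hS : B (b j) ∈ Sp F b (j + 1)) : ∀ x ∈ Sp F b (j + 1), B x ∈ Sp F b (j + 1) := by
  intro x hx
  refine map_mem_Sp (B : V →ₗ[F] V) (fun i hi => ?_) hx
  rcases Nat.lt_or_ge i j with h1 | h1
  · rcases h.2.2 i (by omega) with h2 | h2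
    · change B (b i) ∈ _
      rw [← h2.2]
      exact mem_Sp b (by omega)
    · exact Sp_mono b (by omega) h2.2
  · have : i = j := by omega
    subst this
    exact hS

theorem Pat.inv' {B : V ≃ₗ[F] V} {m : ℕ} {b : ℕ → V} {c : ℕ → ℕ} (h : Pat B m b c)
    (hS : B (b m) ∈ Sp F b (m + 1)) : ∀ x ∈ Sp F b (m + 1), B x ∈ Sp F b (m + 1) := by
  intro x hx
  refine map_mem_Sp (B : V →ₗ[F] V) (fun i hi => ?_) hx
  rcases Nat.lt_or_ge i m with h1 | h1
  · rcases h.2.2 i (by omega) with h2 | h2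
    · change B (b i) ∈ _
      rw [← h2.2]
      exact mem_Sp b (by omega)
    · exact Sp_mono b (by omega) h2.2
  · have : i = m := by omega
    subst this
    exact hS

theorem Pat.map {B : V ≃ₗ[F] V} {m : ℕ} {b : ℕ → V} {c : ℕ → ℕ} (h : Pat B m b c)
    (g : V ≃ₗ[F] W) (e : ℕ → W) (he : ∀ j ≤ m, g (b j) = e j) (hi : ∀ j ≤ m, e j ∉ Sp F e j) :
    Pat (cj g B) m e c := by
  refine ⟨hi, h.2.1, fun j hj => ?_⟩
  have h0 : cj g B (e j) = g (B (b j)) := by
    rw [← he j (by omega)]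
    simp
  rcases h.2.2 j hj with h1 | h1
  · left
    rw [h0, ← h1.2, he (j + 1) (by omega)]
    exact ⟨h1.1, rfl⟩
  · right
    rw [h0]
    refine ⟨h1.1, map_mem_Sp (g : V →ₗ[F] W) (fun i hi => ?_) h1.2⟩
    change g (b i) ∈ _
    rw [he i (by omega)]
    exact mem_Sp e hi

theorem mem_of_exchange {S T : Submodule F V} {x y : V} (hST : S ≤ T) (hx : x ∈ T)
    (h1 : x ∈ S ⊔ span F {y}) (h2 : x ∉ S) : y ∈ T := by
  obtain ⟨c, hc⟩ := mem_sup_span.1 h1
  have hc0 : c ≠ 0 := by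
    rintro rfl
    simp at hc
    exact h2 hc
  have : c • y = x - (x - c • y) := by abel
  rw [← T.smul_mem_iff hc0, this]
  exact T.sub_mem hx (hST hc)

/-- compatibility of the flag with `A` -/
def Steps (A : V ≃ₗ[F] V) (m : ℕ) (e : ℕ → V) (c : ℕ → ℕ) : Prop :=
  ∀ j < m, (c (j + 1) = c j + 1 → A (e (j + 1)) ∈ Sp F e (j + 2) ∧ A (e (j + 1)) ∉ Sp F e (j + 1)) ∧
    (c (j + 1) = c j → ∃ x ∈ Sp F e (j + 1), A x ∈ Sp F e (j + 2) ∧ A x ∉ Sp F e (j + 1))

theorem walk_core [FiniteDimensional F V] {A B : V ≃ₗ[F] V} {m : ℕ} {e : ℕ → V} {c : ℕ → ℕ}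
    (hn : finrank F V = m + 1) (h : Pat B m e c) (hs : Steps A m e c) :
    Cyc F (A * B : V ≃ₗ[F] V) (e 0) := by
  intro S h0 hS
  have key : ∀ j ≤ m, Sp F e (j + 1) ≤ S := by
    intro j hj
    induction j with
    | zero =>
      refine Sp_le fun i hi => ?_
      have : i = 0 := by omega
      rw [this]
      exact h0
    | succ j ih =>
      have ih' := ih (by omega)
      rw [Sp_succ, sup_le_iff, span_singleton_le_iff_mem]
      refine ⟨ih', ?_⟩
      rcases h.2.2 j (by omega) with h1 | h1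
      · obtain ⟨h2, h3⟩ := (hs j (by omega)).1 h1.1
        rw [Sp_succ e (j + 1)] at h2
        refine mem_of_exchange ih' ?_ h2 h3
        rw [h1.2]
        exact hS _ (ih' (mem_Sp e (by omega)))
      · obtain ⟨x, hx, h2, h3⟩ := (hs j (by omega)).2 h1.1
        rw [Sp_succ e (j + 1)] at h2
        refine mem_of_exchange ih' ?_ h2 h3
        have := inv_mem_of_inv B _ (h.inv (by omega) h1.2) x hx
        have h4 := hS _ (ih' this)
        simpa using h4
  rw [eq_top_iff, ← Sp_eq_top e hn (fun j hj => h.1 j (by omega))]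
  exact key m le_rfl

/-- the subspace can be completed using `t` downward steps -/
def Reach (A : V ≃ₗ[F] V) : ℕ → Submodule F V → Prop
  | 0, S => ∀ T : Submodule F V, S ≤ T → (∀ x ∈ T, A x ∈ T) → T = ⊤
  | t + 1, S => Reach A t S ∨
      ∃ (e : V) (c : F), c ≠ 0 ∧ A e - c • e ∈ S ∧ Reach A t (S ⊔ span F {e})

theorem Reach.mono {A : V ≃ₗ[F] V} {t : ℕ} {S S' : Submodule F V} (h : Reach A t S)
    (hS : S ≤ S') : Reach A t S' := by
  induction t generalizing S S' with
  | zero => exact fun T hT hA => h T (hS.trans hT) hA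
  | succ t ih =>
    rcases h with h | ⟨e, c, hc, h1, h2⟩
    · exact Or.inl (ih h hS)
    · exact Or.inr ⟨e, c, hc, hS h1, ih h2 (sup_le_sup_right hS _)⟩

theorem Reach.codim [FiniteDimensional F V] {A : V ≃ₗ[F] V} {t : ℕ} {S : Submodule F V}
    (h : Reach A t S) (hS : ∀ x ∈ S, A x ∈ S) : finrank F V ≤ finrank F S + t := by
  induction t generalizing S with
  | zero => rw [h S le_rfl hS]; simp
  | succ t ih =>
    rcases h with h | ⟨e, c, -, h1, h2⟩
    · have := ih h hS
      omega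
    · have h3 := ih h2 (by
        intro x hx
        obtain ⟨d, hd⟩ := mem_sup_span.1 hx
        refine mem_sup_span.2 ⟨d * c, ?_⟩
        have : A x - (d * c) • e = A (x - d • e) + d • (A e - c • e) := by
          rw [map_sub, map_smul]
          module
        rw [this]
        exact S.add_mem (hS _ hd) (S.smul_mem _ h1))
      have := finrank_sup_span_le S e
      omega

theorem finrank_le_comap [FiniteDimensional F V] (y : V →ₗ[F] V) (S : Submodule F V) :
    finrank F S ≤ finrank F (S.comap y) := by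
  have h1 : Function.Injective (Submodule.mapQ (S.comap y) S y le_rfl) := by
    rw [← LinearMap.ker_eq_bot, Submodule.mapQ, Submodule.ker_liftQ_eq_bot]
    intro x hx
    simpa using hx
  have h2 := LinearMap.finrank_le_finrank_of_injective h1
  have h3 := Submodule.finrank_quotient_add_finrank S
  have h4 := Submodule.finrank_quotient_add_finrank (S.comap y)
  omega

theorem exists_down [FiniteDimensional F V] (A : V ≃ₗ[F] V) (S : Submodule F V)
    (hS : ¬ ∀ x ∈ S, A x ∈ S) : ∃ e, e ∉ S ∧ A e - e ∈ S := by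
  by_contra hc
  push Not at hc
  apply hS
  have h1 : S.comap ((A : V →ₗ[F] V) - LinearMap.id) ≤ S := by
    intro x hx
    by_contra hx'
    exact hc x hx' (by simpa using hx)
  have h2 := Submodule.eq_of_le_of_finrank_le h1 (finrank_le_comap _ S)
  intro x hx
  have h3 : x ∈ S.comap ((A : V →ₗ[F] V) - LinearMap.id) := by rw [h2]; exact hx
  have h4 : A x - x ∈ S := by simpa using h3
  have : A x = (A x - x) + x := by abel
  rw [this]
  exact S.add_mem h4 hx

theorem walk_build [FiniteDimensional F V] {A : V ≃ₗ[F] V} {m : ℕ} {c : ℕ → ℕ}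
    (hn : finrank F V = m + 1)
    (hc : ∀ j < m, c (j + 1) = c j + 1 ∨ c (j + 1) = c j)
    (hc' : ∀ j k, j + k ≤ m → c j ≤ c (j + k) ∧ c (j + k) ≤ c j + k)
    {e0 : V} (h0 : e0 ≠ 0) (hR : Reach A (c m - c 0) (span F {e0})) (k : ℕ) (hk : k ≤ m) :
    ∃ e : ℕ → V, (∀ j ≤ k, e j ∉ Sp F e j) ∧ Steps A k e c ∧
      Reach A (c m - c k) (Sp F e (k + 1)) := by
  induction k with
  | zero =>
    refine ⟨fun _ => e0, fun j hj => ?_, fun j hj => absurd hj (by omega), ?_⟩
    · have : j = 0 := by omega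
      subst this
      simpa [Sp_zero] using h0
    · simpa [Sp_succ, Sp_zero] using hR
  | succ k ih =>
    obtain ⟨e, h1, h2, h3⟩ := ih (by omega)
    have hcnt := hc' (k + 1) (m - (k + 1)) (by omega)
    have hm : k + 1 + (m - (k + 1)) = m := by omega
    rw [hm] at hcnt
    have hfin := finrank_Sp_le (F := F) e (k + 1)
    have hni : Reach A (c m - c (k + 1)) (Sp F e (k + 1)) →
        ¬ ∀ x ∈ Sp F e (k + 1), A x ∈ Sp F e (k + 1) := by
      intro hr hi
      have := hr.codim hi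
      omega
    have main : ∃ x, x ∉ Sp F e (k + 1) ∧
        Reach A (c m - c (k + 1)) (Sp F e (k + 1) ⊔ span F {x}) ∧
        (c (k + 1) = c k + 1 → A x ∈ Sp F e (k + 1) ⊔ span F {x} ∧ A x ∉ Sp F e (k + 1)) ∧
        (c (k + 1) = c k → ∃ z ∈ Sp F e (k + 1), A z = x) := by
      rcases hc k (by omega) with hT | hS
      · have ht : c m - c k = (c m - c (k + 1)) + 1 := by omega
        rw [ht] at h3
        have aux : ∀ (x : V) (d : F), d ≠ 0 → x ∉ Sp F e (k + 1) → A x - d • x ∈ Sp F e (k + 1) →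
            A x ∈ Sp F e (k + 1) ⊔ span F {x} ∧ A x ∉ Sp F e (k + 1) := by
          intro x d hd hx hAx
          refine ⟨mem_sup_span.2 ⟨d, hAx⟩, fun hA => hx ?_⟩
          have : d • x = A x - (A x - d • x) := by abel
          rw [← (Sp F e (k + 1)).smul_mem_iff hd, this]
          exact Submodule.sub_mem _ hA hAx
        have aux2 : Reach A (c m - c (k + 1)) (Sp F e (k + 1)) → ∃ x, x ∉ Sp F e (k + 1) ∧
            Reach A (c m - c (k + 1)) (Sp F e (k + 1) ⊔ span F {x}) ∧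
            (c (k + 1) = c k + 1 → A x ∈ Sp F e (k + 1) ⊔ span F {x} ∧ A x ∉ Sp F e (k + 1)) ∧
            (c (k + 1) = c k → ∃ z ∈ Sp F e (k + 1), A z = x) := by
          intro hr
          obtain ⟨x, hx, hAx⟩ := exists_down A _ (hni hr)
          exact ⟨x, hx, hr.mono le_sup_left,
            fun _ => aux x 1 one_ne_zero hx (by simpa using hAx), fun h => absurd h (by omega)⟩
        rcases h3 with h3 | ⟨x, d, hd, h4, h5⟩
        · exact aux2 h3
        · by_cases hx : x ∈ Sp F e (k + 1)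
          · apply aux2
            rwa [sup_eq_left.2 ((span_singleton_le_iff_mem _ _).2 hx)] at h5
          · exact ⟨x, hx, h5, fun _ => aux x d hd hx h4, fun h => absurd h (by omega)⟩
      · rw [← hS] at h3
        have := hni h3
        push Not at this
        obtain ⟨z, hz, hAz⟩ := this
        exact ⟨A z, hAz, h3.mono le_sup_left, fun h => absurd h (by omega), fun _ => ⟨z, hz, rfl⟩⟩
    obtain ⟨x, hx, hr, hT, hS⟩ := main
    have e1 : ∀ j ≤ k, Function.update e (k + 1) x j = e j := fun j hj =>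
      Function.update_of_ne (by omega) _ _
    have e3 : ∀ j ≤ k + 1, Sp F (Function.update e (k + 1) x) j = Sp F e j := fun j hj =>
      Sp_congr fun i hi => e1 i (by omega)
    have e4 : Sp F (Function.update e (k + 1) x) (k + 2) = Sp F e (k + 1) ⊔ span F {x} := by
      rw [Sp_succ, e3 _ le_rfl]
      simp
    refine ⟨Function.update e (k + 1) x, fun j hj => ?_, fun j hj => ?_, by rw [e4]; exact hr⟩
    · rw [e3 j hj]
      rcases Nat.lt_or_ge j (k + 1) with h | h
      · rw [e1 j (by omega)]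
        exact h1 j (by omega)
      · have : j = k + 1 := by omega
        subst this
        simpa using hx
    · rcases Nat.lt_or_ge j k with h | h
      · rw [e3 (j + 1) (by omega), e3 (j + 2) (by omega), e1 (j + 1) (by omega)]
        exact h2 j h
      · have : j = k := by omega
        subst this
        rw [e4, e3 _ le_rfl, Function.update_self]
        refine ⟨hT, fun h => ?_⟩
        obtain ⟨z, hz, rfl⟩ := hS h
        exact ⟨z, hz, mem_sup_right (mem_span_singleton_self _), hx⟩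

theorem walk [FiniteDimensional F V] [FiniteDimensional F W] {A : W ≃ₗ[F] W} {B : V ≃ₗ[F] V}
    {m : ℕ} {b : ℕ → V} {c : ℕ → ℕ}
    (hn : finrank F V = m + 1) (hn' : finrank F W = m + 1) (h : Pat B m b c)
    {e0 : W} (h0 : e0 ≠ 0) (hR : Reach A (c m) (span F {e0})) :
    ∃ A' : V ≃ₗ[F] V, Sim A A' ∧ Cyc F (A' * B : V ≃ₗ[F] V) (b 0) := by
  obtain ⟨e, h1, h2, -⟩ := walk_build (A := A) (c := c) hn'
    (fun j hj => (h.2.2 j hj).imp (fun h => h.1) (fun h => h.1)) (fun j k hk => h.count j k hk) h0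
    (by simpa [h.2.1] using hR) m le_rfl
  obtain ⟨g, hg⟩ := exists_equiv b e hn hn' (Sp_eq_top b hn fun j hj => h.1 j (by omega))
    (Sp_eq_top e hn' fun j hj => h1 j (by omega))
  have h3 := walk_core hn' (h.map g e (fun j hj => hg j (by omega)) h1) h2
  refine ⟨cj g.symm A, sim_cj _ _, ?_⟩
  have h4 := h3.map (B := (cj g.symm A * B : V ≃ₗ[F] V)) (g.symm : W →ₗ[F] V) g.symm.surjective
    (fun x => by simp)
  rw [← hg 0 (by omega)] at h4
  simpa using h4

theorem reach_down {A : V ≃ₗ[F] V} {S : Submodule F V} {a : V}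
    (h : Reach A 0 (S ⊔ span F {a})) (t : ℕ) (S' : Submodule F V) (hS : S ≤ S')
    (ha : (fun x => A x - x)^[t] a ∈ S') : Reach A t S' := by
  induction t generalizing S' with
  | zero =>
    exact h.mono (sup_le hS ((span_singleton_le_iff_mem _ _).2 ha))
  | succ t ih =>
    refine Or.inr ⟨(fun x => A x - x)^[t] a, 1, one_ne_zero, ?_,
      ih _ (hS.trans le_sup_left) (mem_sup_right (mem_span_singleton_self _))⟩
    rw [Function.iterate_succ_apply'] at ha
    simpa using ha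

theorem exists_ne_zero_span {x z : V} (hz : z ≠ 0) : ∃ e : V, e ≠ 0 ∧ x ∈ span F {e} := by
  by_cases hx : x = 0
  · exact ⟨z, hz, by simp [hx]⟩
  · exact ⟨x, hx, mem_span_singleton_self _⟩

/-- cyclic times anything contains a cyclic map with prescribed cyclic vector -/
theorem cyc_mul [FiniteDimensional F V] [FiniteDimensional F W] {A : W ≃ₗ[F] W} (B : V ≃ₗ[F] V)
    (hn : finrank F V = finrank F W) (hA : ∃ a, Cyc F A a) {v : V} (hv : v ≠ 0) :
    ∃ A' : V ≃ₗ[F] V, Sim A A' ∧ Cyc F (A' * B : V ≃ₗ[F] V) v := by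
  obtain ⟨a, ha⟩ := hA
  have hpos : 0 < finrank F V := finrank_pos_iff_exists_ne_zero.2 ⟨v, hv⟩
  obtain ⟨m, hm⟩ : ∃ m, finrank F V = m + 1 := ⟨finrank F V - 1, by omega⟩
  obtain ⟨b, c, h1, h2, -⟩ := (Pat.start B hv).extend m (by omega)
  rw [zero_add] at h1
  obtain ⟨z, hz⟩ := finrank_pos_iff_exists_ne_zero.1 (hn ▸ hpos)
  obtain ⟨e0, h3, h4⟩ := exists_ne_zero_span (F := F) (x := (fun x => A x - x)^[c m] a) hz
  have := walk hm (hn ▸ hm) h1 h3 (reach_down (S := ⊥) (a := a)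
    (fun T hT hA => ha T (hT (mem_sup_right (mem_span_singleton_self _))) hA) _ _ bot_le h4)
  rwa [h2] at this

/-- version with two extra eigenvectors -/
theorem cyc_mul2 [FiniteDimensional F V] [FiniteDimensional F W] {A : W ≃ₗ[F] W} {B : V ≃ₗ[F] V}
    (hn : finrank F V = finrank F W) {k : ℕ} {b : ℕ → V} {c : ℕ → ℕ} (h : Pat B k b c)
    (hc : 2 ≤ c k) {a e1 e2 : W} {μ : F} (hμ : μ ≠ 0) (h1 : A e1 = μ • e1) (h2 : A e2 = μ • e2)
    (hg : ∀ T : Submodule F W, a ∈ T → e1 ∈ T → e2 ∈ T → (∀ x ∈ T, A x ∈ T) → T = ⊤) :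
    ∃ A' : V ≃ₗ[F] V, Sim A A' ∧ ∃ v, Cyc F (A' * B : V ≃ₗ[F] V) v := by
  have hk : k + 1 ≤ finrank F V :=
    (le_finrank_Sp b (k + 1) fun j hj => h.1 j (by omega)).trans (Submodule.finrank_le _)
  obtain ⟨b', c', h3, -, h4⟩ := h.extend (finrank F V - (k + 1)) (by omega)
  set m := k + (finrank F V - (k + 1)) with hm
  have hm' : finrank F V = m + 1 := by omega
  obtain ⟨z, hz⟩ := finrank_pos_iff_exists_ne_zero.1 (show 0 < finrank F W by omega)
  obtain ⟨t, ht⟩ : ∃ t, c' m = t + 2 := ⟨c' m - 2, by omega⟩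
  obtain ⟨e0, h5, h6⟩ := exists_ne_zero_span (F := F) (x := (fun x => A x - x)^[t] a) hz
  have hR : Reach A (c' m) (span F {e0}) := by
    rw [ht]
    refine Or.inr ⟨e1, μ, hμ, by simp [h1], Or.inr ⟨e2, μ, hμ, by simp [h2], ?_⟩⟩
    refine reach_down (S := span F {e1} ⊔ span F {e2}) (a := a) (fun T hT hA => ?_) _ _
      (sup_le_sup_right le_sup_right _) (mem_sup_left (mem_sup_left h6))
    exact hg T (hT (mem_sup_right (mem_span_singleton_self _)))
      (hT (mem_sup_left (mem_sup_left (mem_span_singleton_self _))))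
      (hT (mem_sup_left (mem_sup_right (mem_span_singleton_self _)))) hA
  obtain ⟨A', h7, h8⟩ := walk hm' (hn ▸ hm') h3 h5 hR
  exact ⟨A', h7, _, h8⟩

end Pool.Agent.Lib.MP_485c8a_al
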